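import Pool.Agent.Lib.RC68.Range

set_option autoImplicit false

namespace Pool.Agent.Lib.RC68

open Pool.Agent.Lib.MP_ea7ca7_co

def sk0 : Sk := (2, 9,
  [((1,8),-1,(1,0,1)), ((1,7),1,(1,-1,0)), ((1,6),-1,(0,-1,-1)), ((0,6),1,(1,0,-1)), ((0,5),-1,(0,1,-1)), ((0,4),1,(-1,1,0)), ((1,4),-1,(-1,0,-1)), ((1,3),1,(-1,-1,0)), ((1,2),-1,(0,-1,1)), ((0,2),1,(-1,0,1)), ((0,1),-1,(0,1,1)), ((0,0),1,(1,1,0))],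
  [((1,1),(1,1,1)), ((0,0),(1,1,-1)), ((1,0),(1,0,0)), ((0,1),(0,1,0)), ((0,2),(-1,1,1)), ((1,2),(0,0,1)), ((1,3),(-1,-1,1)), ((0,3),(-1,0,0)), ((2,2),(1,-1,1)), ((2,3),(0,-1,0)), ((2,4),(-1,-1,-1)), ((1,4),(-1,0,0)), ((1,5),(-1,1,-1)), ((2,5),(0,0,-1)), ((0,4),(-1,1,1)), ((0,5),(0,1,0)), ((0,6),(1,1,-1)), ((1,6),(0,0,-1)), ((1,7),(1,-1,-1)), ((0,7),(1,0,0)), ((2,6),(-1,-1,-1)), ((2,7),(0,-1,0)), ((2,8),(1,-1,1)), ((1,8),(1,0,0)), ((1,9),(1,1,1)), ((2,9),(0,0,1))],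
  [(2,9),(1,9),(2,8),(0,9),(2,7),(-1,9),(0,8),(1,5),(2,6),(-1,8),(0,7),(2,5),(-1,7),(2,4),(-1,6),(2,3),(-1,5),(2,2),(-1,4),(0,3),(2,1),(-1,3),(1,1),(2,0),(-1,2),(1,0),(2,-1),(-1,1),(1,-1),(-1,0),(0,-1),(-1,-1)])

lemma sk0_ok : sk0.ok := by decide +kernel

def sk1 : Sk := (5, 6,
  [((1,5),-1,(-1,0,1)), ((1,4),1,(0,1,1)), ((2,4),-1,(-1,1,0)), ((2,3),1,(0,1,-1)), ((3,2),1,(0,-1,-1)), ((2,2),-1,(1,0,-1)), ((4,0),-1,(-1,0,-1)), ((2,1),1,(1,-1,0)), ((3,0),1,(-1,-1,0)), ((2,0),-1,(0,-1,1)), ((1,0),1,(1,0,1)), ((0,0),-1,(1,1,0))],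
  [((1,0),(1,1,1)), ((0,1),(1,1,-1)), ((1,1),(1,0,0)), ((0,0),(0,1,0)), ((2,1),(1,-1,1)), ((2,0),(0,0,1)), ((3,0),(-1,-1,1)), ((3,1),(0,-1,0)), ((4,1),(-1,-1,-1)), ((4,0),(-1,0,0)), ((3,2),(1,-1,-1)), ((2,2),(1,0,0)), ((5,0),(-1,1,-1)), ((5,1),(0,0,-1)), ((2,3),(1,1,-1)), ((3,3),(0,0,-1)), ((4,3),(-1,-1,-1)), ((4,2),(0,-1,0)), ((3,4),(-1,1,-1)), ((2,4),(0,1,0)), ((2,5),(-1,1,1)), ((3,5),(-1,0,0)), ((1,4),(1,1,1)), ((1,5),(0,0,1)), ((1,6),(-1,-1,1)), ((2,6),(-1,0,0))],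
  [(3,4),(4,5),(5,6),(3,5),(4,6),(3,3),(4,4),(5,5),(2,5),(3,6),(4,3),(5,4),(2,6),(3,1),(4,2),(5,3),(1,6),(4,1),(5,2),(0,6),(5,1),(-1,6),(0,5),(5,0),(-1,5),(0,4),(1,3),(5,-1),(-1,4),(0,3),(1,2),(4,-1),(-1,3),(0,2),(1,1),(3,-1),(-1,2),(0,1),(2,-1),(-1,1),(1,-1),(-1,0),(0,-1),(-1,-1)])

lemma sk1_ok : sk1.ok := by decide +kernel

def sk2 : Sk := (5, 6,
  [((3,0),-1,(1,-1,0)), ((3,1),1,(0,-1,-1)), ((2,1),-1,(1,0,-1)), ((2,2),1,(0,1,-1)), ((1,3),1,(0,1,1)), ((2,3),-1,(-1,1,0)), ((4,5),-1,(-1,0,-1)), ((2,4),1,(-1,0,1)), ((3,5),1,(-1,-1,0)), ((2,5),-1,(0,-1,1)), ((1,5),1,(1,0,1)), ((0,5),-1,(1,1,0))],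
  [((1,5),(1,1,1)), ((0,6),(1,1,-1)), ((1,6),(1,0,0)), ((0,5),(0,1,0)), ((2,6),(1,-1,1)), ((2,5),(0,0,1)), ((3,5),(-1,-1,1)), ((3,6),(0,-1,0)), ((4,6),(-1,-1,-1)), ((4,5),(-1,0,0)), ((2,4),(-1,1,1)), ((3,4),(-1,0,0)), ((5,5),(-1,1,-1)), ((5,6),(0,0,-1)), ((3,3),(-1,1,-1)), ((2,3),(0,1,0)), ((2,2),(1,1,-1)), ((3,2),(0,0,-1)), ((1,3),(1,1,1)), ((1,4),(0,0,1)), ((3,1),(1,-1,-1)), ((2,1),(1,0,0)), ((4,2),(-1,-1,-1)), ((4,1),(0,-1,0)), ((4,0),(1,-1,1)), ((3,0),(1,0,0))],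
  [(5,6),(4,6),(5,5),(3,6),(3,4),(5,4),(2,6),(3,3),(4,4),(5,3),(1,6),(3,2),(4,3),(5,2),(0,6),(4,2),(5,1),(-1,6),(1,4),(4,1),(5,0),(-1,5),(0,4),(4,0),(5,-1),(-1,4),(0,3),(1,2),(4,-1),(-1,3),(0,2),(1,1),(2,0),(3,-1),(-1,2),(0,1),(1,0),(2,-1),(-1,1),(0,0),(1,-1),(-1,0),(0,-1),(-1,-1)])

lemma sk2_ok : sk2.ok := by decide +kernel

def sk3 : Sk := (4, 7,
  [((2,0),-1,(0,-1,-1)), ((3,0),1,(1,0,-1)), ((3,1),-1,(0,1,-1)), ((3,2),1,(-1,1,0)), ((2,2),-1,(-1,0,-1)), ((3,3),-1,(-1,0,1)), ((2,3),1,(-1,-1,0)), ((2,4),-1,(0,-1,1)), ((1,4),1,(1,-1,0)), ((1,6),1,(0,1,1)), ((1,5),-1,(1,0,1)), ((0,5),1,(1,1,0))],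
  [((1,6),(1,1,1)), ((0,5),(1,1,-1)), ((1,5),(1,0,0)), ((0,6),(0,1,0)), ((2,5),(1,-1,1)), ((2,6),(0,0,1)), ((1,4),(1,-1,-1)), ((2,4),(0,-1,0)), ((2,7),(-1,1,1)), ((1,7),(0,1,0)), ((3,4),(-1,-1,1)), ((3,5),(0,0,1)), ((2,3),(-1,-1,-1)), ((3,3),(-1,0,0)), ((4,3),(-1,1,1)), ((4,4),(0,0,1)), ((3,2),(-1,1,-1)), ((2,2),(0,0,-1)), ((4,2),(0,1,0)), ((4,1),(1,1,-1)), ((3,1),(0,0,-1)), ((3,0),(1,-1,-1)), ((4,0),(1,0,0)), ((2,1),(-1,-1,-1)), ((2,0),(0,-1,0))],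
  [(2,5),(3,6),(4,7),(2,6),(3,7),(3,5),(4,6),(2,7),(3,4),(4,5),(1,7),(4,4),(0,7),(4,3),(-1,7),(0,6),(4,2),(-1,6),(4,1),(-1,5),(0,4),(1,3),(4,0),(-1,4),(0,3),(1,2),(2,1),(4,-1),(-1,3),(0,2),(1,1),(3,-1),(-1,2),(0,1),(1,0),(2,-1),(-1,1),(0,0),(1,-1),(-1,0),(0,-1),(-1,-1)])

lemma sk3_ok : sk3.ok := by decide +kernel

def sk4 : Sk := (4, 7,
  [((2,0),1,(0,1,-1)), ((3,1),1,(-1,0,-1)), ((1,6),-1,(0,-1,1)), ((2,1),-1,(-1,1,0)), ((0,6),1,(-1,-1,0)), ((2,2),1,(-1,0,1)), ((0,5),-1,(0,-1,-1)), ((1,2),-1,(0,1,1)), ((1,4),-1,(1,-1,0)), ((0,4),1,(1,0,-1)), ((1,3),1,(1,0,1)), ((0,3),-1,(1,1,0))],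
  [((1,3),(1,1,1)), ((0,4),(1,1,-1)), ((1,4),(1,0,0)), ((0,3),(0,1,0)), ((2,4),(1,-1,1)), ((2,3),(0,0,1)), ((1,5),(1,-1,-1)), ((0,5),(0,0,-1)), ((2,5),(0,-1,0)), ((2,2),(-1,1,1)), ((1,2),(0,1,0)), ((0,6),(-1,-1,-1)), ((1,6),(0,-1,0)), ((3,3),(-1,-1,1)), ((3,2),(-1,0,0)), ((1,7),(-1,-1,1)), ((0,7),(-1,0,0)), ((3,1),(-1,1,-1)), ((2,1),(0,1,0)), ((2,6),(1,-1,1)), ((2,7),(0,0,1)), ((4,2),(-1,-1,-1)), ((4,1),(0,0,-1)), ((2,0),(1,1,-1)), ((3,0),(0,0,-1))],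
  [(1,5),(2,5),(3,6),(4,7),(2,6),(3,7),(2,4),(3,5),(4,6),(2,7),(2,3),(3,4),(4,5),(1,7),(3,3),(4,4),(0,7),(3,2),(4,3),(-1,7),(4,2),(-1,6),(4,1),(-1,5),(4,0),(-1,4),(3,0),(4,-1),(-1,3),(0,2),(1,1),(3,-1),(-1,2),(0,1),(1,0),(2,-1),(-1,1),(0,0),(1,-1),(-1,0),(0,-1),(-1,-1)])

lemma sk4_ok : sk4.ok := by decide +kernel

def sk5 : Sk := (4, 6,
  [((3,5),1,(-1,1,0)), ((3,4),-1,(0,1,-1)), ((2,4),1,(-1,0,-1)), ((3,3),1,(1,0,-1)), ((2,1),-1,(1,0,1)), ((2,3),-1,(0,-1,-1)), ((2,2),1,(1,-1,0)), ((0,3),-1,(-1,-1,0)), ((1,2),-1,(0,-1,1)), ((0,2),1,(-1,0,1)), ((0,1),-1,(0,1,1)), ((0,0),1,(1,1,0))],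
  [((1,1),(1,1,1)), ((0,0),(1,1,-1)), ((1,0),(1,0,0)), ((0,1),(0,1,0)), ((0,2),(-1,1,1)), ((1,2),(0,0,1)), ((1,3),(-1,-1,1)), ((0,3),(-1,0,0)), ((2,2),(1,-1,1)), ((2,3),(0,-1,0)), ((0,4),(-1,-1,-1)), ((1,4),(0,-1,0)), ((3,3),(1,-1,-1)), ((3,2),(1,0,0)), ((2,4),(-1,-1,-1)), ((3,4),(0,0,-1)), ((3,1),(1,1,1)), ((2,1),(0,0,1)), ((4,4),(1,1,-1)), ((4,3),(1,0,0)), ((3,5),(-1,1,-1)), ((2,5),(-1,0,0)), ((4,5),(0,1,0)), ((4,6),(-1,1,1)), ((3,6),(-1,0,0))],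
  [(4,6),(3,6),(4,5),(2,6),(4,4),(1,6),(2,5),(4,3),(0,6),(1,3),(1,5),(4,2),(-1,6),(0,5),(1,4),(3,2),(4,1),(-1,5),(0,4),(3,1),(4,0),(-1,4),(3,0),(4,-1),(-1,3),(1,1),(2,0),(3,-1),(-1,2),(1,0),(2,-1),(-1,1),(1,-1),(-1,0),(0,-1),(-1,-1)])

lemma sk5_ok : sk5.ok := by decide +kernel

def sk6 : Sk := (4, 6,
  [((3,5),1,(-1,1,0)), ((3,2),-1,(1,-1,0)), ((3,4),-1,(0,1,-1)), ((3,3),1,(1,0,-1)), ((1,4),-1,(-1,0,-1)), ((2,3),-1,(0,-1,-1)), ((1,3),1,(-1,-1,0)), ((1,2),-1,(0,-1,1)), ((0,2),1,(-1,0,1)), ((1,1),1,(1,0,1)), ((0,1),-1,(0,1,1)), ((0,0),1,(1,1,0))],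
  [((1,1),(1,1,1)), ((0,0),(1,1,-1)), ((1,0),(1,0,0)), ((0,1),(0,1,0)), ((0,2),(-1,1,1)), ((1,2),(0,0,1)), ((2,2),(1,-1,1)), ((2,1),(1,0,0)), ((1,3),(-1,-1,1)), ((0,3),(-1,0,0)), ((2,3),(0,-1,0)), ((2,4),(-1,-1,-1)), ((1,4),(-1,0,0)), ((3,3),(1,-1,-1)), ((3,4),(0,0,-1)), ((1,5),(-1,1,-1)), ((2,5),(0,0,-1)), ((4,4),(1,1,-1)), ((4,3),(1,0,0)), ((3,5),(-1,1,-1)), ((4,5),(0,1,0)), ((4,2),(1,-1,1)), ((3,2),(0,-1,0)), ((4,6),(-1,1,1)), ((3,6),(-1,0,0))],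
  [(4,6),(3,6),(4,5),(2,4),(2,6),(4,4),(1,6),(2,5),(4,3),(0,6),(1,5),(4,2),(-1,6),(0,5),(4,1),(-1,5),(0,4),(2,2),(3,1),(4,0),(-1,4),(0,3),(2,1),(3,0),(4,-1),(-1,3),(2,0),(3,-1),(-1,2),(1,0),(2,-1),(-1,1),(1,-1),(-1,0),(0,-1),(-1,-1)])

lemma sk6_ok : sk6.ok := by decide +kernel

def sk7 : Sk := (4, 7,
  [((3,0),1,(0,1,-1)), ((3,1),-1,(1,0,-1)), ((3,2),1,(1,-1,0)), ((3,4),1,(-1,0,1)), ((2,2),-1,(0,-1,-1)), ((3,3),-1,(0,-1,1)), ((2,3),1,(-1,-1,0)), ((1,3),-1,(-1,0,-1)), ((1,4),1,(-1,1,0)), ((1,5),-1,(0,1,1)), ((1,6),1,(1,0,1)), ((0,6),-1,(1,1,0))],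
  [((1,6),(1,1,1)), ((0,7),(1,1,-1)), ((1,7),(1,0,0)), ((0,6),(0,1,0)), ((2,7),(1,-1,1)), ((2,6),(0,0,1)), ((2,5),(-1,1,1)), ((1,5),(0,1,0)), ((1,4),(-1,1,-1)), ((2,4),(-1,0,0)), ((2,3),(-1,-1,-1)), ((1,3),(0,0,-1)), ((3,4),(-1,-1,1)), ((3,3),(0,-1,0)), ((4,3),(1,-1,1)), ((4,4),(0,0,1)), ((3,2),(1,-1,-1)), ((2,2),(0,0,-1)), ((4,2),(1,0,0)), ((4,5),(-1,1,1)), ((3,5),(-1,0,0)), ((4,1),(1,1,-1)), ((3,1),(0,0,-1)), ((3,0),(-1,1,-1)), ((4,0),(0,1,0))],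
  [(2,4),(2,5),(3,6),(4,7),(2,6),(3,7),(3,5),(4,6),(2,7),(4,5),(1,7),(4,4),(0,7),(4,3),(-1,7),(4,2),(-1,6),(0,5),(4,1),(-1,5),(0,4),(4,0),(-1,4),(0,3),(1,2),(2,1),(4,-1),(-1,3),(0,2),(1,1),(2,0),(3,-1),(-1,2),(0,1),(1,0),(2,-1),(-1,1),(0,0),(1,-1),(-1,0),(0,-1),(-1,-1)])

lemma sk7_ok : sk7.ok := by decide +kernel

def sk8 : Sk := (4, 7,
  [((3,0),-1,(-1,0,-1)), ((2,0),1,(-1,1,0)), ((2,1),-1,(0,1,-1)), ((0,6),1,(0,-1,-1)), ((2,2),1,(1,0,-1)), ((0,5),-1,(-1,-1,0)), ((1,4),-1,(0,-1,1)), ((2,3),-1,(1,-1,0)), ((0,4),1,(-1,0,1)), ((1,3),1,(1,0,1)), ((0,3),-1,(0,1,1)), ((0,2),1,(1,1,0))],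
  [((1,3),(1,1,1)), ((0,2),(1,1,-1)), ((1,2),(1,0,0)), ((0,3),(0,1,0)), ((0,4),(-1,1,1)), ((1,4),(0,0,1)), ((2,4),(1,-1,1)), ((2,3),(1,0,0)), ((1,5),(-1,-1,1)), ((0,5),(-1,0,0)), ((3,3),(1,-1,-1)), ((3,4),(0,-1,0)), ((2,5),(0,-1,0)), ((0,6),(-1,-1,-1)), ((1,6),(0,-1,0)), ((2,2),(1,1,-1)), ((3,2),(0,0,-1)), ((1,7),(1,-1,-1)), ((0,7),(0,0,-1)), ((3,1),(-1,1,-1)), ((2,1),(0,1,0)), ((2,0),(-1,1,1)), ((3,0),(-1,0,0)), ((4,0),(-1,-1,-1)), ((4,1),(0,0,-1))],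
  [(2,5),(3,6),(4,7),(1,5),(2,6),(3,7),(2,4),(3,5),(4,6),(1,6),(2,7),(3,4),(4,5),(1,7),(3,3),(4,4),(0,7),(3,2),(4,3),(-1,7),(3,1),(4,2),(-1,6),(4,1),(-1,5),(4,0),(-1,4),(1,2),(4,-1),(-1,3),(1,1),(3,-1),(-1,2),(0,1),(1,0),(2,-1),(-1,1),(0,0),(1,-1),(-1,0),(0,-1),(-1,-1)])

lemma sk8_ok : sk8.ok := by decide +kernel

def sk9 : Sk := (6, 5,
  [((5,1),-1,(-1,0,-1)), ((4,1),1,(0,1,-1)), ((4,2),-1,(-1,1,0)), ((3,2),1,(0,1,1)), ((0,4),-1,(-1,0,1)), ((1,3),-1,(0,-1,1)), ((2,2),-1,(1,0,1)), ((0,3),1,(-1,-1,0)), ((1,2),1,(1,-1,0)), ((0,2),-1,(0,-1,-1)), ((0,1),1,(1,0,-1)), ((0,0),-1,(1,1,0))],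
  [((1,0),(1,1,1)), ((0,1),(1,1,-1)), ((1,1),(1,0,0)), ((0,0),(0,1,0)), ((1,2),(1,-1,-1)), ((0,2),(0,0,-1)), ((0,3),(-1,-1,-1)), ((1,3),(0,-1,0)), ((2,3),(1,-1,1)), ((2,2),(1,0,0)), ((1,4),(-1,-1,1)), ((0,4),(-1,0,0)), ((3,2),(1,1,1)), ((3,3),(0,0,1)), ((2,4),(0,0,1)), ((0,5),(-1,1,1)), ((1,5),(0,0,1)), ((4,3),(-1,1,1)), ((4,2),(0,1,0)), ((5,2),(-1,1,-1)), ((5,3),(-1,0,0)), ((4,1),(1,1,-1)), ((5,1),(0,0,-1)), ((6,1),(-1,-1,-1)), ((6,2),(-1,0,0))],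
  [(4,3),(5,4),(6,5),(3,3),(4,4),(5,5),(5,3),(6,4),(2,3),(3,4),(4,5),(5,2),(6,3),(2,4),(3,5),(6,2),(1,4),(2,5),(6,1),(1,5),(6,0),(0,5),(5,0),(6,-1),(-1,5),(3,1),(4,0),(5,-1),(-1,4),(2,1),(3,0),(4,-1),(-1,3),(1,1),(2,0),(3,-1),(-1,2),(1,0),(2,-1),(-1,1),(1,-1),(-1,0),(0,-1),(-1,-1)])

lemma sk9_ok : sk9.ok := by decide +kernel

def sk10 : Sk := (6, 5,
  [((5,0),-1,(-1,1,0)), ((5,4),-1,(0,-1,1)), ((5,1),1,(0,1,-1)), ((5,3),1,(1,-1,0)), ((4,1),-1,(-1,0,-1)), ((5,2),-1,(1,0,-1)), ((4,2),1,(0,-1,-1)), ((3,2),-1,(-1,-1,0)), ((2,2),1,(-1,0,1)), ((1,2),-1,(0,1,1)), ((1,3),1,(1,0,1)), ((0,3),-1,(1,1,0))],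
  [((1,3),(1,1,1)), ((0,4),(1,1,-1)), ((1,4),(1,0,0)), ((0,3),(0,1,0)), ((2,4),(1,-1,1)), ((2,3),(0,0,1)), ((2,2),(-1,1,1)), ((1,2),(0,1,0)), ((3,3),(-1,-1,1)), ((3,2),(-1,0,0)), ((4,2),(-1,-1,-1)), ((4,3),(0,-1,0)), ((5,3),(1,-1,-1)), ((5,2),(0,0,-1)), ((6,2),(1,1,-1)), ((6,3),(1,0,0)), ((5,1),(-1,1,-1)), ((4,1),(-1,0,0)), ((6,1),(0,1,0)), ((6,4),(1,-1,1)), ((5,4),(0,-1,0)), ((6,0),(-1,1,1)), ((5,0),(-1,0,0)), ((5,5),(-1,-1,1)), ((6,5),(0,0,1))],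
  [(6,5),(5,5),(6,4),(4,3),(4,5),(6,3),(3,3),(3,5),(4,4),(6,2),(2,3),(2,5),(3,4),(6,1),(1,5),(2,4),(6,0),(0,5),(1,4),(6,-1),(-1,5),(0,4),(3,1),(4,0),(5,-1),(-1,4),(2,1),(3,0),(4,-1),(-1,3),(0,2),(1,1),(2,0),(3,-1),(-1,2),(0,1),(1,0),(2,-1),(-1,1),(0,0),(1,-1),(-1,0),(0,-1),(-1,-1)])

lemma sk10_ok : sk10.ok := by decide +kernel

def sk11 : Sk := (5, 6,
  [((2,5),-1,(1,-1,0)), ((3,4),-1,(0,-1,-1)), ((2,4),1,(1,0,-1)), ((2,3),-1,(0,1,-1)), ((2,2),1,(-1,1,0)), ((4,0),1,(-1,0,-1)), ((2,1),-1,(-1,0,1)), ((3,0),-1,(-1,-1,0)), ((1,1),1,(0,1,1)), ((2,0),1,(0,-1,1)), ((1,0),-1,(1,0,1)), ((0,0),1,(1,1,0))],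
  [((1,1),(1,1,1)), ((0,0),(1,1,-1)), ((1,0),(1,0,0)), ((0,1),(0,1,0)), ((2,0),(1,-1,1)), ((2,1),(0,0,1)), ((3,1),(-1,-1,1)), ((3,0),(0,-1,0)), ((2,2),(-1,1,1)), ((1,2),(0,1,0)), ((4,0),(-1,-1,-1)), ((4,1),(-1,0,0)), ((3,2),(-1,0,0)), ((5,1),(-1,1,-1)), ((5,0),(0,0,-1)), ((3,3),(-1,1,-1)), ((2,3),(0,1,0)), ((2,4),(1,1,-1)), ((3,4),(0,0,-1)), ((3,5),(1,-1,-1)), ((2,5),(1,0,0)), ((4,4),(-1,-1,-1)), ((4,5),(0,-1,0)), ((2,6),(1,-1,1)), ((3,6),(0,-1,0))],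
  [(4,5),(5,6),(3,5),(4,6),(3,3),(4,4),(5,5),(3,6),(3,2),(4,3),(5,4),(2,6),(3,1),(4,2),(5,3),(1,6),(4,1),(5,2),(0,6),(1,5),(5,1),(-1,6),(0,5),(1,4),(5,0),(-1,5),(0,4),(1,3),(5,-1),(-1,4),(0,3),(1,2),(4,-1),(-1,3),(0,2),(3,-1),(-1,2),(0,1),(2,-1),(-1,1),(1,-1),(-1,0),(0,-1),(-1,-1)])

lemma sk11_ok : sk11.ok := by decide +kernel

def sk12 : Sk := (5, 6,
  [((2,0),-1,(-1,0,1)), ((1,1),-1,(0,1,1)), ((2,1),1,(-1,1,0)), ((2,2),-1,(0,1,-1)), ((2,3),1,(1,0,-1)), ((3,4),1,(0,-1,-1)), ((4,5),1,(-1,0,-1)), ((2,4),-1,(1,-1,0)), ((3,5),-1,(-1,-1,0)), ((2,5),1,(0,-1,1)), ((1,5),-1,(1,0,1)), ((0,5),1,(1,1,0))],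
  [((1,6),(1,1,1)), ((0,5),(1,1,-1)), ((1,5),(1,0,0)), ((0,6),(0,1,0)), ((2,5),(1,-1,1)), ((2,6),(0,0,1)), ((3,6),(-1,-1,1)), ((3,5),(0,-1,0)), ((4,5),(-1,-1,-1)), ((4,6),(-1,0,0)), ((3,4),(1,-1,-1)), ((2,4),(1,0,0)), ((5,6),(-1,1,-1)), ((5,5),(0,0,-1)), ((4,4),(0,0,-1)), ((2,3),(1,1,-1)), ((3,3),(0,0,-1)), ((3,2),(-1,1,-1)), ((2,2),(0,1,0)), ((2,1),(-1,1,1)), ((3,1),(-1,0,0)), ((3,0),(-1,-1,1)), ((2,0),(0,0,1)), ((1,2),(1,1,1)), ((1,1),(0,0,1))],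
  [(5,6),(4,6),(5,5),(3,6),(5,4),(2,6),(4,4),(5,3),(1,6),(4,3),(5,2),(0,6),(3,3),(4,2),(5,1),(-1,6),(1,4),(3,2),(4,1),(5,0),(-1,5),(0,4),(1,3),(3,1),(4,0),(5,-1),(-1,4),(0,3),(1,2),(3,0),(4,-1),(-1,3),(0,2),(3,-1),(-1,2),(0,1),(1,0),(2,-1),(-1,1),(0,0),(1,-1),(-1,0),(0,-1),(-1,-1)])

lemma sk12_ok : sk12.ok := by decide +kernel

def sk13 : Sk := (6, 5,
  [((5,0),-1,(1,-1,0)), ((5,4),-1,(-1,0,1)), ((5,1),1,(1,0,-1)), ((5,3),1,(-1,1,0)), ((4,1),-1,(0,-1,-1)), ((5,2),-1,(0,1,-1)), ((4,2),1,(-1,0,-1)), ((3,2),-1,(-1,-1,0)), ((1,3),1,(0,1,1)), ((2,2),1,(0,-1,1)), ((1,2),-1,(1,0,1)), ((0,2),1,(1,1,0))],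
  [((1,3),(1,1,1)), ((0,2),(1,1,-1)), ((1,2),(1,0,0)), ((0,3),(0,1,0)), ((2,2),(1,-1,1)), ((2,3),(0,0,1)), ((3,3),(-1,-1,1)), ((3,2),(0,-1,0)), ((2,4),(-1,1,1)), ((1,4),(0,1,0)), ((4,2),(-1,-1,-1)), ((4,3),(-1,0,0)), ((5,3),(-1,1,-1)), ((5,2),(0,0,-1)), ((6,2),(1,1,-1)), ((6,3),(0,1,0)), ((5,1),(1,-1,-1)), ((4,1),(0,-1,0)), ((6,1),(1,0,0)), ((6,4),(-1,1,1)), ((5,4),(-1,0,0)), ((6,0),(1,-1,1)), ((5,0),(0,-1,0)), ((5,5),(-1,-1,1)), ((6,5),(0,0,1))],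
  [(6,5),(5,5),(6,4),(4,3),(4,5),(6,3),(3,3),(3,5),(4,4),(6,2),(2,3),(2,5),(3,4),(6,1),(1,5),(2,4),(6,0),(0,5),(1,4),(6,-1),(-1,5),(0,4),(3,1),(4,0),(5,-1),(-1,4),(0,3),(2,1),(3,0),(4,-1),(-1,3),(1,1),(2,0),(3,-1),(-1,2),(0,1),(1,0),(2,-1),(-1,1),(0,0),(1,-1),(-1,0),(0,-1),(-1,-1)])

lemma sk13_ok : sk13.ok := by decide +kernel

def sk14 : Sk := (6, 5,
  [((4,1),1,(0,1,-1)), ((5,2),1,(-1,0,-1)), ((4,2),-1,(-1,1,0)), ((3,2),1,(0,1,1)), ((0,4),-1,(-1,0,1)), ((1,3),-1,(0,-1,1)), ((2,2),-1,(1,0,1)), ((0,3),1,(-1,-1,0)), ((1,2),1,(1,-1,0)), ((0,2),-1,(0,-1,-1)), ((0,1),1,(1,0,-1)), ((0,0),-1,(1,1,0))],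
  [((1,0),(1,1,1)), ((0,1),(1,1,-1)), ((1,1),(1,0,0)), ((0,0),(0,1,0)), ((1,2),(1,-1,-1)), ((0,2),(0,0,-1)), ((0,3),(-1,-1,-1)), ((1,3),(0,-1,0)), ((2,3),(1,-1,1)), ((2,2),(1,0,0)), ((1,4),(-1,-1,1)), ((0,4),(-1,0,0)), ((3,2),(1,1,1)), ((3,3),(0,0,1)), ((2,4),(0,0,1)), ((0,5),(-1,1,1)), ((1,5),(0,0,1)), ((4,3),(-1,1,1)), ((4,2),(0,1,0)), ((5,2),(-1,1,-1)), ((5,3),(-1,0,0)), ((6,3),(-1,-1,-1)), ((6,2),(0,0,-1)), ((4,1),(1,1,-1)), ((5,1),(0,0,-1))],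
  [(4,3),(5,4),(6,5),(3,3),(4,4),(5,5),(5,3),(6,4),(2,3),(3,4),(4,5),(6,3),(2,4),(3,5),(6,2),(1,4),(2,5),(6,1),(1,5),(5,1),(6,0),(0,5),(5,0),(6,-1),(-1,5),(3,1),(4,0),(5,-1),(-1,4),(2,1),(3,0),(4,-1),(-1,3),(1,1),(2,0),(3,-1),(-1,2),(1,0),(2,-1),(-1,1),(1,-1),(-1,0),(0,-1),(-1,-1)])

lemma sk14_ok : sk14.ok := by decide +kernel

def sk15 : Sk := (6, 5,
  [((5,1),-1,(-1,0,-1)), ((4,1),1,(0,1,-1)), ((4,2),-1,(-1,1,0)), ((2,3),1,(0,-1,1)), ((3,2),1,(0,1,1)), ((0,4),-1,(-1,0,1)), ((2,2),-1,(1,0,1)), ((0,3),1,(-1,-1,0)), ((1,2),1,(1,-1,0)), ((0,2),-1,(0,-1,-1)), ((0,1),1,(1,0,-1)), ((0,0),-1,(1,1,0))],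
  [((1,0),(1,1,1)), ((0,1),(1,1,-1)), ((1,1),(1,0,0)), ((0,0),(0,1,0)), ((1,2),(1,-1,-1)), ((0,2),(0,0,-1)), ((0,3),(-1,-1,-1)), ((1,3),(0,-1,0)), ((2,3),(1,-1,1)), ((2,2),(1,0,0)), ((1,4),(-1,-1,1)), ((0,4),(-1,0,0)), ((3,2),(1,1,1)), ((3,3),(0,0,1)), ((0,5),(-1,1,1)), ((1,5),(0,0,1)), ((4,3),(-1,1,1)), ((4,2),(0,1,0)), ((3,4),(-1,-1,1)), ((2,4),(0,-1,0)), ((5,2),(-1,1,-1)), ((5,3),(-1,0,0)), ((4,1),(1,1,-1)), ((5,1),(0,0,-1)), ((6,1),(-1,-1,-1)), ((6,2),(-1,0,0))],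
  [(4,3),(5,4),(6,5),(3,3),(4,4),(5,5),(5,3),(6,4),(3,4),(4,5),(5,2),(6,3),(1,3),(2,4),(3,5),(6,2),(1,4),(2,5),(6,1),(1,5),(6,0),(0,5),(5,0),(6,-1),(-1,5),(3,1),(4,0),(5,-1),(-1,4),(2,1),(3,0),(4,-1),(-1,3),(1,1),(2,0),(3,-1),(-1,2),(1,0),(2,-1),(-1,1),(1,-1),(-1,0),(0,-1),(-1,-1)])

lemma sk15_ok : sk15.ok := by decide +kernel

def sk16 : Sk := (6, 5,
  [((5,0),-1,(-1,1,0)), ((5,4),-1,(0,-1,1)), ((5,1),1,(0,1,-1)), ((5,3),1,(1,-1,0)), ((5,2),-1,(1,0,-1)), ((3,1),1,(-1,0,-1)), ((4,2),1,(0,-1,-1)), ((3,2),-1,(-1,-1,0)), ((2,2),1,(-1,0,1)), ((1,2),-1,(0,1,1)), ((1,3),1,(1,0,1)), ((0,3),-1,(1,1,0))],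
  [((1,3),(1,1,1)), ((0,4),(1,1,-1)), ((1,4),(1,0,0)), ((0,3),(0,1,0)), ((2,4),(1,-1,1)), ((2,3),(0,0,1)), ((2,2),(-1,1,1)), ((1,2),(0,1,0)), ((3,3),(-1,-1,1)), ((3,2),(-1,0,0)), ((4,2),(-1,-1,-1)), ((4,3),(0,-1,0)), ((5,3),(1,-1,-1)), ((5,2),(0,0,-1)), ((3,1),(-1,1,-1)), ((4,1),(0,0,-1)), ((6,2),(1,1,-1)), ((6,3),(1,0,0)), ((5,1),(-1,1,-1)), ((6,1),(0,1,0)), ((6,4),(1,-1,1)), ((5,4),(0,-1,0)), ((6,0),(-1,1,1)), ((5,0),(-1,0,0)), ((5,5),(-1,-1,1)), ((6,5),(0,0,1))],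
  [(6,5),(5,5),(6,4),(4,3),(4,5),(6,3),(3,3),(3,5),(4,4),(6,2),(2,3),(2,5),(3,4),(6,1),(1,5),(2,4),(6,0),(0,5),(1,4),(4,1),(6,-1),(-1,5),(0,4),(4,0),(5,-1),(-1,4),(2,1),(3,0),(4,-1),(-1,3),(0,2),(1,1),(2,0),(3,-1),(-1,2),(0,1),(1,0),(2,-1),(-1,1),(0,0),(1,-1),(-1,0),(0,-1),(-1,-1)])

lemma sk16_ok : sk16.ok := by decide +kernel

def sk17 : Sk := (6, 5,
  [((4,0),-1,(0,1,1)), ((4,1),1,(-1,1,0)), ((5,2),1,(0,1,-1)), ((5,4),1,(1,-1,0)), ((4,2),-1,(-1,0,-1)), ((5,3),-1,(1,0,-1)), ((4,3),1,(0,-1,-1)), ((3,3),-1,(-1,-1,0)), ((2,3),1,(-1,0,1)), ((2,4),-1,(0,-1,1)), ((1,4),1,(1,0,1)), ((0,4),-1,(1,1,0))],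
  [((1,4),(1,1,1)), ((0,5),(1,1,-1)), ((1,5),(1,0,0)), ((0,4),(0,1,0)), ((2,5),(1,-1,1)), ((2,4),(0,0,1)), ((3,4),(-1,-1,1)), ((3,5),(0,-1,0)), ((2,3),(-1,1,1)), ((3,3),(-1,0,0)), ((4,3),(-1,-1,-1)), ((4,4),(0,-1,0)), ((5,4),(1,-1,-1)), ((5,3),(0,0,-1)), ((6,3),(1,1,-1)), ((6,4),(1,0,0)), ((5,2),(-1,1,-1)), ((4,2),(-1,0,0)), ((6,2),(0,1,0)), ((6,5),(1,-1,1)), ((5,5),(0,-1,0)), ((4,1),(-1,1,1)), ((5,1),(0,1,0)), ((5,0),(1,1,1)), ((4,0),(0,0,1))],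
  [(6,5),(4,4),(5,5),(6,4),(3,4),(4,5),(6,3),(3,5),(6,2),(2,5),(6,1),(1,5),(5,1),(6,0),(0,5),(3,2),(5,0),(6,-1),(-1,5),(1,3),(2,2),(3,1),(5,-1),(-1,4),(0,3),(1,2),(2,1),(3,0),(4,-1),(-1,3),(0,2),(1,1),(2,0),(3,-1),(-1,2),(0,1),(1,0),(2,-1),(-1,1),(0,0),(1,-1),(-1,0),(0,-1),(-1,-1)])

lemma sk17_ok : sk17.ok := by decide +kernel

def sk18 : Sk := (6, 5,
  [((5,0),-1,(-1,1,0)), ((4,0),1,(0,1,-1)), ((1,4),-1,(-1,0,-1)), ((3,0),-1,(1,0,-1)), ((1,3),1,(-1,-1,0)), ((3,1),1,(0,-1,-1)), ((1,2),-1,(0,-1,1)), ((2,1),-1,(1,-1,0)), ((0,2),1,(-1,0,1)), ((1,1),1,(1,0,1)), ((0,1),-1,(0,1,1)), ((0,0),1,(1,1,0))],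
  [((1,1),(1,1,1)), ((0,0),(1,1,-1)), ((1,0),(1,0,0)), ((0,1),(0,1,0)), ((0,2),(-1,1,1)), ((1,2),(0,0,1)), ((2,2),(1,-1,1)), ((2,1),(1,0,0)), ((1,3),(-1,-1,1)), ((0,3),(-1,0,0)), ((3,1),(1,-1,-1)), ((3,2),(0,-1,0)), ((2,3),(0,-1,0)), ((4,2),(-1,-1,-1)), ((4,1),(0,0,-1)), ((2,4),(-1,-1,-1)), ((1,4),(-1,0,0)), ((4,0),(1,1,-1)), ((3,0),(1,0,0)), ((1,5),(-1,1,-1)), ((2,5),(0,0,-1)), ((5,1),(-1,1,-1)), ((5,0),(0,1,0)), ((6,0),(-1,1,1)), ((6,1),(-1,0,0))],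
  [(3,2),(4,3),(5,4),(6,5),(2,2),(3,3),(4,4),(5,5),(4,2),(5,3),(6,4),(2,3),(3,4),(4,5),(4,1),(5,2),(6,3),(2,4),(3,5),(5,1),(6,2),(2,5),(6,1),(1,5),(6,0),(0,5),(6,-1),(-1,5),(0,4),(5,-1),(-1,4),(0,3),(4,-1),(-1,3),(2,0),(3,-1),(-1,2),(1,0),(2,-1),(-1,1),(1,-1),(-1,0),(0,-1),(-1,-1)])

lemma sk18_ok : sk18.ok := by decide +kernel

def sk19 : Sk := (6, 4,
  [((5,0),-1,(1,-1,0)), ((4,0),1,(1,0,-1)), ((3,0),-1,(0,1,-1)), ((1,1),1,(0,1,1)), ((3,1),1,(-1,0,-1)), ((4,2),1,(0,-1,-1)), ((2,1),-1,(-1,1,0)), ((3,2),-1,(-1,-1,0)), ((2,2),1,(-1,0,1)), ((2,3),-1,(0,-1,1)), ((1,3),1,(1,0,1)), ((0,3),-1,(1,1,0))],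
  [((1,3),(1,1,1)), ((0,4),(1,1,-1)), ((1,4),(1,0,0)), ((0,3),(0,1,0)), ((2,4),(1,-1,1)), ((2,3),(0,0,1)), ((3,3),(-1,-1,1)), ((3,4),(0,-1,0)), ((2,2),(-1,1,1)), ((3,2),(-1,0,0)), ((4,2),(-1,-1,-1)), ((4,3),(0,-1,0)), ((3,1),(-1,1,-1)), ((2,1),(0,1,0)), ((5,3),(1,-1,-1)), ((5,2),(0,0,-1)), ((4,1),(0,0,-1)), ((1,1),(1,1,1)), ((1,2),(0,0,1)), ((4,0),(1,1,-1)), ((3,0),(0,1,0)), ((5,1),(1,-1,-1)), ((5,0),(1,0,0)), ((6,0),(1,-1,1)), ((6,1),(0,-1,0))],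
  [(5,3),(6,4),(4,3),(5,4),(4,1),(5,2),(6,3),(3,3),(4,4),(5,1),(6,2),(3,4),(6,1),(2,4),(6,0),(1,4),(6,-1),(0,4),(5,-1),(-1,4),(1,2),(4,-1),(-1,3),(0,2),(2,0),(3,-1),(-1,2),(0,1),(1,0),(2,-1),(-1,1),(0,0),(1,-1),(-1,0),(0,-1),(-1,-1)])

lemma sk19_ok : sk19.ok := by decide +kernel

def sk20 : Sk := (5, 8,
  [((4,7),-1,(1,0,-1)), ((3,7),1,(0,1,-1)), ((2,7),-1,(-1,1,0)), ((2,6),1,(-1,0,-1)), ((2,5),-1,(0,-1,-1)), ((2,4),1,(1,-1,0)), ((2,3),-1,(1,0,1)), ((1,3),1,(0,-1,1)), ((0,3),-1,(-1,-1,0)), ((0,2),1,(-1,0,1)), ((0,1),-1,(0,1,1)), ((0,0),1,(1,1,0))],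
  [((1,1),(1,1,1)), ((0,0),(1,1,-1)), ((1,0),(1,0,0)), ((0,1),(0,1,0)), ((0,2),(-1,1,1)), ((1,2),(0,0,1)), ((1,3),(-1,-1,1)), ((0,3),(-1,0,0)), ((0,4),(-1,-1,-1)), ((1,4),(0,-1,0)), ((2,4),(1,-1,1)), ((2,3),(0,0,1)), ((3,3),(1,1,1)), ((3,4),(1,0,0)), ((3,5),(1,-1,-1)), ((2,5),(0,-1,0)), ((2,6),(-1,-1,-1)), ((3,6),(0,0,-1)), ((3,7),(-1,1,-1)), ((2,7),(-1,0,0)), ((2,8),(-1,1,1)), ((3,8),(0,1,0)), ((4,8),(1,1,-1)), ((4,7),(0,0,-1)), ((5,7),(1,-1,-1)), ((5,8),(1,0,0))],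
  [(5,8),(4,8),(5,7),(3,8),(5,6),(2,8),(4,6),(5,5),(1,8),(3,6),(4,5),(5,4),(0,8),(1,7),(3,5),(4,4),(5,3),(-1,8),(0,7),(1,6),(3,4),(4,3),(5,2),(-1,7),(0,6),(1,5),(3,3),(4,2),(5,1),(-1,6),(0,5),(1,4),(3,2),(4,1),(5,0),(-1,5),(0,4),(2,2),(3,1),(4,0),(5,-1),(-1,4),(1,2),(2,1),(3,0),(4,-1),(-1,3),(1,1),(2,0),(3,-1),(-1,2),(1,0),(2,-1),(-1,1),(1,-1),(-1,0),(0,-1),(-1,-1)])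

lemma sk20_ok : sk20.ok := by decide +kernel

def sk21 : Sk := (5, 8,
  [((4,7),1,(0,1,1)), ((4,6),-1,(-1,0,1)), ((3,6),1,(-1,1,0)), ((2,6),-1,(0,1,-1)), ((2,5),1,(-1,0,-1)), ((2,4),-1,(-1,-1,0)), ((2,3),1,(0,-1,1)), ((2,2),-1,(1,0,1)), ((1,2),1,(1,-1,0)), ((0,2),-1,(0,-1,-1)), ((0,1),1,(1,0,-1)), ((0,0),-1,(1,1,0))],
  [((1,0),(1,1,1)), ((0,1),(1,1,-1)), ((1,1),(1,0,0)), ((0,0),(0,1,0)), ((1,2),(1,-1,-1)), ((0,2),(0,0,-1)), ((0,3),(-1,-1,-1)), ((1,3),(0,-1,0)), ((2,3),(1,-1,1)), ((2,2),(1,0,0)), ((3,2),(1,1,1)), ((3,3),(0,0,1)), ((3,4),(-1,-1,1)), ((2,4),(0,-1,0)), ((2,5),(-1,-1,-1)), ((3,5),(-1,0,0)), ((3,6),(-1,1,-1)), ((2,6),(0,0,-1)), ((2,7),(1,1,-1)), ((3,7),(0,1,0)), ((4,7),(-1,1,1)), ((4,6),(-1,0,0)), ((5,6),(-1,-1,1)),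 ((5,7),(0,0,1)), ((5,8),(1,1,1)), ((4,8),(0,1,0))],
  [(5,8),(4,8),(5,7),(3,8),(5,6),(2,8),(3,7),(5,5),(1,8),(2,7),(4,5),(5,4),(0,8),(1,7),(3,5),(4,4),(5,3),(-1,8),(0,7),(1,6),(3,4),(4,3),(5,2),(-1,7),(0,6),(1,5),(3,3),(4,2),(5,1),(-1,6),(0,5),(1,4),(3,2),(4,1),(5,0),(-1,5),(0,4),(1,3),(3,1),(4,0),(5,-1),(-1,4),(0,3),(2,1),(3,0),(4,-1),(-1,3),(1,1),(2,0),(3,-1),(-1,2),(1,0),(2,-1),(-1,1),(1,-1),(-1,0),(0,-1),(-1,-1)])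

lemma sk21_ok : sk21.ok := by decide +kernel

def sk22 : Sk := (5, 8,
  [((4,7),-1,(1,0,-1)), ((4,6),1,(0,-1,-1)), ((4,5),-1,(-1,-1,0)), ((3,5),1,(-1,0,-1)), ((2,5),-1,(0,1,-1)), ((2,4),1,(-1,1,0)), ((2,3),-1,(-1,0,1)), ((2,2),1,(0,-1,1)), ((2,1),-1,(1,-1,0)), ((1,1),1,(1,0,1)), ((0,1),-1,(0,1,1)), ((0,0),1,(1,1,0))],
  [((1,1),(1,1,1)), ((0,0),(1,1,-1)), ((1,0),(1,0,0)), ((0,1),(0,1,0)), ((0,2),(-1,1,1)), ((1,2),(0,0,1)), ((2,2),(1,-1,1)), ((2,1),(1,0,0)), ((3,1),(1,-1,-1)), ((3,2),(0,-1,0)), ((3,3),(-1,-1,1)), ((2,3),(0,0,1)), ((2,4),(-1,1,1)), ((3,4),(-1,0,0)), ((3,5),(-1,1,-1)), ((2,5),(0,1,0)), ((2,6),(1,1,-1)), ((3,6),(0,0,-1)), ((4,6),(-1,-1,-1)), ((4,5),(-1,0,0)), ((5,5),(-1,-1,1)), ((5,6),(0,-1,0)), ((5,7),(1,-1,-1)),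 ((4,7),(0,0,-1)), ((4,8),(1,1,-1)), ((5,8),(1,0,0))],
  [(5,8),(4,8),(5,7),(3,8),(5,6),(2,8),(3,7),(5,5),(1,8),(2,7),(3,6),(5,4),(0,8),(1,7),(2,6),(4,4),(5,3),(-1,8),(0,7),(1,6),(3,4),(4,3),(5,2),(-1,7),(0,6),(1,5),(3,3),(4,2),(5,1),(-1,6),(0,5),(1,4),(3,2),(4,1),(5,0),(-1,5),(0,4),(1,3),(3,1),(4,0),(5,-1),(-1,4),(0,3),(1,2),(3,0),(4,-1),(-1,3),(0,2),(2,0),(3,-1),(-1,2),(1,0),(2,-1),(-1,1),(1,-1),(-1,0),(0,-1),(-1,-1)])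

lemma sk22_ok : sk22.ok := by decide +kernel

def sk23 : Sk := (5, 8,
  [((4,7),1,(0,1,1)), ((4,6),-1,(-1,0,1)), ((4,5),1,(-1,-1,0)), ((4,4),-1,(0,-1,-1)), ((3,4),1,(-1,0,-1)), ((2,4),-1,(-1,1,0)), ((2,3),1,(0,1,-1)), ((2,2),-1,(1,0,-1)), ((2,1),1,(1,-1,0)), ((2,0),-1,(0,-1,1)), ((1,0),1,(1,0,1)), ((0,0),-1,(1,1,0))],
  [((1,0),(1,1,1)), ((0,1),(1,1,-1)), ((1,1),(1,0,0)), ((0,0),(0,1,0)), ((2,1),(1,-1,1)), ((2,0),(0,0,1)), ((3,0),(-1,-1,1)), ((3,1),(0,-1,0)), ((3,2),(1,-1,-1)), ((2,2),(1,0,0)), ((2,3),(1,1,-1)), ((3,3),(0,0,-1)), ((3,4),(-1,1,-1)), ((2,4),(0,1,0)), ((2,5),(-1,1,1)), ((3,5),(-1,0,0)), ((4,5),(-1,-1,-1)), ((4,4),(0,0,-1)), ((5,4),(1,-1,-1)), ((5,5),(0,-1,0)), ((5,6),(-1,-1,1)), ((4,6),(-1,0,0)), ((4,7),(-1,1,1)),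 ((5,7),(0,0,1)), ((5,8),(1,1,1)), ((4,8),(0,1,0))],
  [(5,8),(4,8),(5,7),(3,8),(5,6),(2,8),(3,7),(5,5),(1,8),(2,7),(3,6),(5,4),(0,8),(1,7),(2,6),(3,5),(5,3),(-1,8),(0,7),(1,6),(2,5),(4,3),(5,2),(-1,7),(0,6),(1,5),(3,3),(4,2),(5,1),(-1,6),(0,5),(1,4),(3,2),(4,1),(5,0),(-1,5),(0,4),(1,3),(3,1),(4,0),(5,-1),(-1,4),(0,3),(1,2),(3,0),(4,-1),(-1,3),(0,2),(1,1),(3,-1),(-1,2),(0,1),(2,-1),(-1,1),(1,-1),(-1,0),(0,-1),(-1,-1)])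

lemma sk23_ok : sk23.ok := by decide +kernel

def sk24 : Sk := (4, 9,
  [((3,8),-1,(0,1,-1)), ((3,7),1,(1,0,-1)), ((3,6),-1,(1,-1,0)), ((3,5),1,(0,-1,1)), ((3,4),-1,(-1,0,1)), ((2,4),1,(-1,-1,0)), ((1,4),-1,(0,-1,-1)), ((1,3),1,(-1,0,-1)), ((1,2),-1,(-1,1,0)), ((1,1),1,(0,1,1)), ((1,0),-1,(1,0,1)), ((0,0),1,(1,1,0))],
  [((1,1),(1,1,1)), ((0,0),(1,1,-1)), ((1,0),(1,0,0)), ((0,1),(0,1,0)), ((2,0),(1,-1,1)), ((2,1),(0,0,1)), ((2,2),(-1,1,1)), ((1,2),(0,1,0)), ((1,3),(-1,1,-1)), ((2,3),(-1,0,0)), ((2,4),(-1,-1,-1)), ((1,4),(0,0,-1)), ((1,5),(1,-1,-1)), ((2,5),(0,-1,0)), ((3,5),(-1,-1,1)), ((3,4),(-1,0,0)), ((4,4),(-1,1,1)), ((4,5),(0,0,1)), ((4,6),(1,-1,1)), ((3,6),(0,-1,0)), ((3,7),(1,-1,-1)), ((4,7),(1,0,0)), ((4,8),(1,1,-1)),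 ((3,8),(0,0,-1)), ((3,9),(-1,1,-1)), ((4,9),(0,1,0))],
  [(4,9),(3,9),(4,8),(2,9),(4,7),(1,9),(2,8),(4,6),(0,9),(1,8),(2,7),(4,5),(-1,9),(0,8),(1,7),(2,6),(4,4),(-1,8),(0,7),(1,6),(2,5),(4,3),(-1,7),(0,6),(1,5),(3,3),(4,2),(-1,6),(0,5),(2,3),(3,2),(4,1),(-1,5),(0,4),(2,2),(3,1),(4,0),(-1,4),(0,3),(2,1),(3,0),(4,-1),(-1,3),(0,2),(2,0),(3,-1),(-1,2),(0,1),(2,-1),(-1,1),(1,-1),(-1,0),(0,-1),(-1,-1)])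

lemma sk24_ok : sk24.ok := by decide +kernel

def sk25 : Sk := (4, 9,
  [((3,8),1,(0,1,-1)), ((2,8),-1,(-1,0,-1)), ((2,7),1,(-1,1,0)), ((2,6),-1,(0,1,1)), ((2,5),1,(1,0,1)), ((2,4),-1,(1,-1,0)), ((1,4),1,(0,-1,1)), ((0,4),-1,(-1,0,1)), ((0,3),1,(-1,-1,0)), ((0,2),-1,(0,-1,-1)), ((0,1),1,(1,0,-1)), ((0,0),-1,(1,1,0))],
  [((1,0),(1,1,1)), ((0,1),(1,1,-1)), ((1,1),(1,0,0)), ((0,0),(0,1,0)), ((1,2),(1,-1,-1)), ((0,2),(0,0,-1)), ((0,3),(-1,-1,-1)), ((1,3),(0,-1,0)), ((1,4),(-1,-1,1)), ((0,4),(-1,0,0)), ((0,5),(-1,1,1)), ((1,5),(0,0,1)), ((2,5),(1,-1,1)), ((2,4),(0,-1,0)), ((3,4),(1,-1,-1)), ((3,5),(1,0,0)), ((3,6),(1,1,1)), ((2,6),(0,0,1)), ((2,7),(-1,1,1)), ((3,7),(0,1,0)), ((3,8),(-1,1,-1)), ((2,8),(-1,0,0)), ((2,9),(-1,-1,-1)),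 ((3,9),(0,0,-1)), ((4,9),(1,1,-1)), ((4,8),(0,1,0))],
  [(4,9),(3,9),(4,8),(2,9),(4,7),(1,9),(3,7),(4,6),(0,9),(1,8),(3,6),(4,5),(-1,9),(0,8),(1,7),(3,5),(4,4),(-1,8),(0,7),(1,6),(3,4),(4,3),(-1,7),(0,6),(1,5),(3,3),(4,2),(-1,6),(0,5),(2,3),(3,2),(4,1),(-1,5),(1,3),(2,2),(3,1),(4,0),(-1,4),(1,2),(2,1),(3,0),(4,-1),(-1,3),(1,1),(2,0),(3,-1),(-1,2),(1,0),(2,-1),(-1,1),(1,-1),(-1,0),(0,-1),(-1,-1)])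

lemma sk25_ok : sk25.ok := by decide +kernel

def sk26 : Sk := (5, 8,
  [((4,0),1,(0,-1,-1)), ((3,0),-1,(-1,0,-1)), ((2,0),1,(-1,1,0)), ((2,1),-1,(0,1,-1)), ((2,2),1,(1,0,-1)), ((0,7),-1,(-1,-1,0)), ((2,3),-1,(1,-1,0)), ((0,6),1,(-1,0,1)), ((2,4),1,(0,-1,1)), ((0,5),-1,(0,1,1)), ((1,4),-1,(1,0,1)), ((0,4),1,(1,1,0))],
  [((1,5),(1,1,1)), ((0,4),(1,1,-1)), ((1,4),(1,0,0)), ((0,5),(0,1,0)), ((2,4),(1,-1,1)), ((2,5),(0,0,1)), ((0,6),(-1,1,1)), ((1,6),(0,0,1)), ((3,5),(-1,-1,1)), ((3,4),(0,-1,0)), ((1,7),(-1,-1,1)), ((0,7),(-1,0,0)), ((3,3),(1,-1,-1)), ((2,3),(1,0,0)), ((0,8),(-1,-1,-1)), ((1,8),(0,-1,0)), ((2,2),(1,1,-1)), ((3,2),(0,0,-1)), ((3,1),(-1,1,-1)), ((2,1),(0,1,0)), ((2,0),(-1,1,1)), ((3,0),(-1,0,0)), ((4,0),(-1,-1,-1)),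 ((4,1),(0,0,-1)), ((5,1),(1,-1,-1)), ((5,0),(0,-1,0))],
  [(2,5),(3,6),(4,7),(5,8),(1,5),(2,6),(3,7),(4,8),(3,5),(4,6),(5,7),(1,6),(2,7),(3,8),(3,4),(4,5),(5,6),(1,7),(2,8),(3,3),(4,4),(5,5),(1,8),(3,2),(4,3),(5,4),(0,8),(3,1),(4,2),(5,3),(-1,8),(4,1),(5,2),(-1,7),(5,1),(-1,6),(5,0),(-1,5),(1,3),(5,-1),(-1,4),(0,3),(1,2),(4,-1),(-1,3),(0,2),(1,1),(3,-1),(-1,2),(0,1),(1,0),(2,-1),(-1,1),(0,0),(1,-1),(-1,0),(0,-1),(-1,-1)])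

lemma sk26_ok : sk26.ok := by decide +kernel

def sk27 : Sk := (5, 8,
  [((4,0),-1,(-1,-1,0)), ((4,1),1,(0,-1,-1)), ((3,1),-1,(-1,0,-1)), ((2,1),1,(-1,1,0)), ((2,2),-1,(0,1,-1)), ((2,3),1,(1,0,-1)), ((2,4),-1,(1,-1,0)), ((0,7),1,(-1,0,1)), ((2,5),1,(0,-1,1)), ((0,6),-1,(0,1,1)), ((1,5),-1,(1,0,1)), ((0,5),1,(1,1,0))],
  [((1,6),(1,1,1)), ((0,5),(1,1,-1)), ((1,5),(1,0,0)), ((0,6),(0,1,0)), ((2,5),(1,-1,1)), ((2,6),(0,0,1)), ((0,7),(-1,1,1)), ((1,7),(0,0,1)), ((3,6),(-1,-1,1)), ((3,5),(0,-1,0)), ((1,8),(-1,-1,1)), ((0,8),(-1,0,0)), ((3,4),(1,-1,-1)), ((2,4),(1,0,0)), ((2,3),(1,1,-1)), ((3,3),(0,0,-1)), ((3,2),(-1,1,-1)), ((2,2),(0,1,0)), ((2,1),(-1,1,1)), ((3,1),(-1,0,0)), ((4,1),(-1,-1,-1)), ((4,2),(0,0,-1)), ((5,2),(1,-1,-1)),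 ((5,1),(0,-1,0)), ((5,0),(-1,-1,1)), ((4,0),(-1,0,0))],
  [(3,6),(4,7),(5,8),(2,6),(3,7),(4,8),(3,5),(4,6),(5,7),(1,6),(2,7),(3,8),(3,4),(4,5),(5,6),(1,7),(2,8),(3,3),(4,4),(5,5),(1,8),(3,2),(4,3),(5,4),(0,8),(4,2),(5,3),(-1,8),(5,2),(-1,7),(5,1),(-1,6),(1,4),(5,0),(-1,5),(0,4),(1,3),(5,-1),(-1,4),(0,3),(1,2),(3,0),(4,-1),(-1,3),(0,2),(1,1),(2,0),(3,-1),(-1,2),(0,1),(1,0),(2,-1),(-1,1),(0,0),(1,-1),(-1,0),(0,-1),(-1,-1)])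

lemma sk27_ok : sk27.ok := by decide +kernel

def sk28 : Sk := (7, 6,
  [((6,0),1,(-1,0,1)), ((5,0),-1,(-1,1,0)), ((4,0),1,(0,1,-1)), ((4,1),-1,(-1,0,-1)), ((4,2),1,(-1,-1,0)), ((3,2),-1,(0,-1,-1)), ((2,2),1,(1,0,-1)), ((2,3),-1,(1,-1,0)), ((2,4),1,(0,-1,1)), ((0,5),-1,(0,1,1)), ((1,4),-1,(1,0,1)), ((0,4),1,(1,1,0))],
  [((1,5),(1,1,1)), ((0,4),(1,1,-1)), ((1,4),(1,0,0)), ((0,5),(0,1,0)), ((2,4),(1,-1,1)), ((2,5),(0,0,1)), ((0,6),(-1,1,1)), ((1,6),(0,0,1)), ((3,5),(-1,-1,1)), ((3,4),(0,-1,0)), ((3,3),(1,-1,-1)), ((2,3),(1,0,0)), ((2,2),(1,1,-1)), ((3,2),(0,0,-1)), ((4,2),(-1,-1,-1)), ((4,3),(0,-1,0)), ((5,3),(-1,-1,1)), ((5,2),(-1,0,0)), ((5,1),(-1,1,-1)), ((4,1),(0,0,-1)), ((4,0),(1,1,-1)), ((5,0),(0,1,0)), ((6,0),(-1,1,1)),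 ((6,1),(-1,0,0)), ((7,1),(-1,-1,1)), ((7,0),(0,0,1))],
  [(4,3),(5,4),(6,5),(7,6),(3,3),(4,4),(5,5),(6,6),(5,3),(6,4),(7,5),(3,4),(4,5),(5,6),(5,2),(6,3),(7,4),(3,5),(4,6),(5,1),(6,2),(7,3),(2,5),(3,6),(6,1),(7,2),(1,5),(2,6),(7,1),(1,6),(7,0),(0,6),(7,-1),(-1,6),(6,-1),(-1,5),(1,3),(3,1),(5,-1),(-1,4),(0,3),(1,2),(2,1),(3,0),(4,-1),(-1,3),(0,2),(1,1),(2,0),(3,-1),(-1,2),(0,1),(1,0),(2,-1),(-1,1),(0,0),(1,-1),(-1,0),(0,-1),(-1,-1)])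

lemma sk28_ok : sk28.ok := by decide +kernel

def sk29 : Sk := (7, 6,
  [((6,0),-1,(0,1,1)), ((6,1),1,(-1,0,1)), ((5,1),-1,(-1,1,0)), ((4,1),1,(0,1,-1)), ((4,2),-1,(-1,0,-1)), ((4,3),1,(-1,-1,0)), ((3,3),-1,(0,-1,-1)), ((2,3),1,(1,0,-1)), ((2,4),-1,(1,-1,0)), ((2,5),1,(0,-1,1)), ((1,5),-1,(1,0,1)), ((0,5),1,(1,1,0))],
  [((1,6),(1,1,1)), ((0,5),(1,1,-1)), ((1,5),(1,0,0)), ((0,6),(0,1,0)), ((2,5),(1,-1,1)), ((2,6),(0,0,1)), ((3,6),(-1,-1,1)), ((3,5),(0,-1,0)), ((3,4),(1,-1,-1)), ((2,4),(1,0,0)), ((2,3),(1,1,-1)), ((3,3),(0,0,-1)), ((4,3),(-1,-1,-1)), ((4,4),(0,-1,0)), ((5,4),(-1,-1,1)), ((5,3),(-1,0,0)), ((5,2),(-1,1,-1)), ((4,2),(0,0,-1)), ((4,1),(1,1,-1)), ((5,1),(0,1,0)), ((6,1),(-1,1,1)), ((6,2),(-1,0,0)), ((7,2),(-1,-1,1)),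 ((7,1),(0,0,1)), ((7,0),(1,1,1)), ((6,0),(0,1,0))],
  [(5,4),(6,5),(7,6),(4,4),(5,5),(6,6),(5,3),(6,4),(7,5),(3,4),(4,5),(5,6),(5,2),(6,3),(7,4),(3,5),(4,6),(6,2),(7,3),(3,6),(7,2),(2,6),(7,1),(1,6),(7,0),(0,6),(7,-1),(-1,6),(1,4),(3,2),(5,0),(6,-1),(-1,5),(0,4),(1,3),(2,2),(3,1),(4,0),(5,-1),(-1,4),(0,3),(1,2),(2,1),(3,0),(4,-1),(-1,3),(0,2),(1,1),(2,0),(3,-1),(-1,2),(0,1),(1,0),(2,-1),(-1,1),(0,0),(1,-1),(-1,0),(0,-1),(-1,-1)])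

lemma sk29_ok : sk29.ok := by decide +kernel

def sk30 : Sk := (6, 7,
  [((5,0),-1,(-1,1,0)), ((4,0),1,(0,1,-1)), ((4,1),-1,(-1,0,-1)), ((4,2),1,(-1,-1,0)), ((3,2),-1,(0,-1,-1)), ((2,2),1,(1,0,-1)), ((2,3),-1,(1,-1,0)), ((0,6),1,(-1,0,1)), ((2,4),1,(0,-1,1)), ((0,5),-1,(0,1,1)), ((1,4),-1,(1,0,1)), ((0,4),1,(1,1,0))],
  [((1,5),(1,1,1)), ((0,4),(1,1,-1)), ((1,4),(1,0,0)), ((0,5),(0,1,0)), ((2,4),(1,-1,1)), ((2,5),(0,0,1)), ((0,6),(-1,1,1)), ((1,6),(0,0,1)), ((3,5),(-1,-1,1)), ((3,4),(0,-1,0)), ((1,7),(-1,-1,1)), ((0,7),(-1,0,0)), ((3,3),(1,-1,-1)), ((2,3),(1,0,0)), ((2,2),(1,1,-1)), ((3,2),(0,0,-1)), ((4,2),(-1,-1,-1)), ((4,3),(0,-1,0)), ((5,3),(-1,-1,1)), ((5,2),(-1,0,0)), ((5,1),(-1,1,-1)), ((4,1),(0,0,-1)), ((4,0),(1,1,-1)),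 ((5,0),(0,1,0)), ((6,0),(-1,1,1)), ((6,1),(-1,0,0))],
  [(3,4),(4,5),(5,6),(6,7),(3,5),(4,6),(5,7),(3,3),(4,4),(5,5),(6,6),(2,5),(3,6),(4,7),(4,3),(5,4),(6,5),(1,5),(2,6),(3,7),(5,3),(6,4),(1,6),(2,7),(5,2),(6,3),(1,7),(5,1),(6,2),(0,7),(6,1),(-1,7),(6,0),(-1,6),(6,-1),(-1,5),(1,3),(3,1),(5,-1),(-1,4),(0,3),(1,2),(2,1),(3,0),(4,-1),(-1,3),(0,2),(1,1),(2,0),(3,-1),(-1,2),(0,1),(1,0),(2,-1),(-1,1),(0,0),(1,-1),(-1,0),(0,-1),(-1,-1)])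

lemma sk30_ok : sk30.ok := by decide +kernel

def sk31 : Sk := (6, 7,
  [((5,0),1,(0,1,-1)), ((5,1),-1,(1,0,-1)), ((5,2),1,(1,-1,0)), ((4,2),-1,(0,-1,-1)), ((3,2),1,(-1,0,-1)), ((3,3),-1,(-1,-1,0)), ((3,4),1,(0,-1,1)), ((2,4),-1,(-1,0,1)), ((1,4),1,(-1,1,0)), ((1,5),-1,(0,1,1)), ((1,6),1,(1,0,1)), ((0,6),-1,(1,1,0))],
  [((1,6),(1,1,1)), ((0,7),(1,1,-1)), ((1,7),(1,0,0)), ((0,6),(0,1,0)), ((2,7),(1,-1,1)), ((2,6),(0,0,1)), ((2,5),(-1,1,1)), ((1,5),(0,1,0)), ((1,4),(-1,1,-1)), ((2,4),(-1,0,0)), ((3,4),(-1,-1,1)), ((3,5),(0,0,1)), ((4,5),(1,-1,1)), ((4,4),(0,-1,0)), ((4,3),(-1,-1,-1)), ((3,3),(-1,0,0)), ((3,2),(-1,1,-1)), ((4,2),(0,0,-1)), ((5,2),(1,-1,-1)), ((5,3),(0,-1,0)), ((6,3),(1,-1,1)), ((6,2),(1,0,0)), ((6,1),(1,1,-1)),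 ((5,1),(0,0,-1)), ((5,0),(-1,1,-1)), ((6,0),(0,1,0))],
  [(4,5),(5,6),(6,7),(3,5),(4,6),(5,7),(4,4),(5,5),(6,6),(2,5),(3,6),(4,7),(4,3),(5,4),(6,5),(2,6),(3,7),(5,3),(6,4),(2,7),(6,3),(1,7),(6,2),(0,7),(6,1),(-1,7),(6,0),(-1,6),(0,5),(2,3),(4,1),(6,-1),(-1,5),(0,4),(1,3),(2,2),(3,1),(4,0),(5,-1),(-1,4),(0,3),(1,2),(2,1),(3,0),(4,-1),(-1,3),(0,2),(1,1),(2,0),(3,-1),(-1,2),(0,1),(1,0),(2,-1),(-1,1),(0,0),(1,-1),(-1,0),(0,-1),(-1,-1)])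

lemma sk31_ok : sk31.ok := by decide +kernel

def sk32 : Sk := (7, 6,
  [((6,5),-1,(1,0,-1)), ((5,5),1,(0,1,-1)), ((4,5),-1,(-1,1,0)), ((4,4),1,(-1,0,-1)), ((4,3),-1,(0,-1,-1)), ((3,3),1,(-1,-1,0)), ((2,3),-1,(-1,0,1)), ((2,2),1,(0,-1,1)), ((2,1),-1,(1,-1,0)), ((1,1),1,(1,0,1)), ((0,1),-1,(0,1,1)), ((0,0),1,(1,1,0))],
  [((1,1),(1,1,1)), ((0,0),(1,1,-1)), ((1,0),(1,0,0)), ((0,1),(0,1,0)), ((0,2),(-1,1,1)), ((1,2),(0,0,1)), ((2,2),(1,-1,1)), ((2,1),(1,0,0)), ((3,1),(1,-1,-1)), ((3,2),(0,-1,0)), ((3,3),(-1,-1,1)), ((2,3),(0,0,1)), ((2,4),(-1,1,1)), ((3,4),(-1,0,0)), ((4,4),(-1,-1,-1)), ((4,3),(0,-1,0)), ((5,3),(1,-1,-1)), ((5,4),(0,0,-1)), ((5,5),(-1,1,-1)), ((4,5),(-1,0,0)), ((4,6),(-1,1,1)), ((5,6),(0,1,0)), ((6,6),(1,1,-1)),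 ((6,5),(0,0,-1)), ((7,5),(1,-1,-1)), ((7,6),(1,0,0))],
  [(7,6),(6,6),(7,5),(5,6),(7,4),(4,6),(6,4),(7,3),(3,6),(5,4),(6,3),(7,2),(2,6),(3,5),(5,3),(6,2),(7,1),(1,6),(2,5),(3,4),(5,2),(6,1),(7,0),(0,6),(1,5),(2,4),(4,2),(5,1),(6,0),(7,-1),(-1,6),(0,5),(1,4),(3,2),(4,1),(5,0),(6,-1),(-1,5),(0,4),(1,3),(3,1),(4,0),(5,-1),(-1,4),(0,3),(1,2),(3,0),(4,-1),(-1,3),(0,2),(2,0),(3,-1),(-1,2),(1,0),(2,-1),(-1,1),(1,-1),(-1,0),(0,-1),(-1,-1)])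

lemma sk32_ok : sk32.ok := by decide +kernel

def sk33 : Sk := (7, 6,
  [((6,5),1,(0,1,1)), ((6,4),-1,(-1,0,1)), ((5,4),1,(-1,1,0)), ((4,4),-1,(0,1,-1)), ((4,3),1,(-1,0,-1)), ((4,2),-1,(-1,-1,0)), ((3,2),1,(0,-1,-1)), ((2,2),-1,(1,0,-1)), ((2,1),1,(1,-1,0)), ((2,0),-1,(0,-1,1)), ((1,0),1,(1,0,1)), ((0,0),-1,(1,1,0))],
  [((1,0),(1,1,1)), ((0,1),(1,1,-1)), ((1,1),(1,0,0)), ((0,0),(0,1,0)), ((2,1),(1,-1,1)), ((2,0),(0,0,1)), ((3,0),(-1,-1,1)), ((3,1),(0,-1,0)), ((3,2),(1,-1,-1)), ((2,2),(1,0,0)), ((2,3),(1,1,-1)), ((3,3),(0,0,-1)), ((4,3),(-1,-1,-1)), ((4,2),(0,-1,0)), ((5,2),(-1,-1,1)), ((5,3),(-1,0,0)), ((5,4),(-1,1,-1)), ((4,4),(0,0,-1)), ((4,5),(1,1,-1)), ((5,5),(0,1,0)), ((6,5),(-1,1,1)), ((6,4),(-1,0,0)), ((7,4),(-1,-1,1)),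 ((7,5),(0,0,1)), ((7,6),(1,1,1)), ((6,6),(0,1,0))],
  [(7,6),(6,6),(7,5),(5,6),(7,4),(4,6),(5,5),(7,3),(3,6),(4,5),(6,3),(7,2),(2,6),(3,5),(5,3),(6,2),(7,1),(1,6),(2,5),(3,4),(5,2),(6,1),(7,0),(0,6),(1,5),(2,4),(3,3),(5,1),(6,0),(7,-1),(-1,6),(0,5),(1,4),(2,3),(4,1),(5,0),(6,-1),(-1,5),(0,4),(1,3),(3,1),(4,0),(5,-1),(-1,4),(0,3),(1,2),(3,0),(4,-1),(-1,3),(0,2),(1,1),(3,-1),(-1,2),(0,1),(2,-1),(-1,1),(1,-1),(-1,0),(0,-1),(-1,-1)])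

lemma sk33_ok : sk33.ok := by decide +kernel

def sk34 : Sk := (4, 9,
  [((3,0),-1,(-1,0,-1)), ((2,0),1,(-1,1,0)), ((2,1),-1,(0,1,-1)), ((0,8),1,(0,-1,-1)), ((2,2),1,(1,0,-1)), ((0,7),-1,(-1,-1,0)), ((2,3),-1,(1,-1,0)), ((0,6),1,(-1,0,1)), ((2,4),1,(0,-1,1)), ((0,5),-1,(0,1,1)), ((1,4),-1,(1,0,1)), ((0,4),1,(1,1,0))],
  [((1,5),(1,1,1)), ((0,4),(1,1,-1)), ((1,4),(1,0,0)), ((0,5),(0,1,0)), ((2,4),(1,-1,1)), ((2,5),(0,0,1)), ((0,6),(-1,1,1)), ((1,6),(0,0,1)), ((3,5),(-1,-1,1)), ((3,4),(0,-1,0)), ((1,7),(-1,-1,1)), ((0,7),(-1,0,0)), ((3,3),(1,-1,-1)), ((2,3),(1,0,0)), ((0,8),(-1,-1,-1)), ((1,8),(0,-1,0)), ((2,2),(1,1,-1)), ((3,2),(0,0,-1)), ((1,9),(1,-1,-1)), ((0,9),(0,0,-1)), ((3,1),(-1,1,-1)), ((2,1),(0,1,0)), ((2,0),(-1,1,1)),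 ((3,0),(-1,0,0)), ((4,0),(-1,-1,-1)), ((4,1),(0,0,-1))],
  [(1,6),(2,7),(3,8),(4,9),(1,7),(2,8),(3,9),(1,5),(2,6),(3,7),(4,8),(1,8),(2,9),(2,5),(3,6),(4,7),(1,9),(3,5),(4,6),(0,9),(3,4),(4,5),(-1,9),(3,3),(4,4),(-1,8),(3,2),(4,3),(-1,7),(3,1),(4,2),(-1,6),(4,1),(-1,5),(1,3),(4,0),(-1,4),(0,3),(1,2),(4,-1),(-1,3),(0,2),(1,1),(3,-1),(-1,2),(0,1),(1,0),(2,-1),(-1,1),(0,0),(1,-1),(-1,0),(0,-1),(-1,-1)])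

lemma sk34_ok : sk34.ok := by decide +kernel

def sk35 : Sk := (4, 9,
  [((3,0),1,(0,1,-1)), ((3,1),-1,(1,0,-1)), ((3,2),1,(1,-1,0)), ((3,3),-1,(0,-1,1)), ((3,4),1,(-1,0,1)), ((2,4),-1,(-1,-1,0)), ((1,4),1,(0,-1,-1)), ((1,5),-1,(-1,0,-1)), ((1,6),1,(-1,1,0)), ((1,7),-1,(0,1,1)), ((1,8),1,(1,0,1)), ((0,8),-1,(1,1,0))],
  [((1,8),(1,1,1)), ((0,9),(1,1,-1)), ((1,9),(1,0,0)), ((0,8),(0,1,0)), ((2,9),(1,-1,1)), ((2,8),(0,0,1)), ((2,7),(-1,1,1)), ((1,7),(0,1,0)), ((1,6),(-1,1,-1)), ((2,6),(-1,0,0)), ((2,5),(-1,-1,-1)), ((1,5),(0,0,-1)), ((1,4),(1,-1,-1)), ((2,4),(0,-1,0)), ((3,4),(-1,-1,1)), ((3,5),(-1,0,0)), ((4,5),(-1,1,1)), ((4,4),(0,0,1)), ((4,3),(1,-1,1)), ((3,3),(0,-1,0)), ((3,2),(1,-1,-1)), ((4,2),(1,0,0)), ((4,1),(1,1,-1)),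 ((3,1),(0,0,-1)), ((3,0),(-1,1,-1)), ((4,0),(0,1,0))],
  [(2,7),(3,8),(4,9),(2,8),(3,9),(2,6),(3,7),(4,8),(2,9),(2,5),(3,6),(4,7),(1,9),(3,5),(4,6),(0,9),(4,5),(-1,9),(4,4),(-1,8),(0,7),(4,3),(-1,7),(0,6),(4,2),(-1,6),(0,5),(2,3),(4,1),(-1,5),(0,4),(1,3),(2,2),(4,0),(-1,4),(0,3),(1,2),(2,1),(4,-1),(-1,3),(0,2),(1,1),(2,0),(3,-1),(-1,2),(0,1),(1,0),(2,-1),(-1,1),(0,0),(1,-1),(-1,0),(0,-1),(-1,-1)])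

lemma sk35_ok : sk35.ok := by decide +kernel

def sk36 : Sk := (8, 5,
  [((7,0),-1,(0,1,-1)), ((6,0),1,(-1,0,-1)), ((6,1),-1,(-1,1,0)), ((6,2),1,(0,1,1)), ((5,2),-1,(-1,0,1)), ((4,2),1,(-1,-1,0)), ((3,2),-1,(0,-1,-1)), ((2,2),1,(1,0,-1)), ((2,3),-1,(1,-1,0)), ((2,4),1,(0,-1,1)), ((1,4),-1,(1,0,1)), ((0,4),1,(1,1,0))],
  [((1,5),(1,1,1)), ((0,4),(1,1,-1)), ((1,4),(1,0,0)), ((0,5),(0,1,0)), ((2,4),(1,-1,1)), ((2,5),(0,0,1)), ((3,5),(-1,-1,1)), ((3,4),(0,-1,0)), ((3,3),(1,-1,-1)), ((2,3),(1,0,0)), ((2,2),(1,1,-1)), ((3,2),(0,0,-1)), ((4,2),(-1,-1,-1)), ((4,3),(0,-1,0)), ((5,3),(-1,-1,1)), ((5,2),(-1,0,0)), ((6,2),(-1,1,1)), ((6,3),(0,0,1)), ((7,3),(1,1,1)), ((7,2),(0,1,0)), ((7,1),(-1,1,-1)), ((6,1),(-1,0,0)), ((6,0),(-1,-1,-1)),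 ((7,0),(0,0,-1)), ((8,0),(1,1,-1)), ((8,1),(0,1,0))],
  [(6,3),(7,4),(8,5),(5,3),(6,4),(7,5),(7,3),(8,4),(4,3),(5,4),(6,5),(7,2),(8,3),(3,3),(4,4),(5,5),(7,1),(8,2),(3,4),(4,5),(8,1),(3,5),(8,0),(2,5),(8,-1),(1,5),(5,1),(7,-1),(0,5),(4,1),(5,0),(6,-1),(-1,5),(1,3),(3,1),(4,0),(5,-1),(-1,4),(0,3),(1,2),(2,1),(3,0),(4,-1),(-1,3),(0,2),(1,1),(2,0),(3,-1),(-1,2),(0,1),(1,0),(2,-1),(-1,1),(0,0),(1,-1),(-1,0),(0,-1),(-1,-1)])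

lemma sk36_ok : sk36.ok := by decide +kernel

def sk37 : Sk := (8, 5,
  [((7,0),1,(0,1,-1)), ((7,1),-1,(1,0,-1)), ((7,2),1,(1,-1,0)), ((6,2),-1,(0,-1,-1)), ((5,2),1,(-1,0,-1)), ((4,2),-1,(-1,1,0)), ((3,2),1,(0,1,1)), ((3,3),-1,(-1,0,1)), ((3,4),1,(-1,-1,0)), ((2,4),-1,(0,-1,1)), ((1,4),1,(1,0,1)), ((0,4),-1,(1,1,0))],
  [((1,4),(1,1,1)), ((0,5),(1,1,-1)), ((1,5),(1,0,0)), ((0,4),(0,1,0)), ((2,5),(1,-1,1)), ((2,4),(0,0,1)), ((3,4),(-1,-1,1)), ((3,5),(0,-1,0)), ((4,5),(-1,-1,-1)), ((4,4),(-1,0,0)), ((4,3),(-1,1,1)), ((3,3),(0,0,1)), ((3,2),(1,1,1)), ((4,2),(0,1,0)), ((5,2),(-1,1,-1)), ((5,3),(-1,0,0)), ((6,3),(-1,-1,-1)), ((6,2),(0,0,-1)), ((7,2),(1,-1,-1)), ((7,3),(0,-1,0)), ((8,3),(1,-1,1)), ((8,2),(1,0,0)), ((8,1),(1,1,-1)),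 ((7,1),(0,0,-1)), ((7,0),(-1,1,-1)), ((8,0),(0,1,0))],
  [(6,3),(7,4),(8,5),(5,3),(6,4),(7,5),(7,3),(8,4),(4,3),(5,4),(6,5),(8,3),(4,4),(5,5),(8,2),(4,5),(8,1),(3,5),(8,0),(2,5),(6,1),(8,-1),(1,5),(5,1),(6,0),(7,-1),(0,5),(2,3),(4,1),(5,0),(6,-1),(-1,5),(1,3),(2,2),(3,1),(4,0),(5,-1),(-1,4),(0,3),(1,2),(2,1),(3,0),(4,-1),(-1,3),(0,2),(1,1),(2,0),(3,-1),(-1,2),(0,1),(1,0),(2,-1),(-1,1),(0,0),(1,-1),(-1,0),(0,-1),(-1,-1)])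

lemma sk37_ok : sk37.ok := by decide +kernel

def sk38 : Sk := (8, 5,
  [((7,0),-1,(-1,1,0)), ((6,0),1,(0,1,-1)), ((5,0),-1,(1,0,-1)), ((4,0),1,(1,-1,0)), ((4,1),-1,(0,-1,-1)), ((4,2),1,(-1,0,-1)), ((3,2),-1,(-1,-1,0)), ((0,4),1,(-1,0,1)), ((2,2),1,(0,-1,1)), ((0,3),-1,(0,1,1)), ((1,2),-1,(1,0,1)), ((0,2),1,(1,1,0))],
  [((1,3),(1,1,1)), ((0,2),(1,1,-1)), ((1,2),(1,0,0)), ((0,3),(0,1,0)), ((2,2),(1,-1,1)), ((2,3),(0,0,1)), ((0,4),(-1,1,1)), ((1,4),(0,0,1)), ((3,3),(-1,-1,1)), ((3,2),(0,-1,0)), ((1,5),(-1,-1,1)), ((0,5),(-1,0,0)), ((4,2),(-1,-1,-1)), ((4,3),(-1,0,0)), ((5,3),(-1,1,-1)), ((5,2),(0,0,-1)), ((5,1),(1,-1,-1)), ((4,1),(0,-1,0)), ((4,0),(1,-1,1)), ((5,0),(1,0,0)), ((6,0),(1,1,-1)), ((6,1),(0,0,-1)), ((7,1),(-1,1,-1)),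 ((7,0),(0,1,0)), ((8,0),(-1,1,1)), ((8,1),(-1,0,0))],
  [(5,2),(6,3),(7,4),(8,5),(5,3),(6,4),(7,5),(5,1),(6,2),(7,3),(8,4),(4,3),(5,4),(6,5),(6,1),(7,2),(8,3),(3,3),(4,4),(5,5),(7,1),(8,2),(2,3),(3,4),(4,5),(8,1),(1,3),(2,4),(3,5),(8,0),(1,4),(2,5),(8,-1),(1,5),(7,-1),(0,5),(6,-1),(-1,5),(3,1),(5,-1),(-1,4),(2,1),(3,0),(4,-1),(-1,3),(1,1),(2,0),(3,-1),(-1,2),(0,1),(1,0),(2,-1),(-1,1),(0,0),(1,-1),(-1,0),(0,-1),(-1,-1)])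

lemma sk38_ok : sk38.ok := by decide +kernel

def sk39 : Sk := (8, 5,
  [((7,0),1,(0,1,-1)), ((6,0),-1,(-1,0,-1)), ((5,0),1,(-1,-1,0)), ((5,1),-1,(0,-1,-1)), ((5,2),1,(1,0,-1)), ((4,2),-1,(1,-1,0)), ((3,2),1,(0,-1,1)), ((2,2),-1,(-1,0,1)), ((1,2),1,(-1,1,0)), ((1,3),-1,(0,1,1)), ((1,4),1,(1,0,1)), ((0,4),-1,(1,1,0))],
  [((1,4),(1,1,1)), ((0,5),(1,1,-1)), ((1,5),(1,0,0)), ((0,4),(0,1,0)), ((2,5),(1,-1,1)), ((2,4),(0,0,1)), ((2,3),(-1,1,1)), ((1,3),(0,1,0)), ((1,2),(-1,1,-1)), ((2,2),(-1,0,0)), ((3,2),(-1,-1,1)), ((3,3),(0,0,1)), ((4,3),(1,-1,1)), ((4,2),(0,-1,0)), ((5,2),(1,-1,-1)), ((5,3),(1,0,0)), ((6,3),(1,1,-1)), ((6,2),(0,0,-1)), ((6,1),(-1,-1,-1)), ((5,1),(0,-1,0)), ((5,0),(-1,-1,1)), ((6,0),(-1,0,0)), ((7,0),(-1,1,-1)),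 ((7,1),(0,0,-1)), ((8,1),(1,1,-1)), ((8,0),(0,1,0))],
  [(6,3),(7,4),(8,5),(5,3),(6,4),(7,5),(6,2),(7,3),(8,4),(4,3),(5,4),(6,5),(6,1),(7,2),(8,3),(3,3),(4,4),(5,5),(7,1),(8,2),(2,3),(3,4),(4,5),(8,1),(2,4),(3,5),(8,0),(2,5),(8,-1),(1,5),(7,-1),(0,5),(4,1),(6,-1),(-1,5),(3,1),(4,0),(5,-1),(-1,4),(0,3),(2,1),(3,0),(4,-1),(-1,3),(0,2),(1,1),(2,0),(3,-1),(-1,2),(0,1),(1,0),(2,-1),(-1,1),(0,0),(1,-1),(-1,0),(0,-1),(-1,-1)])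

lemma sk39_ok : sk39.ok := by decide +kernel

def sk40 : Sk := (9, 4,
  [((8,0),1,(-1,0,1)), ((7,0),-1,(-1,1,0)), ((6,0),1,(0,1,-1)), ((5,0),-1,(1,0,-1)), ((4,0),1,(1,-1,0)), ((4,1),-1,(0,-1,-1)), ((4,2),1,(-1,0,-1)), ((3,2),-1,(-1,-1,0)), ((2,2),1,(0,-1,1)), ((0,3),-1,(0,1,1)), ((1,2),-1,(1,0,1)), ((0,2),1,(1,1,0))],
  [((1,3),(1,1,1)), ((0,2),(1,1,-1)), ((1,2),(1,0,0)), ((0,3),(0,1,0)), ((2,2),(1,-1,1)), ((2,3),(0,0,1)), ((0,4),(-1,1,1)), ((1,4),(0,0,1)), ((3,3),(-1,-1,1)), ((3,2),(0,-1,0)), ((4,2),(-1,-1,-1)), ((4,3),(-1,0,0)), ((5,3),(-1,1,-1)), ((5,2),(0,0,-1)), ((5,1),(1,-1,-1)), ((4,1),(0,-1,0)), ((4,0),(1,-1,1)), ((5,0),(1,0,0)), ((6,0),(1,1,-1)), ((6,1),(0,0,-1)), ((7,1),(-1,1,-1)), ((7,0),(0,1,0)), ((8,0),(-1,1,1)),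 ((8,1),(-1,0,0)), ((9,1),(-1,-1,1)), ((9,0),(0,0,1))],
  [(6,1),(7,2),(8,3),(9,4),(5,1),(6,2),(7,3),(8,4),(7,1),(8,2),(9,3),(5,2),(6,3),(7,4),(8,1),(9,2),(5,3),(6,4),(9,1),(4,3),(5,4),(9,0),(3,3),(4,4),(9,-1),(2,3),(3,4),(8,-1),(1,3),(2,4),(7,-1),(1,4),(6,-1),(0,4),(3,1),(5,-1),(-1,4),(2,1),(3,0),(4,-1),(-1,3),(1,1),(2,0),(3,-1),(-1,2),(0,1),(1,0),(2,-1),(-1,1),(0,0),(1,-1),(-1,0),(0,-1),(-1,-1)])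

lemma sk40_ok : sk40.ok := by decide +kernel

def sk41 : Sk := (9, 4,
  [((8,0),-1,(0,1,1)), ((8,1),1,(-1,0,1)), ((7,1),-1,(-1,1,0)), ((6,1),1,(0,1,-1)), ((5,1),-1,(1,0,-1)), ((4,1),1,(1,-1,0)), ((4,2),-1,(0,-1,-1)), ((4,3),1,(-1,0,-1)), ((3,3),-1,(-1,-1,0)), ((2,3),1,(0,-1,1)), ((1,3),-1,(1,0,1)), ((0,3),1,(1,1,0))],
  [((1,4),(1,1,1)), ((0,3),(1,1,-1)), ((1,3),(1,0,0)), ((0,4),(0,1,0)), ((2,3),(1,-1,1)), ((2,4),(0,0,1)), ((3,4),(-1,-1,1)), ((3,3),(0,-1,0)), ((4,3),(-1,-1,-1)), ((4,4),(-1,0,0)), ((5,4),(-1,1,-1)), ((5,3),(0,0,-1)), ((5,2),(1,-1,-1)), ((4,2),(0,-1,0)), ((4,1),(1,-1,1)), ((5,1),(1,0,0)), ((6,1),(1,1,-1)), ((6,2),(0,0,-1)), ((7,2),(-1,1,-1)), ((7,1),(0,1,0)), ((8,1),(-1,1,1)), ((8,2),(-1,0,0)), ((9,2),(-1,-1,1)),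 ((9,1),(0,0,1)), ((9,0),(1,1,1)), ((8,0),(0,1,0))],
  [(7,2),(8,3),(9,4),(6,2),(7,3),(8,4),(8,2),(9,3),(5,2),(6,3),(7,4),(9,2),(5,3),(6,4),(9,1),(5,4),(9,0),(4,4),(9,-1),(3,4),(7,0),(8,-1),(2,4),(6,0),(7,-1),(1,4),(3,2),(5,0),(6,-1),(0,4),(2,2),(3,1),(4,0),(5,-1),(-1,4),(1,2),(2,1),(3,0),(4,-1),(-1,3),(0,2),(1,1),(2,0),(3,-1),(-1,2),(0,1),(1,0),(2,-1),(-1,1),(0,0),(1,-1),(-1,0),(0,-1),(-1,-1)])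

lemma sk41_ok : sk41.ok := by decide +kernel

def sk42 : Sk := (6, 7,
  [((5,6),-1,(0,1,-1)), ((5,5),1,(1,0,-1)), ((5,4),-1,(1,-1,0)), ((4,4),1,(0,-1,-1)), ((3,4),-1,(-1,0,-1)), ((3,3),1,(-1,-1,0)), ((3,2),-1,(0,-1,1)), ((2,2),1,(-1,0,1)), ((1,2),-1,(-1,1,0)), ((1,1),1,(0,1,1)), ((1,0),-1,(1,0,1)), ((0,0),1,(1,1,0))],
  [((1,1),(1,1,1)), ((0,0),(1,1,-1)), ((1,0),(1,0,0)), ((0,1),(0,1,0)), ((2,0),(1,-1,1)), ((2,1),(0,0,1)), ((2,2),(-1,1,1)), ((1,2),(0,1,0)), ((1,3),(-1,1,-1)), ((2,3),(-1,0,0)), ((3,3),(-1,-1,1)), ((3,2),(0,0,1)), ((4,2),(1,-1,1)), ((4,3),(0,-1,0)), ((4,4),(-1,-1,-1)), ((3,4),(-1,0,0)), ((3,5),(-1,1,-1)), ((4,5),(0,0,-1)), ((5,5),(1,-1,-1)), ((5,4),(0,-1,0)), ((6,4),(1,-1,1)), ((6,5),(1,0,0)), ((6,6),(1,1,-1)),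 ((5,6),(0,0,-1)), ((5,7),(-1,1,-1)), ((6,7),(0,1,0))],
  [(6,7),(5,7),(6,6),(4,7),(6,5),(3,7),(4,6),(6,4),(2,7),(3,6),(4,5),(6,3),(1,7),(2,6),(3,5),(5,3),(6,2),(0,7),(1,6),(2,5),(4,3),(5,2),(6,1),(-1,7),(0,6),(1,5),(2,4),(4,2),(5,1),(6,0),(-1,6),(0,5),(1,4),(2,3),(4,1),(5,0),(6,-1),(-1,5),(0,4),(1,3),(3,1),(4,0),(5,-1),(-1,4),(0,3),(2,1),(3,0),(4,-1),(-1,3),(0,2),(2,0),(3,-1),(-1,2),(0,1),(2,-1),(-1,1),(1,-1),(-1,0),(0,-1),(-1,-1)])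

lemma sk42_ok : sk42.ok := by decide +kernel

def sk43 : Sk := (6, 7,
  [((5,6),1,(0,1,-1)), ((4,6),-1,(-1,0,-1)), ((4,5),1,(-1,1,0)), ((4,4),-1,(0,1,1)), ((3,4),1,(-1,0,1)), ((2,4),-1,(-1,-1,0)), ((2,3),1,(0,-1,1)), ((2,2),-1,(1,0,1)), ((1,2),1,(1,-1,0)), ((0,2),-1,(0,-1,-1)), ((0,1),1,(1,0,-1)), ((0,0),-1,(1,1,0))],
  [((1,0),(1,1,1)), ((0,1),(1,1,-1)), ((1,1),(1,0,0)), ((0,0),(0,1,0)), ((1,2),(1,-1,-1)), ((0,2),(0,0,-1)), ((0,3),(-1,-1,-1)), ((1,3),(0,-1,0)), ((2,3),(1,-1,1)), ((2,2),(1,0,0)), ((3,2),(1,1,1)), ((3,3),(0,0,1)), ((3,4),(-1,-1,1)), ((2,4),(0,-1,0)), ((2,5),(-1,-1,-1)), ((3,5),(-1,0,0)), ((4,5),(-1,1,1)), ((4,4),(0,0,1)), ((5,4),(1,1,1)), ((5,5),(0,1,0)), ((5,6),(-1,1,-1)), ((4,6),(-1,0,0)), ((4,7),(-1,-1,-1)),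 ((5,7),(0,0,-1)), ((6,7),(1,1,-1)), ((6,6),(0,1,0))],
  [(6,7),(5,7),(6,6),(4,7),(6,5),(3,7),(5,5),(6,4),(2,7),(3,6),(5,4),(6,3),(1,7),(2,6),(3,5),(5,3),(6,2),(0,7),(1,6),(2,5),(4,3),(5,2),(6,1),(-1,7),(0,6),(1,5),(3,3),(4,2),(5,1),(6,0),(-1,6),(0,5),(1,4),(3,2),(4,1),(5,0),(6,-1),(-1,5),(0,4),(1,3),(3,1),(4,0),(5,-1),(-1,4),(0,3),(2,1),(3,0),(4,-1),(-1,3),(1,1),(2,0),(3,-1),(-1,2),(1,0),(2,-1),(-1,1),(1,-1),(-1,0),(0,-1),(-1,-1)])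

lemma sk43_ok : sk43.ok := by decide +kernel

def sk44 : Sk := (9, 4,
  [((8,3),-1,(1,0,-1)), ((7,3),1,(0,1,-1)), ((6,3),-1,(-1,1,0)), ((5,3),1,(-1,0,1)), ((4,3),-1,(0,-1,1)), ((4,2),1,(-1,-1,0)), ((4,1),-1,(-1,0,-1)), ((3,1),1,(0,-1,-1)), ((2,1),-1,(1,-1,0)), ((1,1),1,(1,0,1)), ((0,1),-1,(0,1,1)), ((0,0),1,(1,1,0))],
  [((1,1),(1,1,1)), ((0,0),(1,1,-1)), ((1,0),(1,0,0)), ((0,1),(0,1,0)), ((0,2),(-1,1,1)), ((1,2),(0,0,1)), ((2,2),(1,-1,1)), ((2,1),(1,0,0)), ((3,1),(1,-1,-1)), ((3,2),(0,-1,0)), ((4,2),(-1,-1,-1)), ((4,1),(0,0,-1)), ((5,1),(-1,1,-1)), ((5,2),(-1,0,0)), ((5,3),(-1,-1,1)), ((4,3),(0,-1,0)), ((4,4),(1,-1,1)), ((5,4),(0,0,1)), ((6,4),(-1,1,1)), ((6,3),(-1,0,0)), ((7,3),(-1,1,-1)), ((7,4),(0,1,0)), ((8,4),(1,1,-1)),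 ((8,3),(0,0,-1)), ((9,3),(1,-1,-1)), ((9,4),(1,0,0))],
  [(9,4),(8,4),(9,3),(7,4),(9,2),(6,4),(8,2),(9,1),(5,4),(7,2),(8,1),(9,0),(4,4),(6,2),(7,1),(8,0),(9,-1),(3,4),(5,2),(6,1),(7,0),(8,-1),(2,4),(3,3),(5,1),(6,0),(7,-1),(1,4),(2,3),(3,2),(5,0),(6,-1),(0,4),(1,3),(2,2),(4,0),(5,-1),(-1,4),(0,3),(1,2),(3,0),(4,-1),(-1,3),(0,2),(2,0),(3,-1),(-1,2),(1,0),(2,-1),(-1,1),(1,-1),(-1,0),(0,-1),(-1,-1)])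

lemma sk44_ok : sk44.ok := by decide +kernel

def sk45 : Sk := (9, 4,
  [((8,3),1,(0,1,1)), ((8,2),-1,(-1,0,1)), ((7,2),1,(-1,1,0)), ((6,2),-1,(0,1,-1)), ((5,2),1,(1,0,-1)), ((4,2),-1,(1,-1,0)), ((4,1),1,(0,-1,-1)), ((4,0),-1,(-1,0,-1)), ((3,0),1,(-1,-1,0)), ((2,0),-1,(0,-1,1)), ((1,0),1,(1,0,1)), ((0,0),-1,(1,1,0))],
  [((1,0),(1,1,1)), ((0,1),(1,1,-1)), ((1,1),(1,0,0)), ((0,0),(0,1,0)), ((2,1),(1,-1,1)), ((2,0),(0,0,1)), ((3,0),(-1,-1,1)), ((3,1),(0,-1,0)), ((4,1),(-1,-1,-1)), ((4,0),(-1,0,0)), ((5,0),(-1,1,-1)), ((5,1),(0,0,-1)), ((5,2),(1,-1,-1)), ((4,2),(0,-1,0)), ((4,3),(1,-1,1)), ((5,3),(1,0,0)), ((6,3),(1,1,-1)), ((6,2),(0,0,-1)), ((7,2),(-1,1,-1)), ((7,3),(0,1,0)), ((8,3),(-1,1,1)), ((8,2),(-1,0,0)), ((9,2),(-1,-1,1)),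 ((9,3),(0,0,1)), ((9,4),(1,1,1)), ((8,4),(0,1,0))],
  [(9,4),(8,4),(9,3),(7,4),(9,2),(6,4),(7,3),(9,1),(5,4),(6,3),(8,1),(9,0),(4,4),(5,3),(7,1),(8,0),(9,-1),(3,4),(4,3),(6,1),(7,0),(8,-1),(2,4),(3,3),(5,1),(6,0),(7,-1),(1,4),(2,3),(3,2),(5,0),(6,-1),(0,4),(1,3),(2,2),(3,1),(5,-1),(-1,4),(0,3),(1,2),(2,1),(4,-1),(-1,3),(0,2),(1,1),(3,-1),(-1,2),(0,1),(2,-1),(-1,1),(1,-1),(-1,0),(0,-1),(-1,-1)])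

lemma sk45_ok : sk45.ok := by decide +kernel

def sk46 : Sk := (8, 5,
  [((7,4),-1,(0,1,-1)), ((6,4),1,(-1,0,-1)), ((5,4),-1,(-1,-1,0)), ((5,3),1,(0,-1,-1)), ((5,2),-1,(1,0,-1)), ((4,2),1,(1,-1,0)), ((3,2),-1,(0,-1,1)), ((2,2),1,(-1,0,1)), ((1,2),-1,(-1,1,0)), ((1,1),1,(0,1,1)), ((1,0),-1,(1,0,1)), ((0,0),1,(1,1,0))],
  [((1,1),(1,1,1)), ((0,0),(1,1,-1)), ((1,0),(1,0,0)), ((0,1),(0,1,0)), ((2,0),(1,-1,1)), ((2,1),(0,0,1)), ((2,2),(-1,1,1)), ((1,2),(0,1,0)), ((1,3),(-1,1,-1)), ((2,3),(-1,0,0)), ((3,3),(-1,-1,1)), ((3,2),(0,0,1)), ((4,2),(1,-1,1)), ((4,3),(0,-1,0)), ((5,3),(1,-1,-1)), ((5,2),(1,0,0)), ((6,2),(1,1,-1)), ((6,3),(0,0,-1)), ((6,4),(-1,-1,-1)), ((5,4),(0,-1,0)), ((5,5),(-1,-1,1)), ((6,5),(-1,0,0)), ((7,5),(-1,1,-1)),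 ((7,4),(0,0,-1)), ((8,4),(1,1,-1)), ((8,5),(0,1,0))],
  [(8,5),(7,5),(8,4),(6,5),(8,3),(5,5),(7,3),(8,2),(4,5),(6,3),(7,2),(8,1),(3,5),(4,4),(6,2),(7,1),(8,0),(2,5),(3,4),(4,3),(6,1),(7,0),(8,-1),(1,5),(2,4),(3,3),(5,1),(6,0),(7,-1),(0,5),(1,4),(2,3),(4,1),(5,0),(6,-1),(-1,5),(0,4),(1,3),(3,1),(4,0),(5,-1),(-1,4),(0,3),(2,1),(3,0),(4,-1),(-1,3),(0,2),(2,0),(3,-1),(-1,2),(0,1),(2,-1),(-1,1),(1,-1),(-1,0),(0,-1),(-1,-1)])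

lemma sk46_ok : sk46.ok := by decide +kernel

def sk47 : Sk := (8, 5,
  [((7,4),1,(0,1,-1)), ((6,4),-1,(-1,0,-1)), ((5,4),1,(-1,-1,0)), ((4,4),-1,(0,-1,1)), ((4,3),1,(-1,0,1)), ((4,2),-1,(-1,1,0)), ((3,2),1,(0,1,1)), ((2,2),-1,(1,0,1)), ((1,2),1,(1,-1,0)), ((0,2),-1,(0,-1,-1)), ((0,1),1,(1,0,-1)), ((0,0),-1,(1,1,0))],
  [((1,0),(1,1,1)), ((0,1),(1,1,-1)), ((1,1),(1,0,0)), ((0,0),(0,1,0)), ((1,2),(1,-1,-1)), ((0,2),(0,0,-1)), ((0,3),(-1,-1,-1)), ((1,3),(0,-1,0)), ((2,3),(1,-1,1)), ((2,2),(1,0,0)), ((3,2),(1,1,1)), ((3,3),(0,0,1)), ((4,3),(-1,1,1)), ((4,2),(0,1,0)), ((5,2),(-1,1,-1)), ((5,3),(-1,0,0)), ((5,4),(-1,-1,1)), ((4,4),(0,0,1)), ((4,5),(1,-1,1)), ((5,5),(0,-1,0)), ((6,5),(-1,-1,-1)), ((6,4),(-1,0,0)), ((7,4),(-1,1,-1)),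 ((7,5),(0,0,-1)), ((8,5),(1,1,-1)), ((8,4),(0,1,0))],
  [(8,5),(7,5),(8,4),(6,5),(8,3),(5,5),(7,3),(8,2),(4,5),(6,3),(7,2),(8,1),(3,5),(5,3),(6,2),(7,1),(8,0),(2,5),(3,4),(5,2),(6,1),(7,0),(8,-1),(1,5),(2,4),(3,3),(5,1),(6,0),(7,-1),(0,5),(1,4),(2,3),(4,1),(5,0),(6,-1),(-1,5),(0,4),(1,3),(3,1),(4,0),(5,-1),(-1,4),(0,3),(2,1),(3,0),(4,-1),(-1,3),(1,1),(2,0),(3,-1),(-1,2),(1,0),(2,-1),(-1,1),(1,-1),(-1,0),(0,-1),(-1,-1)])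

lemma sk47_ok : sk47.ok := by decide +kernel

def sk48 : Sk := (5, 8,
  [((4,0),1,(-1,0,1)), ((4,1),-1,(-1,-1,0)), ((4,2),1,(0,-1,-1)), ((3,2),-1,(-1,0,-1)), ((2,2),1,(-1,1,0)), ((2,3),-1,(0,1,-1)), ((2,4),1,(1,0,-1)), ((2,5),-1,(1,-1,0)), ((2,6),1,(0,-1,1)), ((0,7),-1,(0,1,1)), ((1,6),-1,(1,0,1)), ((0,6),1,(1,1,0))],
  [((1,7),(1,1,1)), ((0,6),(1,1,-1)), ((1,6),(1,0,0)), ((0,7),(0,1,0)), ((2,6),(1,-1,1)), ((2,7),(0,0,1)), ((0,8),(-1,1,1)), ((1,8),(0,0,1)), ((3,7),(-1,-1,1)), ((3,6),(0,-1,0)), ((3,5),(1,-1,-1)), ((2,5),(1,0,0)), ((2,4),(1,1,-1)), ((3,4),(0,0,-1)), ((3,3),(-1,1,-1)), ((2,3),(0,1,0)), ((2,2),(-1,1,1)), ((3,2),(-1,0,0)), ((4,2),(-1,-1,-1)), ((4,3),(0,0,-1)), ((5,3),(1,-1,-1)), ((5,2),(0,-1,0)), ((5,1),(-1,-1,1)),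 ((4,1),(-1,0,0)), ((4,0),(-1,1,1)), ((5,0),(0,0,1))],
  [(3,6),(4,7),(5,8),(3,7),(4,8),(3,5),(4,6),(5,7),(2,7),(3,8),(3,4),(4,5),(5,6),(1,7),(2,8),(3,3),(4,4),(5,5),(1,8),(4,3),(5,4),(0,8),(5,3),(-1,8),(5,2),(-1,7),(1,5),(5,1),(-1,6),(0,5),(1,4),(5,0),(-1,5),(0,4),(1,3),(3,1),(5,-1),(-1,4),(0,3),(1,2),(2,1),(3,0),(4,-1),(-1,3),(0,2),(1,1),(2,0),(3,-1),(-1,2),(0,1),(1,0),(2,-1),(-1,1),(0,0),(1,-1),(-1,0),(0,-1),(-1,-1)])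

lemma sk48_ok : sk48.ok := by decide +kernel

def sk49 : Sk := (5, 8,
  [((4,0),-1,(0,1,1)), ((4,1),1,(-1,0,1)), ((4,2),-1,(-1,-1,0)), ((4,3),1,(0,-1,-1)), ((3,3),-1,(-1,0,-1)), ((2,3),1,(-1,1,0)), ((2,4),-1,(0,1,-1)), ((2,5),1,(1,0,-1)), ((2,6),-1,(1,-1,0)), ((2,7),1,(0,-1,1)), ((1,7),-1,(1,0,1)), ((0,7),1,(1,1,0))],
  [((1,8),(1,1,1)), ((0,7),(1,1,-1)), ((1,7),(1,0,0)), ((0,8),(0,1,0)), ((2,7),(1,-1,1)), ((2,8),(0,0,1)), ((3,8),(-1,-1,1)), ((3,7),(0,-1,0)), ((3,6),(1,-1,-1)), ((2,6),(1,0,0)), ((2,5),(1,1,-1)), ((3,5),(0,0,-1)), ((3,4),(-1,1,-1)), ((2,4),(0,1,0)), ((2,3),(-1,1,1)), ((3,3),(-1,0,0)), ((4,3),(-1,-1,-1)), ((4,4),(0,0,-1)), ((5,4),(1,-1,-1)), ((5,3),(0,-1,0)), ((5,2),(-1,-1,1)), ((4,2),(-1,0,0)), ((4,1),(-1,1,1)),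 ((5,1),(0,0,1)), ((5,0),(1,1,1)), ((4,0),(0,1,0))],
  [(3,6),(4,7),(5,8),(3,7),(4,8),(3,5),(4,6),(5,7),(3,8),(3,4),(4,5),(5,6),(2,8),(4,4),(5,5),(1,8),(5,4),(0,8),(5,3),(-1,8),(1,6),(5,2),(-1,7),(0,6),(1,5),(5,1),(-1,6),(0,5),(1,4),(3,2),(5,0),(-1,5),(0,4),(1,3),(2,2),(3,1),(5,-1),(-1,4),(0,3),(1,2),(2,1),(3,0),(4,-1),(-1,3),(0,2),(1,1),(2,0),(3,-1),(-1,2),(0,1),(1,0),(2,-1),(-1,1),(0,0),(1,-1),(-1,0),(0,-1),(-1,-1)])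

lemma sk49_ok : sk49.ok := by decide +kernel

def sk50 : Sk := (8, 5,
  [((7,4),-1,(0,1,-1)), ((7,3),1,(1,0,-1)), ((7,2),-1,(1,-1,0)), ((6,2),1,(0,-1,-1)), ((5,2),-1,(-1,0,-1)), ((4,2),1,(-1,1,0)), ((3,2),-1,(0,1,1)), ((3,1),1,(-1,0,1)), ((3,0),-1,(-1,-1,0)), ((2,0),1,(0,-1,1)), ((1,0),-1,(1,0,1)), ((0,0),1,(1,1,0))],
  [((1,1),(1,1,1)), ((0,0),(1,1,-1)), ((1,0),(1,0,0)), ((0,1),(0,1,0)), ((2,0),(1,-1,1)), ((2,1),(0,0,1)), ((3,1),(-1,-1,1)), ((3,0),(0,-1,0)), ((4,0),(-1,-1,-1)), ((4,1),(-1,0,0)), ((4,2),(-1,1,1)), ((3,2),(0,0,1)), ((3,3),(1,1,1)), ((4,3),(0,1,0)), ((5,3),(-1,1,-1)), ((5,2),(-1,0,0)), ((6,2),(-1,-1,-1)), ((6,3),(0,0,-1)), ((7,3),(1,-1,-1)), ((7,2),(0,-1,0)), ((8,2),(1,-1,1)), ((8,3),(1,0,0)), ((8,4),(1,1,-1)),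 ((7,4),(0,0,-1)), ((7,5),(-1,1,-1)), ((8,5),(0,1,0))],
  [(8,5),(7,5),(8,4),(6,5),(8,3),(5,5),(6,4),(8,2),(4,5),(5,4),(6,3),(8,1),(3,5),(4,4),(5,3),(7,1),(8,0),(2,5),(3,4),(4,3),(6,1),(7,0),(8,-1),(1,5),(2,4),(3,3),(5,1),(6,0),(7,-1),(0,5),(1,4),(2,3),(4,1),(5,0),(6,-1),(-1,5),(0,4),(1,3),(2,2),(4,0),(5,-1),(-1,4),(0,3),(1,2),(2,1),(4,-1),(-1,3),(0,2),(1,1),(3,-1),(-1,2),(0,1),(2,-1),(-1,1),(1,-1),(-1,0),(0,-1),(-1,-1)])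

lemma sk50_ok : sk50.ok := by decide +kernel

def sk51 : Sk := (8, 5,
  [((7,4),1,(0,1,-1)), ((6,4),-1,(-1,0,-1)), ((6,3),1,(-1,1,0)), ((6,2),-1,(0,1,1)), ((5,2),1,(-1,0,1)), ((4,2),-1,(-1,-1,0)), ((3,2),1,(0,-1,-1)), ((2,2),-1,(1,0,-1)), ((2,1),1,(1,-1,0)), ((2,0),-1,(0,-1,1)), ((1,0),1,(1,0,1)), ((0,0),-1,(1,1,0))],
  [((1,0),(1,1,1)), ((0,1),(1,1,-1)), ((1,1),(1,0,0)), ((0,0),(0,1,0)), ((2,1),(1,-1,1)), ((2,0),(0,0,1)), ((3,0),(-1,-1,1)), ((3,1),(0,-1,0)), ((3,2),(1,-1,-1)), ((2,2),(1,0,0)), ((2,3),(1,1,-1)), ((3,3),(0,0,-1)), ((4,3),(-1,-1,-1)), ((4,2),(0,-1,0)), ((5,2),(-1,-1,1)), ((5,3),(-1,0,0)), ((6,3),(-1,1,1)), ((6,2),(0,0,1)), ((7,2),(1,1,1)), ((7,3),(0,1,0)), ((7,4),(-1,1,-1)), ((6,4),(-1,0,0)), ((6,5),(-1,-1,-1)),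 ((7,5),(0,0,-1)), ((8,5),(1,1,-1)), ((8,4),(0,1,0))],
  [(8,5),(7,5),(8,4),(6,5),(8,3),(5,5),(7,3),(8,2),(4,5),(5,4),(7,2),(8,1),(3,5),(4,4),(5,3),(7,1),(8,0),(2,5),(3,4),(4,3),(6,1),(7,0),(8,-1),(1,5),(2,4),(3,3),(5,1),(6,0),(7,-1),(0,5),(1,4),(2,3),(4,1),(5,0),(6,-1),(-1,5),(0,4),(1,3),(3,1),(4,0),(5,-1),(-1,4),(0,3),(1,2),(3,0),(4,-1),(-1,3),(0,2),(1,1),(3,-1),(-1,2),(0,1),(2,-1),(-1,1),(1,-1),(-1,0),(0,-1),(-1,-1)])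

lemma sk51_ok : sk51.ok := by decide +kernel

def skews : List Sk := [sk0, sk1, sk2, sk3, sk4, sk5, sk6, sk7, sk8, sk9, sk10, sk11, sk12, sk13, sk14, sk15, sk16, sk17, sk18, sk19, sk20, sk21, sk22, sk23, sk24, sk25, sk26, sk27, sk28, sk29, sk30, sk31, sk32, sk33, sk34, sk35, sk36, sk37, sk38, sk39, sk40, sk41, sk42, sk43, sk44, sk45, sk46, sk47, sk48, sk49, sk50, sk51]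

lemma skews_ok : ∀ s ∈ skews, s.ok := by
  simp only [skews, List.forall_mem_cons]
  exact ⟨sk0_ok, sk1_ok, sk2_ok, sk3_ok, sk4_ok, sk5_ok, sk6_ok, sk7_ok, sk8_ok, sk9_ok, sk10_ok, sk11_ok, sk12_ok, sk13_ok, sk14_ok, sk15_ok, sk16_ok, sk17_ok, sk18_ok, sk19_ok, sk20_ok, sk21_ok, sk22_ok, sk23_ok, sk24_ok, sk25_ok, sk26_ok, sk27_ok, sk28_ok, sk29_ok, sk30_ok, sk31_ok, sk32_ok, sk33_ok, sk34_ok, sk35_ok, sk36_ok, sk37_ok, sk38_ok, sk39_ok, sk40_ok, sk41_ok, sk42_ok, sk43_ok, sk44_ok, sk45_ok, sk46_ok, sk47_ok, sk48_ok, sk49_ok, sk50_ok, sk51_ok, by simp⟩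

end Pool.Agent.Lib.RC68
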