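import Pool.Agent.Lib.RC68.Units
import Pool.Agent.Lib.RC68.Skews
import Pool.Agent.Lib.RC68.Big2
import Pool.Agent.Lib.RC68.Big3
import Pool.Agent.Lib.RC68.Big4
import Pool.Agent.Lib.RC68.Big5

set_option autoImplicit false

namespace Pool.Agent.Lib.RC68

open Pool.Agent.Lib.MP_ea7ca7_co

def J1 : List (ℕ × ℕ × List (ℕ × ℤ × ℤ)) :=
  [(0, 2, [(43,0,0), (44,0,1)]),
   (1, 2, [(39,0,0), (40,1,0)]),
   (2, 2, [(41,0,0), (42,1,0)]),
   (3, 2, [(45,0,0), (46,1,0)]),
   (4, 2, [(47,0,0), (48,1,0)]),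
   (5, 2, [(49,0,0), (50,0,1)]),
   (6, 2, [(51,0,0), (52,1,0)]),
   (7, 2, [(53,0,0), (54,0,1)]),
   (8, 2, [(55,0,0), (56,0,1)]),
   (9, 2, [(57,0,0), (58,0,1)]),
   (10, 2, [(59,0,0), (60,1,0)]),
   (11, 2, [(61,0,0), (62,0,1)]),
   (12, 2, [(63,0,0), (64,1,0)]),
   (13, 2, [(65,0,0), (66,0,1)]),
   (14, 2, [(67,0,0), (68,1,0)]),
   (15, 2, [(69,0,0), (70,0,1)])]

def J2 : List (ℕ × ℕ × List (ℕ × ℤ × ℤ)) :=
  [(19, 1, [(71,0,0), (71,0,4)]),
   (36, 1, [(81,0,3), (71,4,0)]),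
   (37, 1, [(71,0,0), (81,1,0)]),
   (38, 1, [(81,0,2), (81,1,0)])]

def dP2 : List (ℕ × ℤ × ℤ) :=
  [(72,0,0), (73,1,0), (73,1,4), (72,0,4)]

def dP3 : List (ℕ × ℤ × ℤ) :=
  [(71,2,4), (71,3,3), (74,0,7), (71,2,8), (75,1,1), (76,0,0), (73,4,4), (74,4,0), (77,3,9)]

def dP4 : List (ℕ × ℤ × ℤ) :=
  [(71,7,5), (78,6,8), (76,7,9), (79,5,12), (71,9,6), (76,8,3), (78,10,3), (80,9,1), (78,4,11), (78,12,0), (74,8,12), (81,9,10), (76,10,11), (76,2,11), (81,1,10), (74,0,12)]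

def dP5 : List (ℕ × ℤ × ℤ) :=
  [(82,10,9), (83,9,12), (84,8,12), (83,6,10), (84,7,13), (82,7,7), (85,5,11), (77,4,7), (83,6,15), (77,2,7), (71,13,10), (85,10,14), (84,7,16), (84,6,17), (75,10,17), (71,14,9), (73,4,4), (82,7,5), (77,8,5), (77,9,4), (84,9,2), (83,0,5), (84,1,3), (86,9,1), (86,10,0)]

def dZ7 : List (ℕ × ℤ × ℤ) :=
  [(86,0,0), (84,10,32), (20,2,0), (21,7,29), (71,0,1), (71,12,29), (22,3,1), (23,7,27), (16,1,2), (17,10,29), (71,0,4), (71,12,26), (85,4,5), (74,7,26), (72,2,6), (73,9,25), (24,0,7), (25,10,22), (26,3,7), (27,7,21), (71,1,10), (71,11,20), (71,0,11), (71,12,19), (72,5,11), (73,6,20), (79,2,13), (80,8,19), (28,0,14), (29,8,16), (81,6,14), (81,3,19), (81,9,14), (81,0,19), (75,10,15), (75,0,17), (75,3,16), (75,7,16), (75,5,16)]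

def dZ8 : List (ℕ × ℤ × ℤ) :=
  [(82,0,0), (82,13,36), (30,1,0), (31,10,34), (80,4,0), (79,8,37), (79,4,1), (80,8,36), (82,0,2), (82,13,34), (75,4,3), (75,8,34), (72,0,4), (73,13,32), (32,2,4), (33,8,31), (71,14,29), (80,2,7), (79,10,30), (71,6,7), (71,8,28), (79,2,8), (80,10,29), (34,0,9), (35,10,26), (79,2,11), (80,10,26), (78,0,12), (78,14,23), (77,5,14), (77,7,23), (74,0,15), (85,13,21), (73,3,15), (72,10,21), (72,5,15), (73,8,21), (73,2,16), (72,11,20), (81,10,16), (81,1,22), (79,12,16), (80,0,21), (76,0,17), (76,13,19), (18,9,18), (18,3,19), (75,12,18), (75,0,19), (88,2,10), (89,8,25), (90,6,16), (90,4,20)]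

def T0 : List It := (units.map fun s => (s.cells, 1, 1)) ++ skews.map fun s => (s.cells, 1, 1)

def T1 : List It := T0 ++ next T0 J1

def T2 : List It := T1 ++ next T1 J2

lemma rg0 : ∀ e ∈ T0, Rg e := by
  intro e he
  rcases List.mem_append.1 he with he | he <;> obtain ⟨s, hs, rfl⟩ := List.mem_map.1 he
  · exact rg_one (Shape.net (units_ok s hs))
  · exact rg_one (Sk.net (skews_ok s hs))

lemma rg1 : ∀ e ∈ T1, Rg e := rg_next rg0 (by decide +kernel)

lemma rg2 : ∀ e ∈ T2, Rg e := rg_next rg1 (by decide +kernel)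

lemma rep_of {s : ℕ} {C : List (ℤ × ℤ)} {d : List (ℕ × ℤ × ℤ)} {a b : ℕ} (hC : IsCubeNet C.toFinset)
    (h : Job.ok T2 (s, C, d) = true ∧ Job.lo T2 (s, C, d) = a ∧ Job.hi T2 (s, C, d) = b)
    {k : ℕ} (h1 : a ≤ k) (h2 : k ≤ b) : ∃ S, IsRepCube S k :=
  Dis.rep hC ((Job.rg rg2 h.1).2 k (by rw [h.2.1]; exact h1) (by rw [h.2.2]; exact h2))

lemma step8 {a b : ℕ} (h : Rg (un0.cells, a, b)) : Rg (un0.cells, a + 53, b + 106) := by
  have := rg_tiled (s := 8) (C := un0.cells) (Cs := shift (0, 6) (un0.cells, a, b) :: pick T2 dZ8)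
    (by
      intro e he
      rcases List.mem_cons.1 he with rfl | he
      · exact rg_shift h _
      · exact rg_pick rg2 _ e he)
    (show tiled 8 un0.cells (cellsOf 1 (0, 6) un0.cells :: (pick T2 dZ8).map Prod.fst) = true by
      decide +kernel)
  simp only [List.map_cons, List.sum_cons] at this
  rw [show ((pick T2 dZ8).map fun e => e.2.1).sum = 53 by decide +kernel,
    show ((pick T2 dZ8).map fun e => e.2.2).sum = 106 by decide +kernel] at this
  exact this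

lemma rg_mem {i : ℕ} {e : It} (h : T2[i]? = some e) : Rg e := rg2 e (List.mem_of_getElem? h)

lemma dis_large (k : ℕ) : 54 ≤ k → Dis un0.cells.toFinset k := by
  induction k using Nat.strong_induction_on with
  | _ k ih =>
    intro hk
    by_cases h : k ≤ 108
    · exact (step8 (a := 1) (b := 2) (rg_mem (i := 71) (by decide +kernel))).2 k hk h
    · have : Rg (un0.cells, k - 53, k - 53) := ⟨le_rfl, fun m h1 h2 => by
        obtain rfl : m = k - 53 := le_antisymm h2 h1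
        exact ih _ (by omega) (by omega)⟩
      exact (step8 this).2 k (by simp only; omega) (by simp only; omega)

theorem every_order (k : ℕ) (hk : 0 < k) : ∃ S, IsRepCube S k := by
  by_cases h : k ≤ 4
  · exact Dis.rep (Sk.net sk0_ok)
      ((rg_mem (i := 87) (e := (sk0.cells, 1, 4)) (by decide +kernel)).2 k hk h)
  by_cases h : k ≤ 8
  · exact rep_of (s := 1) (d := dP2) (a := 4) (b := 8) big2_net (by decide +kernel) (by omega) h
  by_cases h : k ≤ 18
  · exact rep_of (s := 1) (d := dP3) (a := 9) (b := 18) big3_net (by decide +kernel) (by omega) h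
  by_cases h : k ≤ 32
  · exact rep_of (s := 1) (d := dP4) (a := 16) (b := 32) big4_net (by decide +kernel) (by omega) h
  by_cases h : k ≤ 50
  · exact rep_of (s := 1) (d := dP5) (a := 25) (b := 50) big5_net (by decide +kernel) (by omega) h
  by_cases h : k ≤ 66
  · exact rep_of (s := 7) (d := dZ7) (a := 39) (b := 66) (Shape.net un0_ok) (by decide +kernel)
      (by omega) h
  exact Dis.rep (Shape.net un0_ok) (dis_large k (by omega))

end Pool.Agent.Lib.RC68
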