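import Pool.Agent.Lib.MP_ea7ca7_co.Net

set_option autoImplicit false

namespace Pool.Agent.Lib.RC68

open Pool.Agent.Lib.MP_ea7ca7_co

abbrev Z3 := ℤ × ℤ × ℤ

/-- face centre and edge midpoint of the six flags at the vertex `V` of the cube `[-1,1]^3` -/
def pats (V : Z3) : List (Z3 × Z3) :=
  [((V.1, 0, 0), (V.1, V.2.1, 0)), ((V.1, 0, 0), (V.1, 0, V.2.2)),
   ((0, V.2.1, 0), (V.1, V.2.1, 0)), ((0, V.2.1, 0), (0, V.2.1, V.2.2)),
   ((0, 0, V.2.2), (V.1, 0, V.2.2)), ((0, 0, V.2.2), (0, V.2.1, V.2.2))]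

def flagOK (F M V : Z3) : Prop := pm V.1 ∧ pm V.2.1 ∧ pm V.2.2 ∧ (F, M) ∈ pats V

instance (F M V : Z3) : Decidable (flagOK F M V) := by unfold flagOK; infer_instance

noncomputable def toSp (p : Z3) : Space := !₂[(p.1 : ℝ), (p.2.1 : ℝ), (p.2.2 : ℝ)]

/-- the point of the flag triangle with weights `a` at the vertex and `b` at the face centre -/
noncomputable def bar (F M V : Z3) (a b : ℝ) : Space :=
  (1 - a - b) • toSp M + a • toSp V + b • toSp F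

lemma bar_cases {F M V : Z3} (h : flagOK F M V) (a b : ℝ) :
    (F = (V.1, 0, 0) ∧ M = (V.1, V.2.1, 0) ∧ bar F M V a b 0 = V.1 * 1 ∧
      bar F M V a b 1 = V.2.1 * (1 - b) ∧ bar F M V a b 2 = V.2.2 * a) ∨
    (F = (V.1, 0, 0) ∧ M = (V.1, 0, V.2.2) ∧ bar F M V a b 0 = V.1 * 1 ∧
      bar F M V a b 1 = V.2.1 * a ∧ bar F M V a b 2 = V.2.2 * (1 - b)) ∨
    (F = (0, V.2.1, 0) ∧ M = (V.1, V.2.1, 0) ∧ bar F M V a b 0 = V.1 * (1 - b) ∧
      bar F M V a b 1 = V.2.1 * 1 ∧ bar F M V a b 2 = V.2.2 * a) ∨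
    (F = (0, V.2.1, 0) ∧ M = (0, V.2.1, V.2.2) ∧ bar F M V a b 0 = V.1 * a ∧
      bar F M V a b 1 = V.2.1 * 1 ∧ bar F M V a b 2 = V.2.2 * (1 - b)) ∨
    (F = (0, 0, V.2.2) ∧ M = (V.1, 0, V.2.2) ∧ bar F M V a b 0 = V.1 * (1 - b) ∧
      bar F M V a b 1 = V.2.1 * a ∧ bar F M V a b 2 = V.2.2 * 1) ∨
    (F = (0, 0, V.2.2) ∧ M = (0, V.2.1, V.2.2) ∧ bar F M V a b 0 = V.1 * a ∧
      bar F M V a b 1 = V.2.1 * (1 - b) ∧ bar F M V a b 2 = V.2.2 * 1) := by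
  obtain ⟨-, -, -, h⟩ := h
  simp only [pats, List.mem_cons, Prod.mk.injEq, List.not_mem_nil, or_false] at h
  rcases h with ⟨rfl, rfl⟩ | ⟨rfl, rfl⟩ | ⟨rfl, rfl⟩ | ⟨rfl, rfl⟩ | ⟨rfl, rfl⟩ | ⟨rfl, rfl⟩
  · refine Or.inl ⟨rfl, rfl, ?_, ?_, ?_⟩ <;> simp [bar, toSp] <;> ring
  · refine Or.inr (Or.inl ⟨rfl, rfl, ?_, ?_, ?_⟩) <;> simp [bar, toSp] <;> ring
  · refine Or.inr (Or.inr (Or.inl ⟨rfl, rfl, ?_, ?_, ?_⟩)) <;> simp [bar, toSp] <;> ring
  · refine Or.inr (Or.inr (Or.inr (Or.inl ⟨rfl, rfl, ?_, ?_, ?_⟩))) <;> simp [bar, toSp] <;> ring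
  · refine Or.inr (Or.inr (Or.inr (Or.inr (Or.inl ⟨rfl, rfl, ?_, ?_, ?_⟩)))) <;>
      simp [bar, toSp] <;> ring
  · refine Or.inr (Or.inr (Or.inr (Or.inr (Or.inr ⟨rfl, rfl, ?_, ?_, ?_⟩)))) <;>
      simp [bar, toSp] <;> ring

lemma sg {v v' : ℤ} (h : pm v) (h' : pm v') {m m' : ℝ} (hm : 0 ≤ m) (hm' : 0 ≤ m')
    (e : (v : ℝ) * m = v' * m') : m = m' ∧ (0 < m → v = v') := by
  rcases h with rfl | rfl <;> rcases h' with rfl | rfl <;> push_cast at e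
  · exact ⟨by linarith, fun _ => rfl⟩
  · exact ⟨by linarith, fun _ => by exfalso; linarith⟩
  · exact ⟨by linarith, fun _ => by exfalso; linarith⟩
  · exact ⟨by linarith, fun _ => rfl⟩

lemma bar_uniq {F M V F' M' V' : Z3} (h : flagOK F M V) (h' : flagOK F' M' V') {a b a' b' : ℝ}
    (ha : 0 ≤ a) (hb : 0 ≤ b) (hab : a + b ≤ 1) (ha' : 0 ≤ a') (hb' : 0 ≤ b') (hab' : a' + b' ≤ 1)
    (e : bar F M V a b = bar F' M' V' a' b') :
    a = a' ∧ b = b' ∧ (0 < a → V = V') ∧ (0 < b → F = F') ∧ (a + b < 1 → M = M') := by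
  have e0 : bar F M V a b 0 = bar F' M' V' a' b' 0 := by rw [e]
  have e1 : bar F M V a b 1 = bar F' M' V' a' b' 1 := by rw [e]
  have e2 : bar F M V a b 2 = bar F' M' V' a' b' 2 := by rw [e]
  rcases bar_cases h a b with c | c | c | c | c | c <;>
  rcases bar_cases h' a' b' with c' | c' | c' | c' | c' | c' <;>
  · obtain ⟨f, m, c0, c1, c2⟩ := c
    obtain ⟨f', m', d0, d1, d2⟩ := c'
    rw [c0, d0] at e0
    rw [c1, d1] at e1
    rw [c2, d2] at e2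
    obtain ⟨p0, k0⟩ := sg h.1 h'.1 (by linarith) (by linarith) e0
    obtain ⟨p1, k1⟩ := sg h.2.1 h'.2.1 (by linarith) (by linarith) e1
    obtain ⟨p2, k2⟩ := sg h.2.2.1 h'.2.2.1 (by linarith) (by linarith) e2
    rw [f, f', m, m']
    refine ⟨by linarith, by linarith, fun _ => ?_, fun _ => ?_, fun _ => ?_⟩ <;>
    refine Prod.ext ?_ (Prod.ext ?_ ?_) <;>
    first
      | rfl
      | exact k0 (by linarith)
      | exact k1 (by linarith)
      | exact k2 (by linarith)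
      | (exfalso; linarith)

lemma pm_sq {v : ℤ} (h : pm v) : (v : ℝ) ^ 2 = 1 := by
  rcases h with rfl | rfl <;> norm_num

lemma bar_dist {F M V : Z3} (h : flagOK F M V) (a b a' b' : ℝ) :
    (bar F M V a b 0 - bar F M V a' b' 0) ^ 2 + (bar F M V a b 1 - bar F M V a' b' 1) ^ 2 +
      (bar F M V a b 2 - bar F M V a' b' 2) ^ 2 = (a - a') ^ 2 + (b - b') ^ 2 := by
  have s0 := pm_sq h.1
  have s1 := pm_sq h.2.1
  have s2 := pm_sq h.2.2.1
  obtain ⟨-, -, -, h⟩ := h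
  simp only [pats, List.mem_cons, Prod.mk.injEq, List.not_mem_nil, or_false] at h
  rcases h with ⟨rfl, rfl⟩ | ⟨rfl, rfl⟩ | ⟨rfl, rfl⟩ | ⟨rfl, rfl⟩ | ⟨rfl, rfl⟩ | ⟨rfl, rfl⟩ <;>
    simp [bar, toSp]
  · linear_combination (b - b') ^ 2 * s1 + (a - a') ^ 2 * s2
  · linear_combination (a - a') ^ 2 * s1 + (b - b') ^ 2 * s2
  · linear_combination (b - b') ^ 2 * s0 + (a - a') ^ 2 * s2
  · linear_combination (a - a') ^ 2 * s0 + (b - b') ^ 2 * s2
  · linear_combination (b - b') ^ 2 * s0 + (a - a') ^ 2 * s1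
  · linear_combination (a - a') ^ 2 * s0 + (b - b') ^ 2 * s1

/-- the surface of the cube `[-1,1]^3` -/
def Surf (w : Space) : Prop := (∀ i, |w i| ≤ 1) ∧ ∃ i, |w i| = 1

lemma abs_pm {v : ℤ} (h : pm v) {m : ℝ} (hm : 0 ≤ m) : |(v : ℝ) * m| = m := by
  rcases h with rfl | rfl <;> simp [abs_of_nonneg hm]

lemma bar_into {F M V : Z3} (h : flagOK F M V) {a b : ℝ} (ha : 0 ≤ a) (hb : 0 ≤ b)
    (hab : a + b ≤ 1) : Surf (bar F M V a b) := by
  rcases bar_cases h a b with c | c | c | c | c | c <;>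
  · obtain ⟨-, -, c0, c1, c2⟩ := c
    have q0 := congrArg abs c0
    have q1 := congrArg abs c1
    have q2 := congrArg abs c2
    rw [abs_pm h.1 (by linarith)] at q0
    rw [abs_pm h.2.1 (by linarith)] at q1
    rw [abs_pm h.2.2.1 (by linarith)] at q2
    refine ⟨fun i => ?_, ?_⟩
    · fin_cases i
      · exact q0.trans_le (by linarith)
      · exact q1.trans_le (by linarith)
      · exact q2.trans_le (by linarith)
    · first
        | exact ⟨0, q0⟩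
        | exact ⟨1, q1⟩
        | exact ⟨2, q2⟩

lemma sign_exists (t : ℝ) : ∃ v : ℤ, pm v ∧ t = v * |t| := by
  rcases le_total 0 t with h | h
  · exact ⟨1, Or.inl rfl, by simp [abs_of_nonneg h]⟩
  · exact ⟨-1, Or.inr rfl, by simp [abs_of_nonpos h]⟩

lemma bar_onto {w : Space} (h : Surf w) : ∃ F M V : Z3, flagOK F M V ∧ ∃ a b : ℝ,
    0 ≤ a ∧ 0 ≤ b ∧ a + b ≤ 1 ∧ bar F M V a b = w := by
  obtain ⟨v0, p0, e0⟩ := sign_exists (w 0)
  obtain ⟨v1, p1, e1⟩ := sign_exists (w 1)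
  obtain ⟨v2, p2, e2⟩ := sign_exists (w 2)
  obtain ⟨hb, i, hi⟩ := h
  have b0 := hb 0
  have b1 := hb 1
  have b2 := hb 2
  have key : ∀ (F M : Z3) (a b : ℝ), (F, M) ∈ pats (v0, v1, v2) → 0 ≤ a → a ≤ b → b ≤ 1 →
      bar F M (v0, v1, v2) a (1 - b) = w → ∃ F M V : Z3, flagOK F M V ∧ ∃ a b : ℝ,
        0 ≤ a ∧ 0 ≤ b ∧ a + b ≤ 1 ∧ bar F M V a b = w := fun F M a b h1 h2 h3 h4 h5 =>
    ⟨F, M, _, ⟨p0, p1, p2, h1⟩, a, 1 - b, h2, by linarith, by linarith, h5⟩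
  fin_cases i
  · have hi : |w 0| = 1 := hi
    rw [hi] at e0
    rcases le_total |w 1| |w 2| with c | c
    · refine key (v0, 0, 0) (v0, 0, v2) |w 1| |w 2| (by simp [pats]) (abs_nonneg _) c b2 ?_
      ext j; fin_cases j <;> simp [bar, toSp] <;> linarith
    · refine key (v0, 0, 0) (v0, v1, 0) |w 2| |w 1| (by simp [pats]) (abs_nonneg _) c b1 ?_
      ext j; fin_cases j <;> simp [bar, toSp] <;> linarith
  · have hi : |w 1| = 1 := hi
    rw [hi] at e1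
    rcases le_total |w 0| |w 2| with c | c
    · refine key (0, v1, 0) (0, v1, v2) |w 0| |w 2| (by simp [pats]) (abs_nonneg _) c b2 ?_
      ext j; fin_cases j <;> simp [bar, toSp] <;> linarith
    · refine key (0, v1, 0) (v0, v1, 0) |w 2| |w 0| (by simp [pats]) (abs_nonneg _) c b0 ?_
      ext j; fin_cases j <;> simp [bar, toSp] <;> linarith
  · have hi : |w 2| = 1 := hi
    rw [hi] at e2
    rcases le_total |w 0| |w 1| with c | c
    · refine key (0, 0, v2) (0, v1, v2) |w 0| |w 1| (by simp [pats]) (abs_nonneg _) c b1 ?_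
      ext j; fin_cases j <;> simp [bar, toSp] <;> linarith
    · refine key (0, 0, v2) (v0, 0, v2) |w 1| |w 0| (by simp [pats]) (abs_nonneg _) c b0 ?_
      ext j; fin_cases j <;> simp [bar, toSp] <;> linarith

end Pool.Agent.Lib.RC68
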