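import Pool.Agent.Lib.RC68.Flag

set_option autoImplicit false

namespace Pool.Agent.Lib.RC68

open Pool.Agent.Lib.MP_ea7ca7_co

/-- the point of the square `c` with weight `|a|` at a corner of the diagonal `ε` and weight `|b|`
at a corner of the other diagonal -/
noncomputable def pt (c : ℤ × ℤ) (ε : ℤ) (a b : ℝ) : Plane :=
  !₂[c.1 + (1 + a + b) / 2, c.2 + (1 + ε * a - ε * b) / 2]

def pV (c : ℤ × ℤ) (ε σ : ℤ) : ℤ × ℤ := (c.1 + (1 + σ) / 2, c.2 + (1 + ε * σ) / 2)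

def pF (c : ℤ × ℤ) (ε τ : ℤ) : ℤ × ℤ := (c.1 + (1 + τ) / 2, c.2 + (1 - ε * τ) / 2)

lemma pt0 (c : ℤ × ℤ) (ε : ℤ) (a b : ℝ) : pt c ε a b 0 = c.1 + (1 + a + b) / 2 := rfl

lemma pt1 (c : ℤ × ℤ) (ε : ℤ) (a b : ℝ) : pt c ε a b 1 = c.2 + (1 + ε * a - ε * b) / 2 := rfl

noncomputable def hat (p : ℤ × ℤ) (x : Plane) : ℝ := max 0 (1 - |x 0 - p.1| - |x 1 - p.2|)

noncomputable def ctr (c : ℤ × ℤ) (x : Plane) : ℝ :=
  max 0 (1 - max |2 * x 0 - 2 * c.1 - 1| |2 * x 1 - 2 * c.2 - 1|)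

section
variable {c : ℤ × ℤ} {ε σ τ : ℤ} {a b : ℝ}

lemma pt_mem (hε : pm ε) (hσ : pm σ) (hτ : pm τ) (ha : 0 ≤ a) (hb : 0 ≤ b) (hab : a + b ≤ 1) :
    pt c ε (σ * a) (τ * b) ∈ unitSquare c := by
  simp only [unitSquare, Set.mem_ofPred_eq, pt0, pt1]
  rcases hε with rfl | rfl <;> rcases hσ with rfl | rfl <;> rcases hτ with rfl | rfl <;>
    push_cast <;> refine ⟨?_, ?_, ?_, ?_⟩ <;> linarith

lemma mx {P Q t : ℝ} (ht : 0 ≤ t) (h : |P| + |Q| = 1 - t) : max 0 (1 - |P| - |Q|) = t := by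
  rw [max_eq_right (by linarith)]; linarith

lemma hat_V (hε : pm ε) (hσ : pm σ) (hτ : pm τ) (ha : 0 ≤ a) (hb : 0 ≤ b) (hab : a + b ≤ 1) :
    hat (pV c ε σ) (pt c ε (σ * a) (τ * b)) = a := by
  simp only [hat, pt0, pt1, pV]
  apply mx ha
  rcases hε with rfl | rfl <;> rcases hσ with rfl | rfl <;> rcases hτ with rfl | rfl <;>
    norm_num <;>
    first
      | (rw [abs_of_nonneg (by linarith), abs_of_nonneg (by linarith)]; linarith)
      | (rw [abs_of_nonneg (by linarith), abs_of_nonpos (by linarith)]; linarith)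
      | (rw [abs_of_nonpos (by linarith), abs_of_nonneg (by linarith)]; linarith)
      | (rw [abs_of_nonpos (by linarith), abs_of_nonpos (by linarith)]; linarith)

lemma hat_F (hε : pm ε) (hσ : pm σ) (hτ : pm τ) (ha : 0 ≤ a) (hb : 0 ≤ b) (hab : a + b ≤ 1) :
    hat (pF c ε τ) (pt c ε (σ * a) (τ * b)) = b := by
  simp only [hat, pt0, pt1, pF]
  apply mx hb
  rcases hε with rfl | rfl <;> rcases hσ with rfl | rfl <;> rcases hτ with rfl | rfl <;>
    norm_num <;>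
    first
      | (rw [abs_of_nonneg (by linarith), abs_of_nonneg (by linarith)]; linarith)
      | (rw [abs_of_nonneg (by linarith), abs_of_nonpos (by linarith)]; linarith)
      | (rw [abs_of_nonpos (by linarith), abs_of_nonneg (by linarith)]; linarith)
      | (rw [abs_of_nonpos (by linarith), abs_of_nonpos (by linarith)]; linarith)

lemma hat_zero (hε : pm ε) (hσ : pm σ) (hτ : pm τ) (ha : 0 ≤ a) (hb : 0 ≤ b) (hab : a + b ≤ 1)
    (p : ℤ × ℤ) (h1 : p ≠ pV c ε σ) (h2 : p ≠ pF c ε τ) :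
    hat p (pt c ε (σ * a) (τ * b)) = 0 := by
  obtain ⟨x1, x2, x3, x4⟩ := pt_mem (c := c) hε hσ hτ ha hb hab
  unfold hat
  apply max_eq_left
  have u1 := le_abs_self (pt c ε (σ * a) (τ * b) 0 - p.1)
  have u2 := neg_abs_le (pt c ε (σ * a) (τ * b) 0 - p.1)
  have u3 := le_abs_self (pt c ε (σ * a) (τ * b) 1 - p.2)
  have u4 := neg_abs_le (pt c ε (σ * a) (τ * b) 1 - p.2)
  have u5 := abs_nonneg (pt c ε (σ * a) (τ * b) 0 - p.1)
  have u6 := abs_nonneg (pt c ε (σ * a) (τ * b) 1 - p.2)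
  by_cases q1 : p.1 + 1 ≤ c.1
  · have : (p.1 : ℝ) + 1 ≤ c.1 := by exact_mod_cast q1
    linarith
  by_cases q2 : c.1 + 2 ≤ p.1
  · have : (c.1 : ℝ) + 2 ≤ p.1 := by exact_mod_cast q2
    linarith
  by_cases q3 : p.2 + 1 ≤ c.2
  · have : (p.2 : ℝ) + 1 ≤ c.2 := by exact_mod_cast q3
    linarith
  by_cases q4 : c.2 + 2 ≤ p.2
  · have : (c.2 : ℝ) + 2 ≤ p.2 := by exact_mod_cast q4
    linarith
  obtain ⟨p1, p2⟩ := p
  simp only [pV, pF, ne_eq, Prod.mk.injEq, pt0, pt1] at *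
  generalize |(c.1 : ℝ) + (1 + σ * a + τ * b) / 2 - p1| = A at *
  generalize |(c.2 : ℝ) + (1 + ε * (σ * a) - ε * (τ * b)) / 2 - p2| = B at *
  have e1 : p1 = c.1 ∨ p1 = c.1 + 1 := by omega
  have e2 : p2 = c.2 ∨ p2 = c.2 + 1 := by omega
  rcases e1 with rfl | rfl <;> rcases e2 with rfl | rfl <;>
  rcases hε with rfl | rfl <;> rcases hσ with rfl | rfl <;> rcases hτ with rfl | rfl <;>
    first
      | (exfalso; omega)
      | (push_cast at *; linarith)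

lemma ctr_self (hε : pm ε) (hσ : pm σ) (hτ : pm τ) (ha : 0 ≤ a) (hb : 0 ≤ b) (hab : a + b ≤ 1) :
    ctr c (pt c ε (σ * a) (τ * b)) = 1 - a - b := by
  have key : max |2 * pt c ε (σ * a) (τ * b) 0 - 2 * c.1 - 1|
      |2 * pt c ε (σ * a) (τ * b) 1 - 2 * c.2 - 1| = a + b := by
    have e0 : 2 * pt c ε (σ * a) (τ * b) 0 - 2 * c.1 - 1 = σ * a + τ * b := by rw [pt0]; ring
    have e1 : 2 * pt c ε (σ * a) (τ * b) 1 - 2 * c.2 - 1 = ε * (σ * a - τ * b) := by rw [pt1]; ring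
    rw [e0, e1]
    apply le_antisymm
    · rcases hε with rfl | rfl <;> rcases hσ with rfl | rfl <;> rcases hτ with rfl | rfl <;>
        push_cast <;> refine max_le (abs_le.2 ⟨?_, ?_⟩) (abs_le.2 ⟨?_, ?_⟩) <;> linarith
    · rw [le_max_iff, le_abs, le_abs]
      rcases hε with rfl | rfl <;> rcases hσ with rfl | rfl <;> rcases hτ with rfl | rfl <;>
        push_cast <;>
        first
          | exact Or.inl (Or.inl (by linarith))
          | exact Or.inl (Or.inr (by linarith))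
          | exact Or.inr (Or.inl (by linarith))
          | exact Or.inr (Or.inr (by linarith))
  unfold ctr
  rw [key, max_eq_right (by linarith)]
  ring

lemma ctr_zero {x : Plane} (hx : x ∈ unitSquare c) (d : ℤ × ℤ) (h : d ≠ c) : ctr d x = 0 := by
  obtain ⟨x1, x2, x3, x4⟩ := hx
  unfold ctr
  apply max_eq_left
  rw [sub_nonpos, le_max_iff, le_abs, le_abs]
  have : d.1 + 1 ≤ c.1 ∨ c.1 + 1 ≤ d.1 ∨ d.2 + 1 ≤ c.2 ∨ c.2 + 1 ≤ d.2 := by
    by_contra hn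
    exact h (Prod.ext (by omega) (by omega))
  rcases this with q | q | q | q
  · have : (d.1 : ℝ) + 1 ≤ c.1 := by exact_mod_cast q
    exact Or.inl (Or.inl (by linarith))
  · have : (c.1 : ℝ) + 1 ≤ d.1 := by exact_mod_cast q
    exact Or.inl (Or.inr (by linarith))
  · have : (d.2 : ℝ) + 1 ≤ c.2 := by exact_mod_cast q
    exact Or.inr (Or.inl (by linarith))
  · have : (c.2 : ℝ) + 1 ≤ d.2 := by exact_mod_cast q
    exact Or.inr (Or.inr (by linarith))

lemma pV_ne_pF (hε : pm ε) (hσ : pm σ) (hτ : pm τ) : pV c ε σ ≠ pF c ε τ := by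
  simp only [pV, pF, ne_eq, Prod.mk.injEq]
  rcases hε with rfl | rfl <;> rcases hσ with rfl | rfl <;> rcases hτ with rfl | rfl <;> omega

lemma sq_cover (hε : pm ε) {x : Plane} (hx : x ∈ unitSquare c) : ∃ σ τ : ℤ, pm σ ∧ pm τ ∧
    ∃ a b : ℝ, 0 ≤ a ∧ 0 ≤ b ∧ a + b ≤ 1 ∧ x = pt c ε (σ * a) (τ * b) := by
  obtain ⟨x1, x2, x3, x4⟩ := hx
  obtain ⟨σ, p, e⟩ := sign_exists ((x 0 - c.1 - 1 / 2) + ε * (x 1 - c.2 - 1 / 2))
  obtain ⟨τ, q, e'⟩ := sign_exists ((x 0 - c.1 - 1 / 2) - ε * (x 1 - c.2 - 1 / 2))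
  refine ⟨σ, τ, p, q, _, _, abs_nonneg ((x 0 - c.1 - 1 / 2) + ε * (x 1 - c.2 - 1 / 2)),
    abs_nonneg ((x 0 - c.1 - 1 / 2) - ε * (x 1 - c.2 - 1 / 2)), ?_, ?_⟩
  · rcases abs_cases ((x 0 - c.1 - 1 / 2) + ε * (x 1 - c.2 - 1 / 2)) with r | r <;>
    rcases abs_cases ((x 0 - c.1 - 1 / 2) - ε * (x 1 - c.2 - 1 / 2)) with r' | r' <;>
    rw [r.1, r'.1] <;> rcases hε with rfl | rfl <;> push_cast <;> linarith
  · rw [← e, ← e']
    ext i
    fin_cases i
    · show x 0 = pt c ε _ _ 0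
      rw [pt0]; ring
    · show x 1 = pt c ε _ _ 1
      rw [pt1]
      rcases hε with rfl | rfl <;> push_cast <;> ring

/-- the triangle with corners the centre of `c` and two consecutive corners -/
def tri (c : ℤ × ℤ) (ε σ τ : ℤ) : Set Plane :=
  {x | ∃ a b : ℝ, 0 ≤ a ∧ 0 ≤ b ∧ a + b ≤ 1 ∧ x = pt c ε (σ * a) (τ * b)}

open Classical in
noncomputable def triV (c : ℤ × ℤ) (ε σ τ : ℤ) : Finset Plane :=
  {pt c ε 0 0, pt c ε σ 0, pt c ε 0 τ}

lemma hull_tri (c : ℤ × ℤ) (ε σ τ : ℤ) : convexHull ℝ (triV c ε σ τ : Set Plane) = tri c ε σ τ := by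
  classical
  apply le_antisymm
  · apply convexHull_min
    · intro p hp
      simp only [triV, Finset.coe_insert, Finset.coe_singleton, Set.mem_insert_iff,
        Set.mem_singleton_iff] at hp
      rcases hp with rfl | rfl | rfl
      · exact ⟨0, 0, le_rfl, le_rfl, by norm_num, by simp⟩
      · exact ⟨1, 0, by norm_num, le_rfl, by norm_num, by simp⟩
      · exact ⟨0, 1, le_rfl, by norm_num, by norm_num, by simp⟩
    · rintro _ ⟨a, b, h1, h2, h3, rfl⟩ _ ⟨a', b', k1, k2, k3, rfl⟩ s t hs ht hst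
      refine ⟨s * a + t * a', s * b + t * b', by positivity, by positivity, by nlinarith, ?_⟩
      have e : t = 1 - s := by linarith
      subst e
      ext i
      fin_cases i <;> simp [pt] <;> ring
  · rintro _ ⟨a, b, h1, h2, h3, rfl⟩
    have m : ∀ p ∈ triV c ε σ τ, p ∈ convexHull ℝ (triV c ε σ τ : Set Plane) :=
      fun p hp => subset_convexHull ℝ _ hp
    have := (convex_convexHull ℝ (triV c ε σ τ : Set Plane)).sum_mem (t := Finset.univ)
      (w := ![1 - a - b, a, b]) (z := ![pt c ε 0 0, pt c ε σ 0, pt c ε 0 τ])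
      (fun i _ => by fin_cases i <;> simp <;> linarith) (by simp [Fin.sum_univ_three]; ring)
      (fun i _ => by fin_cases i <;> exact m _ (by simp [triV]))
    have e : pt c ε (σ * a) (τ * b) = ∑ i, (![1 - a - b, a, b] : Fin 3 → ℝ) i •
        (![pt c ε 0 0, pt c ε σ 0, pt c ε 0 τ] : Fin 3 → Plane) i := by
      ext i
      fin_cases i <;> simp [pt, Fin.sum_univ_three] <;> ring
    rw [e]
    exact this

lemma pt_edge (hε : pm ε) (hσ : pm σ) (hτ : pm τ) (hab : a + b = 1) :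
    pt c ε (σ * a) (τ * b) 0 = a * (pV c ε σ).1 + b * (pF c ε τ).1 ∧
    pt c ε (σ * a) (τ * b) 1 = a * (pV c ε σ).2 + b * (pF c ε τ).2 := by
  have e : b = 1 - a := by linarith
  subst e
  simp only [pt0, pt1, pV, pF]
  rcases hε with rfl | rfl <;> rcases hσ with rfl | rfl <;> rcases hτ with rfl | rfl <;>
    norm_num <;> constructor <;> ring

/-- the square on the other side of the edge joining the two corners -/
def nb (c : ℤ × ℤ) (ε σ τ : ℤ) : ℤ × ℤ :=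
  ((pV c ε σ).1 + (pF c ε τ).1 - c.1 - 1, (pV c ε σ).2 + (pF c ε τ).2 - c.2 - 1)

lemma nb_mem (hε : pm ε) (hσ : pm σ) (hτ : pm τ) (ha : 0 ≤ a) (hb : 0 ≤ b) (hab : a + b = 1) :
    pt c ε (σ * a) (τ * b) ∈ unitSquare (nb c ε σ τ) := by
  simp only [unitSquare, Set.mem_ofPred_eq, pt0, pt1, nb, pV, pF]
  rcases hε with rfl | rfl <;> rcases hσ with rfl | rfl <;> rcases hτ with rfl | rfl <;>
    norm_num <;> refine ⟨?_, ?_, ?_, ?_⟩ <;> linarith

end

end Pool.Agent.Lib.RC68
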