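import Pool.Agent.Lib.RC68.Hat

set_option autoImplicit false

namespace Pool.Agent.Lib.RC68

open Pool.Agent.Lib.MP_ea7ca7_co

/-- a square, the diagonal that is creased, and the midpoint of the cube edge it is sent to -/
abbrev En := (ℤ × ℤ) × ℤ × Z3

def sgn : List ℤ := [1, -1]

lemma mem_sgn {a : ℤ} : a ∈ sgn ↔ pm a := by simp [sgn, pm]

def four (C : List (ℤ × ℤ)) (p : ℤ × ℤ) : Prop :=
  (p.1 - 1, p.2 - 1) ∈ C ∧ (p.1, p.2 - 1) ∈ C ∧ (p.1 - 1, p.2) ∈ C ∧ p ∈ C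

instance (C : List (ℤ × ℤ)) (p : ℤ × ℤ) : Decidable (four C p) := by unfold four; infer_instance

/-- certificate that the squares of `L` fold to the cube of edge `√2` -/
def skewOK (φ : ℤ × ℤ → Z3) (L : List En) : Prop :=
  (∀ e ∈ L, pm e.2.1 ∧ ∀ σ ∈ sgn, ∀ τ ∈ sgn,
    flagOK (φ (pF e.1 e.2.1 τ)) e.2.2 (φ (pV e.1 e.2.1 σ))) ∧
  (∀ x ∈ sgn, ∀ y ∈ sgn, ∀ z ∈ sgn, ∀ q ∈ pats (x, y, z), ∃ e ∈ L, e.2.2 = q.2 ∧
    (∃ σ ∈ sgn, φ (pV e.1 e.2.1 σ) = (x, y, z)) ∧ ∃ τ ∈ sgn, φ (pF e.1 e.2.1 τ) = q.1) ∧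
  (∀ e ∈ L, ∀ e' ∈ L, e.1 = e'.1 ∨ e.2.2 = e'.2.2 → e = e') ∧
  (∀ e ∈ L, φ (pV e.1 e.2.1 1) ≠ φ (pV e.1 e.2.1 (-1)) ∧ φ (pF e.1 e.2.1 1) ≠ φ (pF e.1 e.2.1 (-1))) ∧
  (∀ e ∈ L, ∀ σ ∈ sgn, ∀ τ ∈ sgn, nb e.1 e.2.1 σ τ ∈ L.map Prod.fst → ∀ e' ∈ L, ∀ σ' ∈ sgn,
    φ (pV e.1 e.2.1 σ) = φ (pV e'.1 e'.2.1 σ') → ∀ τ' ∈ sgn,
    φ (pF e.1 e.2.1 τ) = φ (pF e'.1 e'.2.1 τ') →
    pV e.1 e.2.1 σ = pV e'.1 e'.2.1 σ' ∧ pF e.1 e.2.1 τ = pF e'.1 e'.2.1 τ') ∧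
  (∀ e ∈ L, ∀ τ ∈ sgn, four (L.map Prod.fst) (pF e.1 e.2.1 τ) → ∀ e' ∈ L, ∀ τ' ∈ sgn,
    φ (pF e.1 e.2.1 τ) = φ (pF e'.1 e'.2.1 τ') → pF e.1 e.2.1 τ = pF e'.1 e'.2.1 τ') ∧
  (∀ e ∈ L, ∀ σ ∈ sgn, ¬ four (L.map Prod.fst) (pV e.1 e.2.1 σ))

set_option synthInstance.maxSize 4000 in
instance (φ : ℤ × ℤ → Z3) (L : List En) : Decidable (skewOK φ L) := by
  unfold skewOK; infer_instance

def verts (L : List En) : Finset (ℤ × ℤ) :=
  L.toFinset.biUnion fun e => {e.1, (e.1.1 + 1, e.1.2), (e.1.1, e.1.2 + 1), (e.1.1 + 1, e.1.2 + 1)}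

noncomputable def pl (φ : ℤ × ℤ → Z3) (L : List En) (x : Plane) : Space :=
  ∑ e ∈ L.toFinset, ctr e.1 x • toSp e.2.2 + ∑ p ∈ verts L, hat p x • toSp (φ p)

lemma pl_cont (φ : ℤ × ℤ → Z3) (L : List En) : Continuous (pl φ L) := by
  unfold pl ctr hat
  fun_prop

lemma pl_eq {φ : ℤ × ℤ → Z3} {L : List En} (hu : ∀ e ∈ L, ∀ e' ∈ L, e.1 = e'.1 → e = e')
    {e : En} (he : e ∈ L) (hε : pm e.2.1) {σ τ : ℤ} (hσ : pm σ) (hτ : pm τ) {a b : ℝ}
    (ha : 0 ≤ a) (hb : 0 ≤ b) (hab : a + b ≤ 1) :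
    pl φ L (pt e.1 e.2.1 (σ * a) (τ * b)) =
      bar (φ (pF e.1 e.2.1 τ)) e.2.2 (φ (pV e.1 e.2.1 σ)) a b := by
  have m1 : pV e.1 e.2.1 σ ∈ verts L := by
    simp only [verts, Finset.mem_biUnion, List.mem_toFinset]
    refine ⟨e, he, ?_⟩
    simp only [pV, Finset.mem_insert, Finset.mem_singleton, Prod.ext_iff]
    rcases hε with h | h <;> rcases hσ with rfl | rfl <;> rw [h] <;> omega
  have m2 : pF e.1 e.2.1 τ ∈ verts L := by
    simp only [verts, Finset.mem_biUnion, List.mem_toFinset]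
    refine ⟨e, he, ?_⟩
    simp only [pF, Finset.mem_insert, Finset.mem_singleton, Prod.ext_iff]
    rcases hε with h | h <;> rcases hτ with rfl | rfl <;> rw [h] <;> omega
  unfold pl bar
  rw [Finset.sum_eq_single_of_mem e (List.mem_toFinset.2 he), Finset.sum_eq_add_of_mem _ _ m1 m2
    (pV_ne_pF hε hσ hτ), ctr_self hε hσ hτ ha hb hab, hat_V hε hσ hτ ha hb hab,
    hat_F hε hσ hτ ha hb hab, add_assoc]
  · intro p _ hp
    rw [hat_zero hε hσ hτ ha hb hab p hp.1 hp.2, zero_smul]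
  · intro e' he' hne
    rw [ctr_zero (pt_mem hε hσ hτ ha hb hab) _
      (fun h => hne (hu e' (List.mem_toFinset.1 he') e he h)), zero_smul]

noncomputable def up (w : Space) : Space := (√2 / 2) • (toSp (1, 1, 1) + w)

lemma up_apply (w : Space) (i : Fin 3) : up w i = √2 / 2 * (1 + w i) := by
  fin_cases i <;> simp [up, toSp] <;> ring

lemma up_mem (w : Space) : up w ∈ cubeSurface (√2) ↔ Surf w := by
  have h : (0 : ℝ) < √2 := by positivity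
  simp only [cubeSurface, Set.mem_ofPred_eq, up_apply, Surf]
  refine and_congr (forall_congr' fun i => ?_) (exists_congr fun i => ?_)
  · rw [abs_le]
    constructor <;> rintro ⟨h1, h2⟩ <;> constructor <;> nlinarith
  · rw [abs_eq zero_le_one]
    constructor
    · rintro (h1 | h1)
      · right; nlinarith
      · left; nlinarith
    · rintro (h1 | h1) <;> rw [h1]
      · right; ring
      · left; ring

lemma up_inj {w w' : Space} (h : up w = up w') : w = w' := by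
  have h2 : (√2 / 2 : ℝ) ≠ 0 := by positivity
  exact add_left_cancel (smul_right_injective _ h2 h)

lemma up_surj (z : Space) : ∃ w, up w = z := by
  have h2 : (√2 / 2 : ℝ) ≠ 0 := by positivity
  exact ⟨(√2 / 2)⁻¹ • z - toSp (1, 1, 1), by
    rw [up, add_sub_cancel, smul_smul, mul_inv_cancel₀ h2, one_smul]⟩

lemma four_of {C : List (ℤ × ℤ)} {x : Plane} (hx : x ∈ interior (region C.toFinset)) {p : ℤ × ℤ}
    (h0 : x 0 = p.1) (h1 : x 1 = p.2) : four C p := by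
  have k : ∀ c : ℤ × ℤ, x ∈ unitSquare c → c ∈ C := fun c hc =>
    List.mem_toFinset.1 (mem_of_interior _ x hx c hc)
  refine ⟨k _ ?_, k _ ?_, k _ ?_, k _ ?_⟩ <;>
    simp only [unitSquare, Set.mem_ofPred_eq, h0, h1] <;> push_cast <;>
    refine ⟨?_, ?_, ?_, ?_⟩ <;> linarith

lemma pm_eq {φ : ℤ → Z3} (h : φ 1 ≠ φ (-1)) {σ σ' : ℤ} (hσ : pm σ) (hσ' : pm σ') {a : ℝ}
    (ha : 0 ≤ a) (e : 0 < a → φ σ = φ σ') : (σ : ℝ) * a = σ' * a := by
  rcases ha.eq_or_lt with rfl | ha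
  · simp
  · rcases hσ with rfl | rfl <;> rcases hσ' with rfl | rfl
    · rfl
    · exact absurd (e ha) h
    · exact absurd (e ha).symm h
    · rfl

theorem skew_folds {φ : ℤ × ℤ → Z3} {L : List En} (h : skewOK φ L) :
    FoldsToCube (region (L.map Prod.fst).toFinset) (√2) := by
  classical
  obtain ⟨hok, honto, huq, hne, hedge, hface, hvert⟩ := h
  have hu : ∀ e ∈ L, ∀ e' ∈ L, e.1 = e'.1 → e = e' := fun e he e' he' q =>
    huq e he e' he' (Or.inl q)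
  have hfl : ∀ e ∈ L, ∀ σ τ, pm σ → pm τ →
      flagOK (φ (pF e.1 e.2.1 τ)) e.2.2 (φ (pV e.1 e.2.1 σ)) := fun e he σ τ h1 h2 =>
    (hok e he).2 σ (mem_sgn.2 h1) τ (mem_sgn.2 h2)
  have hreg : ∀ x, x ∈ region (L.map Prod.fst).toFinset ↔ ∃ e ∈ L, ∃ σ τ : ℤ, pm σ ∧ pm τ ∧
      x ∈ tri e.1 e.2.1 σ τ := by
    intro x
    simp only [region, Set.mem_iUnion, exists_prop, List.mem_toFinset, List.mem_map]
    constructor
    · rintro ⟨_, ⟨e, he, rfl⟩, hx⟩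
      obtain ⟨σ, τ, p, q, r⟩ := sq_cover (hok e he).1 hx
      exact ⟨e, he, σ, τ, p, q, r⟩
    · rintro ⟨e, he, σ, τ, p, q, a, b, h1, h2, h3, rfl⟩
      exact ⟨_, ⟨e, he, rfl⟩, pt_mem (hok e he).1 p q h1 h2 h3⟩
  refine ⟨fun x => up (pl φ L x), (L.toFinset ×ˢ sgn.toFinset ×ˢ sgn.toFinset).image
    fun t => triV t.1.1 t.1.2.1 t.2.1 t.2.2, ?_, ?_, ?_, ?_, ?_⟩
  · have := pl_cont φ L
    unfold up
    fun_prop
  · rw [Finset.set_biUnion_finset_image]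
    ext x
    simp only [hull_tri, hreg, Set.mem_iUnion, exists_prop, Finset.mem_product, List.mem_toFinset,
      mem_sgn]
    constructor
    · rintro ⟨t, ⟨h1, h2, h3⟩, h4⟩
      exact ⟨t.1, h1, _, _, h2, h3, h4⟩
    · rintro ⟨e, he, σ, τ, p, q, r⟩
      exact ⟨(e, σ, τ), ⟨he, p, q⟩, r⟩
  · intro V hV
    obtain ⟨⟨e, σ, τ⟩, ht, rfl⟩ := Finset.mem_image.1 hV
    simp only [Finset.mem_product, List.mem_toFinset, mem_sgn] at ht
    obtain ⟨he, p, q⟩ := ht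
    rw [hull_tri]
    rintro _ ⟨a, b, h1, h2, h3, rfl⟩ _ ⟨a', b', k1, k2, k3, rfl⟩
    simp only
    rw [pl_eq hu he (hok e he).1 p q h1 h2 h3, pl_eq hu he (hok e he).1 p q k1 k2 k3,
      EuclideanSpace.dist_eq, EuclideanSpace.dist_eq]
    congr 1
    simp only [Fin.sum_univ_three, Fin.sum_univ_two, Real.dist_eq, sq_abs, up_apply, pt0, pt1]
    have s := bar_dist (hfl e he σ τ p q) a b a' b'
    have s1 := pm_sq p
    have s2 := pm_sq q
    have s3 := pm_sq (hok e he).1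
    have s4 : √2 ^ 2 = (2 : ℝ) := Real.sq_sqrt (by norm_num)
    generalize bar _ _ _ a b = u at *
    generalize bar _ _ _ a' b' = v at *
    linear_combination (1 / 2 : ℝ) * s +
      ((u 0 - v 0) ^ 2 + (u 1 - v 1) ^ 2 + (u 2 - v 2) ^ 2) / 4 * s4 -
      (σ * (a - a') - τ * (b - b')) ^ 2 / 4 * s3 - (a - a') ^ 2 / 2 * s1 - (b - b') ^ 2 / 2 * s2
  · ext z
    constructor
    · rintro ⟨x, hx, rfl⟩
      obtain ⟨e, he, σ, τ, p, q, a, b, h1, h2, h3, rfl⟩ := (hreg x).1 hx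
      simp only
      rw [pl_eq hu he (hok e he).1 p q h1 h2 h3, up_mem]
      exact bar_into (hfl e he σ τ p q) h1 h2 h3
    · intro hz
      obtain ⟨w, rfl⟩ := up_surj z
      obtain ⟨F, M, V, ⟨v0, v1, v2, hq⟩, a, b, h1, h2, h3, rfl⟩ := bar_onto ((up_mem w).1 hz)
      obtain ⟨e, he, r1, ⟨σ, p, r2⟩, τ, q, r3⟩ := honto _ (mem_sgn.2 v0) _ (mem_sgn.2 v1) _
        (mem_sgn.2 v2) _ hq
      rw [mem_sgn] at p q
      refine ⟨_, (hreg _).2 ⟨e, he, σ, τ, p, q, a, b, h1, h2, h3, rfl⟩, ?_⟩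
      simp only
      rw [pl_eq hu he (hok e he).1 p q h1 h2 h3, r1, r2, r3]
  · intro x hx y hy hxy
    obtain ⟨e, he, σ, τ, p, q, a, b, h1, h2, h3, rfl⟩ := (hreg x).1 (interior_subset hx)
    obtain ⟨e', he', σ', τ', p', q', a', b', k1, k2, k3, rfl⟩ := (hreg y).1 hy
    have hxy := up_inj hxy
    rw [pl_eq hu he (hok e he).1 p q h1 h2 h3, pl_eq hu he' (hok e' he').1 p' q' k1 k2 k3] at hxy
    obtain ⟨rfl, rfl, cV, cF, cM⟩ :=
      bar_uniq (hfl e he σ τ p q) (hfl e' he' σ' τ' p' q') h1 h2 h3 k1 k2 k3 hxy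
    rcases h3.eq_or_lt with h3 | h3
    · obtain ⟨x0, x1⟩ := pt_edge (c := e.1) (hok e he).1 p q h3
      obtain ⟨y0, y1⟩ := pt_edge (c := e'.1) (hok e' he').1 p' q' h3
      have fin : pt e.1 e.2.1 (σ * a) (τ * b) 0 = pt e'.1 e'.2.1 (σ' * a) (τ' * b) 0 ∧
          pt e.1 e.2.1 (σ * a) (τ * b) 1 = pt e'.1 e'.2.1 (σ' * a) (τ' * b) 1 := by
        rcases h1.eq_or_lt with rfl | h1
        · have hb : b = 1 := by linarith
          subst hb
          have := hface e he τ (mem_sgn.2 q) (four_of hx (by rw [x0]; ring) (by rw [x1]; ring))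
            e' he' τ' (mem_sgn.2 q') (cF one_pos)
          rw [x0, x1, y0, y1, this]
          constructor <;> ring
        rcases h2.eq_or_lt with rfl | h2
        · have ha : a = 1 := by linarith
          subst ha
          exact absurd (four_of hx (by rw [x0]; ring) (by rw [x1]; ring)) (hvert e he σ (mem_sgn.2 p))
        · have := hedge e he σ (mem_sgn.2 p) τ (mem_sgn.2 q) (List.mem_toFinset.1
            (mem_of_interior _ _ hx _ (nb_mem (hok e he).1 p q h1.le h2.le h3))) e' he' σ'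
            (mem_sgn.2 p') (cV h1) τ' (mem_sgn.2 q') (cF h2)
          rw [x0, x1, y0, y1, this.1, this.2]
          exact ⟨rfl, rfl⟩
      ext i
      fin_cases i
      · exact fin.1
      · exact fin.2
    · obtain rfl := huq e he e' he' (Or.inr (cM h3))
      rw [pm_eq (φ := fun s => φ (pV e.1 e.2.1 s)) (hne e he).1 p p' h1 cV,
        pm_eq (φ := fun s => φ (pF e.1 e.2.1 s)) (hne e he).2 q q' h2 cF]

end Pool.Agent.Lib.RC68
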