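import Pool.Agent.Lib.MP_ea7ca7_co.Main
import Pool.Agent.Lib.RC68.Skew

set_option autoImplicit false

namespace Pool.Agent.Lib.RC68

open Pool.Agent.Lib.MP_ea7ca7_co

lemma dis_scale {N : Finset (ℤ × ℤ)} {s : ℕ} (hs : 0 < s) {L : List (Finset (ℤ × ℤ))}
    (h : Part (place s 0 N) L) (r : ℕ) (hr : 0 < r) :
    Part (place (s * r) 0 N) (L.map (place r 0)) := by
  refine ⟨?_, fun u => ?_⟩
  · rw [List.pairwise_map]
    exact h.1.imp (disjoint_place r hr _)
  · rw [mem_place _ (Nat.mul_pos hs hr), coarse_mul, ← mem_place s hs, h.2]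
    simp only [List.mem_map]
    constructor
    · rintro ⟨A, hA, hu⟩
      exact ⟨_, ⟨A, hA, rfl⟩, (mem_place r hr _ _ _).2 hu⟩
    · rintro ⟨_, ⟨A, hA, rfl⟩, hu⟩
      exact ⟨A, hA, (mem_place r hr _ _ _).1 hu⟩

lemma dis_union {U V : Finset (ℤ × ℤ)} (hd : Disjoint U V) {k m : ℕ} (hU : Dis U k)
    (hV : Dis V m) : Dis (U ∪ V) (k + m) := by
  obtain ⟨s, hs, L, rfl, hL, nL⟩ := hU
  obtain ⟨r, hr, M, rfl, hM, nM⟩ := hV
  have p1 := dis_scale hs hL r hr
  have p2 := dis_scale hr hM s hs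
  rw [Nat.mul_comm r s] at p2
  have hp := Nat.mul_pos hs hr
  refine ⟨s * r, hp, L.map (place r 0) ++ M.map (place s 0), by simp, ⟨?_, fun u => ?_⟩, ?_⟩
  · rw [List.pairwise_append]
    refine ⟨p1.1, p2.1, fun A hA B hB => ?_⟩
    rw [Finset.disjoint_left]
    intro u h1 h2
    exact Finset.disjoint_left.1 (disjoint_place _ hp 0 hd) ((p1.2 u).2 ⟨A, hA, h1⟩)
      ((p2.2 u).2 ⟨B, hB, h2⟩)
  · rw [mem_place _ hp, Finset.mem_union, ← mem_place _ hp, ← mem_place _ hp, p1.2, p2.2]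
    simp only [List.mem_append, or_and_right, exists_or]
  · intro A hA
    rcases List.mem_append.1 hA with hA | hA <;> obtain ⟨B, hB, rfl⟩ := List.mem_map.1 hA
    · exact (nL B hB).place r hr _
    · exact (nM B hB).place s hs _

lemma dis_shift {N : Finset (ℤ × ℤ)} {k : ℕ} (h : Dis N k) (t : ℤ × ℤ) : Dis (place 1 t N) k := by
  obtain ⟨s, hs, L, rfl, ⟨h1, h2⟩, h3⟩ := h
  refine ⟨s, hs, L.map (place 1 (s * t.1, s * t.2)), by simp, ⟨?_, fun u => ?_⟩, ?_⟩
  · rw [List.pairwise_map]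
    exact h1.imp (disjoint_place 1 one_pos _)
  · rw [mem_place s hs, mem_place 1 one_pos, coarse_swap s hs, ← mem_place s hs, h2]
    simp only [List.mem_map]
    constructor
    · rintro ⟨A, hA, hu⟩
      exact ⟨_, ⟨A, hA, rfl⟩, (mem_place 1 one_pos _ _ _).2 hu⟩
    · rintro ⟨_, ⟨A, hA, rfl⟩, hu⟩
      exact ⟨A, hA, (mem_place 1 one_pos _ _ _).1 hu⟩
  · intro A hA
    obtain ⟨B, hB, rfl⟩ := List.mem_map.1 hA
    exact (h3 B hB).place 1 one_pos _

lemma dis_unscale {N : Finset (ℤ × ℤ)} {r : ℕ} (hr : 0 < r) {k : ℕ} (h : Dis (place r 0 N) k) :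
    Dis N k := by
  obtain ⟨s, hs, L, hl, hL, h3⟩ := h
  refine ⟨r * s, Nat.mul_pos hr hs, L, hl, ⟨hL.1, fun u => ?_⟩, h3⟩
  rw [← hL.2, mem_place _ (Nat.mul_pos hr hs), mem_place s hs, mem_place r hr, coarse_mul]

/-- a shape with an interval of orders -/
abbrev It := List (ℤ × ℤ) × ℕ × ℕ

def Rg (e : It) : Prop := e.2.1 ≤ e.2.2 ∧ ∀ k, e.2.1 ≤ k → k ≤ e.2.2 → Dis e.1.toFinset k

lemma rg_list : ∀ (Cs : List It), (∀ e ∈ Cs, Rg e) →
    (Cs.map Prod.fst).Pairwise (fun A B => ∀ u, u ∈ A → u ∉ B) →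
    ∀ U : Finset (ℤ × ℤ), (∀ u, u ∈ U ↔ ∃ C ∈ Cs.map Prod.fst, u ∈ C) →
    (Cs.map fun e => e.2.1).sum ≤ (Cs.map fun e => e.2.2).sum ∧
    ∀ k, (Cs.map fun e => e.2.1).sum ≤ k → k ≤ (Cs.map fun e => e.2.2).sum → Dis U k
  | [], _, _, U, hU => by
    refine ⟨le_rfl, fun k _ h2 => ?_⟩
    obtain rfl : k = 0 := by simpa using h2
    refine ⟨1, one_pos, [], rfl, ⟨List.Pairwise.nil, fun u => ?_⟩, by simp⟩
    rw [mem_place 1 one_pos, hU]
    simp
  | e :: Cs, h, hp, U, hU => by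
    classical
    rw [List.map_cons, List.pairwise_cons] at hp
    obtain ⟨i1, i2⟩ := rg_list Cs (fun x hx => h x (List.mem_cons_of_mem _ hx)) hp.2
      (Cs.map Prod.fst).flatten.toFinset (by simp only [List.mem_toFinset, List.mem_flatten]; simp)
    obtain ⟨j1, j2⟩ := h e List.mem_cons_self
    simp only [List.map_cons, List.sum_cons]
    refine ⟨by omega, fun k h1 h2 => ?_⟩
    have eU : U = e.1.toFinset ∪ (Cs.map Prod.fst).flatten.toFinset := by
      ext u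
      rw [hU]
      simp only [List.map_cons, List.mem_cons, exists_eq_or_imp, Finset.mem_union,
        List.mem_toFinset, List.mem_flatten]
    have hd : Disjoint e.1.toFinset (Cs.map Prod.fst).flatten.toFinset := by
      rw [Finset.disjoint_left]
      intro u hu hu'
      obtain ⟨B, hB, hb⟩ := List.mem_flatten.1 (List.mem_toFinset.1 hu')
      exact hp.1 B hB u (List.mem_toFinset.1 hu) hb
    have := dis_union hd (j2 (min e.2.2 (k - (Cs.map fun e => e.2.1).sum)) (by omega) (by omega))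
      (i2 (k - min e.2.2 (k - (Cs.map fun e => e.2.1).sum)) (by omega) (by omega))
    rw [← eU, show ∀ a : ℕ, min e.2.2 (k - a) + (k - min e.2.2 (k - a)) = k by omega] at this
    exact this

def shift (t : ℤ × ℤ) (e : It) : It := (cellsOf 1 t e.1, e.2)

lemma rg_shift {e : It} (h : Rg e) (t : ℤ × ℤ) : Rg (shift t e) := by
  refine ⟨h.1, fun k h1 h2 => ?_⟩
  have e1 : (shift t e).1.toFinset = place 1 t e.1.toFinset := by
    ext u
    rw [List.mem_toFinset]
    exact mem_cellsOf _ _ _ _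
  rw [e1]
  exact dis_shift (h.2 k h1 h2) t

/-- the squares of `C`, scaled by `s`, are partitioned into the lists `Cs` -/
def tiled (s : ℕ) (C : List (ℤ × ℤ)) (Cs : List (List (ℤ × ℤ))) : Bool :=
  decide (0 < s) && (cellsOf s 0 C).all inBox && go (mask (cellsOf s 0 C)) 0 Cs

lemma rg_tiled {s : ℕ} {C : List (ℤ × ℤ)} {Cs : List It} (h : ∀ e ∈ Cs, Rg e)
    (ht : tiled s C (Cs.map Prod.fst) = true) :
    Rg (C, (Cs.map fun e => e.2.1).sum, (Cs.map fun e => e.2.2).sum) := by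
  simp only [tiled, Bool.and_eq_true, decide_eq_true_eq] at ht
  obtain ⟨h1, h2⟩ := part_of_go _ _ ht.1.2 ht.2
  obtain ⟨i1, i2⟩ := rg_list Cs h h1 (place s 0 C.toFinset) (fun u => by rw [← mem_cellsOf, h2])
  exact ⟨i1, fun k k1 k2 => dis_unscale ht.1.1 (i2 k k1 k2)⟩

/-- pieces taken from a table -/
def pick (T : List It) (d : List (ℕ × ℤ × ℤ)) : List It :=
  d.map fun p => shift p.2 (T.getD p.1 ([], 0, 0))

lemma rg_nil : Rg ([], 0, 0) :=
  ⟨le_rfl, (rg_list [] (by simp) (by simp) _ (by simp)).2⟩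

lemma rg_pick {T : List It} (hT : ∀ e ∈ T, Rg e) (d : List (ℕ × ℤ × ℤ)) : ∀ e ∈ pick T d, Rg e := by
  intro e he
  obtain ⟨p, -, rfl⟩ := List.mem_map.1 he
  apply rg_shift
  rw [List.getD_eq_getElem?_getD]
  cases h : T[p.1]? with
  | none => exact rg_nil
  | some s => exact hT s (List.mem_of_getElem? h)

/-- a table entry obtained from a tiling: scale, shape, pieces -/
abbrev Job := ℕ × List (ℤ × ℤ) × List (ℕ × ℤ × ℤ)

def Job.ok (T : List It) (j : Job) : Bool := tiled j.1 j.2.1 ((pick T j.2.2).map Prod.fst)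

def Job.lo (T : List It) (j : Job) : ℕ := ((pick T j.2.2).map fun e => e.2.1).sum

def Job.hi (T : List It) (j : Job) : ℕ := ((pick T j.2.2).map fun e => e.2.2).sum

lemma Job.rg {T : List It} (hT : ∀ e ∈ T, Rg e) {j : Job} (h : j.ok T = true) :
    Rg (j.2.1, j.lo T, j.hi T) := rg_tiled (rg_pick hT _) h

lemma rg_one {C : List (ℤ × ℤ)} (h : IsCubeNet C.toFinset) : Rg (C, 1, 1) :=
  ⟨le_rfl, fun k h1 h2 => by
    obtain rfl : k = 1 := le_antisymm h2 h1
    exact Dis.one _ h⟩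

/-- a net that is tiled by two pieces -/
lemma rg_two {C : List (ℤ × ℤ)} {n : ℕ} (h : Rg (C, 1, 1)) (h2 : Rg (C, 2, n)) : Rg (C, 1, n) := by
  have := h2.1
  simp only at this
  refine ⟨by simp only; omega, fun k k1 k2 => ?_⟩
  simp only at k1 k2
  by_cases e : k = 1
  · exact h.2 k (by simp only; omega) (by simp only; omega)
  · exact h2.2 k (by simp only; omega) k2

/-- next table: nets of the table `T` (index `p.1`) tiled by two pieces of `T` -/
def next (T : List It) (J : List (ℕ × ℕ × List (ℕ × ℤ × ℤ))) : List It :=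
  J.map fun p => ((T.getD p.1 ([], 0, 0)).1, 1, Job.hi T (p.2.1, [], p.2.2))

def nextOK (T : List It) (J : List (ℕ × ℕ × List (ℕ × ℤ × ℤ))) : Bool :=
  J.all fun p => (T.getD p.1 ([], 0, 0)).2 == (1, 1) && Job.lo T (p.2.1, [], p.2.2) == 2 &&
    Job.ok T (p.2.1, (T.getD p.1 ([], 0, 0)).1, p.2.2)

lemma rg_next {T : List It} (hT : ∀ e ∈ T, Rg e) {J : List (ℕ × ℕ × List (ℕ × ℤ × ℤ))}
    (h : nextOK T J = true) : ∀ e ∈ T ++ next T J, Rg e := by
  intro e he
  rcases List.mem_append.1 he with he | he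
  · exact hT e he
  obtain ⟨p, hp, rfl⟩ := List.mem_map.1 he
  have := List.all_eq_true.1 h p hp
  simp only [Bool.and_eq_true, beq_iff_eq] at this
  obtain ⟨⟨h1, h2⟩, h3⟩ := this
  have a : Rg (T.getD p.1 ([], 0, 0)) := by
    rw [List.getD_eq_getElem?_getD]
    cases h : T[p.1]? with
    | none => exact rg_nil
    | some s => exact hT s (List.mem_of_getElem? h)
  have b := Job.rg hT h3
  refine rg_two (by rw [← h1]; exact a) ?_
  rw [← h2]
  exact b

/-- a net of the cube of edge `√2` with its certificate -/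
abbrev Sk := ℕ × ℕ × List En × List ((ℤ × ℤ) × Z3) × List (ℤ × ℤ)

def Sk.cells (s : Sk) : List (ℤ × ℤ) := s.2.2.1.map Prod.fst

def Sk.ok (s : Sk) : Prop :=
  skewOK (fun p => (s.2.2.2.1.lookup p).getD (0, 0, 0)) s.2.2.1 ∧ polyOK s.1 s.2.1 s.cells s.2.2.2.2

instance (s : Sk) : Decidable s.ok := by unfold Sk.ok; infer_instance

lemma Sk.net {s : Sk} (h : s.ok) : IsCubeNet s.cells.toFinset :=
  ⟨poly_of_ok _ _ _ _ h.2, √2, by positivity, skew_folds h.1⟩

/-- table lookup used to check injectivity in linear time -/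
def getT (tab : ℕ) (w : Z3) : ℕ := (tab >>> (12 * (w.1 + 16 * w.2.1 + 256 * w.2.2).toNat)) % 4096

def fastOK (tab l : ℕ) (L : List Tile) : Prop :=
  (∀ e ∈ L, e.2.ok ∧ intoOK l e.1 e.2) ∧
  (∀ w ∈ centres l, ∃ e ∈ L, e.2.dbl (2 * e.1.1 + 1, 2 * e.1.2 + 1) = w) ∧
  (∀ e ∈ L, ∀ e' ∈ L, (e.1.1 - e'.1.1).natAbs ≤ 1 → (e.1.2 - e'.1.2).natAbs ≤ 1 →
    ∀ u ∈ cl9 e.1, inCl e'.1 u → e.2.dbl u = e'.2.dbl u) ∧
  (∀ e ∈ L, ∀ u ∈ cl9 e.1, if getT tab (e.2.dbl u) = 0 then ¬ inner (L.map Prod.fst) u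
    else u = (((getT tab (e.2.dbl u) % 64 : ℕ) : ℤ), ((getT tab (e.2.dbl u) / 64 : ℕ) : ℤ)))

instance (tab l : ℕ) (L : List Tile) : Decidable (fastOK tab l L) := by
  unfold fastOK; infer_instance

lemma inCl_of_mem {c u : ℤ × ℤ} (h : u ∈ cl9 c) : inCl c u := by
  simp only [cl9, List.mem_cons, List.not_mem_nil, or_false] at h
  rcases h with rfl | rfl | rfl | rfl | rfl | rfl | rfl | rfl | rfl <;> simp only [inCl] <;> omega

lemma fold_of_fast {tab l : ℕ} {L : List Tile} (h : fastOK tab l L) : foldOK l L := by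
  obtain ⟨h1, h2, h3, h4⟩ := h
  refine ⟨h1, h2, fun e he u hu e' he' hi => ?_, fun e he u hu hin e' he' hn v hv hq => ?_⟩
  · have := inCl_of_mem hu
    refine h3 e he e' he' ?_ ?_ u hu hi <;> simp only [inCl] at this hi <;> omega
  · have a := h4 e he u hu
    have b := h4 e' he' v hv
    rw [← hq] at b
    split_ifs at a b
    · exact a hin
    · rw [a, ← b] at hn
      exact hn (inCl_of_mem hv)

lemma net_of_fast (tab : ℕ) (s : Shape) (h0 : 0 < s.l) (h1 : fastOK tab s.l s.L)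
    (h2 : polyOK s.W s.H s.cells s.D) : IsCubeNet s.cells.toFinset :=
  Shape.net ⟨h0, fold_of_fast h1, h2⟩

end Pool.Agent.Lib.RC68
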