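import Pool.Agent.Lib.RC68.Range

set_option autoImplicit false

namespace Pool.Agent.Lib.RC68

open Pool.Agent.Lib.MP_ea7ca7_co

def un0 : Shape := ⟨1, 2, 5,
  [((1,4),⟨0,0,0,0,1,-4,1,0,-1⟩),
   ((1,3),⟨0,-1,4,0,0,0,1,0,-1⟩),
   ((1,2),⟨0,0,1,0,-1,3,1,0,-1⟩),
   ((0,2),⟨1,0,0,0,-1,3,0,0,0⟩),
   ((0,1),⟨1,0,0,0,0,1,0,-1,2⟩),
   ((0,0),⟨1,0,0,0,1,0,0,0,1⟩)],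
  [(2,5),(1,5),(2,4),(0,5),(2,3),(-1,5),(0,4),(2,2),(-1,4),(0,3),(2,1),(-1,3),(1,1),(2,0),(-1,2),(1,0),(2,-1),(-1,1),(1,-1),(-1,0),(0,-1),(-1,-1)]⟩

lemma un0_ok : un0.ok := by decide +kernel

def un1 : Shape := ⟨1, 3, 4,
  [((2,3),⟨1,0,-2,0,0,0,0,1,-3⟩),
   ((1,3),⟨0,0,0,-1,0,2,0,1,-3⟩),
   ((1,2),⟨0,-1,3,-1,0,2,0,0,0⟩),
   ((1,1),⟨0,0,1,-1,0,2,0,-1,2⟩),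
   ((0,1),⟨1,0,0,0,0,1,0,-1,2⟩),
   ((0,0),⟨1,0,0,0,1,0,0,0,1⟩)],
  [(3,4),(2,4),(3,3),(1,4),(3,2),(0,4),(2,2),(3,1),(-1,4),(0,3),(2,1),(3,0),(-1,3),(0,2),(2,0),(3,-1),(-1,2),(1,0),(2,-1),(-1,1),(1,-1),(-1,0),(0,-1),(-1,-1)]⟩

lemma un1_ok : un1.ok := by decide +kernel

def un2 : Shape := ⟨1, 3, 4,
  [((2,3),⟨1,0,-2,0,0,0,0,1,-3⟩),
   ((2,2),⟨1,0,-2,0,-1,3,0,0,0⟩),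
   ((1,2),⟨0,0,0,0,-1,3,-1,0,2⟩),
   ((1,1),⟨0,-1,2,0,0,1,-1,0,2⟩),
   ((1,0),⟨0,0,1,0,1,0,-1,0,2⟩),
   ((0,0),⟨1,0,0,0,1,0,0,0,1⟩)],
  [(3,4),(2,4),(3,3),(1,4),(3,2),(0,4),(1,3),(3,1),(-1,4),(0,3),(2,1),(3,0),(-1,3),(0,2),(2,0),(3,-1),(-1,2),(0,1),(2,-1),(-1,1),(1,-1),(-1,0),(0,-1),(-1,-1)]⟩

lemma un2_ok : un2.ok := by decide +kernel

def un3 : Shape := ⟨1, 3, 4,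
  [((2,0),⟨1,0,-2,0,-1,1,0,0,0⟩),
   ((1,0),⟨0,0,0,0,-1,1,-1,0,2⟩),
   ((1,1),⟨0,1,-1,0,0,0,-1,0,2⟩),
   ((0,3),⟨1,0,0,0,0,1,0,-1,4⟩),
   ((1,2),⟨0,0,1,0,1,-2,-1,0,2⟩),
   ((0,2),⟨1,0,0,0,1,-2,0,0,1⟩)],
  [(2,3),(3,4),(1,3),(2,4),(2,2),(3,3),(1,4),(2,1),(3,2),(0,4),(3,1),(-1,4),(3,0),(-1,3),(3,-1),(-1,2),(0,1),(2,-1),(-1,1),(0,0),(1,-1),(-1,0),(0,-1),(-1,-1)]⟩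

lemma un3_ok : un3.ok := by decide +kernel

def un4 : Shape := ⟨1, 4, 3,
  [((3,0),⟨1,0,-3,0,0,1,0,-1,1⟩),
   ((2,0),⟨0,0,0,1,0,-2,0,-1,1⟩),
   ((2,1),⟨0,1,-1,1,0,-2,0,0,0⟩),
   ((1,1),⟨0,1,-1,0,0,0,-1,0,2⟩),
   ((1,2),⟨0,0,1,0,1,-2,-1,0,2⟩),
   ((0,2),⟨1,0,0,0,1,-2,0,0,1⟩)],
  [(3,2),(4,3),(2,2),(3,3),(3,1),(4,2),(2,3),(4,1),(1,3),(4,0),(0,3),(4,-1),(-1,3),(3,-1),(-1,2),(0,1),(1,0),(2,-1),(-1,1),(0,0),(1,-1),(-1,0),(0,-1),(-1,-1)]⟩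

lemma un4_ok : un4.ok := by decide +kernel

def un5 : Shape := ⟨1, 3, 4,
  [((2,0),⟨0,0,0,1,0,-2,0,-1,1⟩),
   ((2,1),⟨0,1,-1,1,0,-2,0,0,0⟩),
   ((1,1),⟨0,1,-1,0,0,0,-1,0,2⟩),
   ((0,3),⟨1,0,0,0,0,1,0,-1,4⟩),
   ((1,2),⟨0,0,1,0,1,-2,-1,0,2⟩),
   ((0,2),⟨1,0,0,0,1,-2,0,0,1⟩)],
  [(2,3),(3,4),(1,3),(2,4),(2,2),(3,3),(1,4),(3,2),(0,4),(3,1),(-1,4),(3,0),(-1,3),(3,-1),(-1,2),(0,1),(1,0),(2,-1),(-1,1),(0,0),(1,-1),(-1,0),(0,-1),(-1,-1)]⟩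

lemma un5_ok : un5.ok := by decide +kernel

def un6 : Shape := ⟨1, 4, 3,
  [((3,2),⟨1,0,-3,0,0,0,0,1,-2⟩),
   ((2,2),⟨0,0,0,-1,0,3,0,1,-2⟩),
   ((2,1),⟨0,-1,2,-1,0,3,0,0,0⟩),
   ((1,1),⟨0,-1,2,0,0,1,-1,0,2⟩),
   ((1,0),⟨0,0,1,0,1,0,-1,0,2⟩),
   ((0,0),⟨1,0,0,0,1,0,0,0,1⟩)],
  [(4,3),(3,3),(4,2),(2,3),(4,1),(1,3),(3,1),(4,0),(0,3),(1,2),(3,0),(4,-1),(-1,3),(0,2),(2,0),(3,-1),(-1,2),(0,1),(2,-1),(-1,1),(1,-1),(-1,0),(0,-1),(-1,-1)]⟩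

lemma un6_ok : un6.ok := by decide +kernel

def un7 : Shape := ⟨1, 2, 5,
  [((1,0),⟨0,0,0,0,-1,1,-1,0,2⟩),
   ((0,4),⟨1,0,0,0,-1,5,0,0,0⟩),
   ((1,1),⟨0,1,-1,0,0,0,-1,0,2⟩),
   ((0,3),⟨1,0,0,0,0,1,0,-1,4⟩),
   ((1,2),⟨0,0,1,0,1,-2,-1,0,2⟩),
   ((0,2),⟨1,0,0,0,1,-2,0,0,1⟩)],
  [(1,4),(2,5),(1,5),(1,3),(2,4),(0,5),(2,3),(-1,5),(2,2),(-1,4),(2,1),(-1,3),(2,0),(-1,2),(0,1),(2,-1),(-1,1),(0,0),(1,-1),(-1,0),(0,-1),(-1,-1)]⟩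

lemma un7_ok : un7.ok := by decide +kernel

def un8 : Shape := ⟨1, 4, 3,
  [((3,0),⟨0,0,0,0,1,0,1,0,-3⟩),
   ((3,1),⟨0,1,-1,0,0,1,1,0,-3⟩),
   ((2,1),⟨0,1,-1,1,0,-2,0,0,0⟩),
   ((1,1),⟨0,1,-1,0,0,0,-1,0,2⟩),
   ((1,2),⟨0,0,1,0,1,-2,-1,0,2⟩),
   ((0,2),⟨1,0,0,0,1,-2,0,0,1⟩)],
  [(3,2),(4,3),(2,2),(3,3),(4,2),(2,3),(4,1),(1,3),(4,0),(0,3),(4,-1),(-1,3),(2,0),(3,-1),(-1,2),(0,1),(1,0),(2,-1),(-1,1),(0,0),(1,-1),(-1,0),(0,-1),(-1,-1)]⟩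

lemma un8_ok : un8.ok := by decide +kernel

def un9 : Shape := ⟨1, 4, 3,
  [((3,0),⟨0,0,0,1,0,-3,0,-1,1⟩),
   ((2,0),⟨-1,0,3,0,0,0,0,-1,1⟩),
   ((2,1),⟨-1,0,3,0,1,-1,0,0,0⟩),
   ((0,2),⟨1,0,0,0,0,1,0,-1,3⟩),
   ((1,1),⟨0,0,1,0,1,-1,-1,0,2⟩),
   ((0,1),⟨1,0,0,0,1,-1,0,0,1⟩)],
  [(3,2),(4,3),(2,2),(3,3),(3,1),(4,2),(1,2),(2,3),(4,1),(1,3),(4,0),(0,3),(4,-1),(-1,3),(3,-1),(-1,2),(1,0),(2,-1),(-1,1),(0,0),(1,-1),(-1,0),(0,-1),(-1,-1)]⟩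

lemma un9_ok : un9.ok := by decide +kernel

def un10 : Shape := ⟨1, 5, 2,
  [((4,0),⟨1,0,-4,0,0,1,0,-1,1⟩),
   ((3,0),⟨0,0,0,1,0,-3,0,-1,1⟩),
   ((2,0),⟨-1,0,3,0,0,0,0,-1,1⟩),
   ((2,1),⟨-1,0,3,0,1,-1,0,0,0⟩),
   ((1,1),⟨0,0,1,0,1,-1,-1,0,2⟩),
   ((0,1),⟨1,0,0,0,1,-1,0,0,1⟩)],
  [(4,1),(5,2),(3,1),(4,2),(5,1),(3,2),(5,0),(2,2),(5,-1),(1,2),(4,-1),(0,2),(3,-1),(-1,2),(1,0),(2,-1),(-1,1),(0,0),(1,-1),(-1,0),(0,-1),(-1,-1)]⟩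

lemma un10_ok : un10.ok := by decide +kernel

def un11 : Shape := ⟨1, 3, 4,
  [((2,3),⟨0,0,0,0,1,-3,1,0,-2⟩),
   ((2,2),⟨0,-1,3,0,0,0,1,0,-2⟩),
   ((1,2),⟨0,-1,3,-1,0,2,0,0,0⟩),
   ((1,1),⟨0,0,1,-1,0,2,0,-1,2⟩),
   ((0,1),⟨1,0,0,0,0,1,0,-1,2⟩),
   ((0,0),⟨1,0,0,0,1,0,0,0,1⟩)],
  [(3,4),(2,4),(3,3),(1,4),(3,2),(0,4),(1,3),(3,1),(-1,4),(0,3),(2,1),(3,0),(-1,3),(0,2),(2,0),(3,-1),(-1,2),(1,0),(2,-1),(-1,1),(1,-1),(-1,0),(0,-1),(-1,-1)]⟩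

lemma un11_ok : un11.ok := by decide +kernel

def un12 : Shape := ⟨1, 5, 2,
  [((4,1),⟨1,0,-4,0,0,0,0,1,-1⟩),
   ((3,1),⟨0,0,0,-1,0,4,0,1,-1⟩),
   ((2,1),⟨-1,0,3,0,0,1,0,1,-1⟩),
   ((2,0),⟨-1,0,3,0,1,0,0,0,0⟩),
   ((1,0),⟨0,0,1,0,1,0,-1,0,2⟩),
   ((0,0),⟨1,0,0,0,1,0,0,0,1⟩)],
  [(5,2),(4,2),(5,1),(3,2),(5,0),(2,2),(4,0),(5,-1),(1,2),(3,0),(4,-1),(0,2),(1,1),(3,-1),(-1,2),(0,1),(2,-1),(-1,1),(1,-1),(-1,0),(0,-1),(-1,-1)]⟩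

lemma un12_ok : un12.ok := by decide +kernel

def un13 : Shape := ⟨1, 4, 3,
  [((3,2),⟨0,0,0,0,1,-2,1,0,-3⟩),
   ((2,2),⟨-1,0,3,0,1,-2,0,0,0⟩),
   ((2,1),⟨-1,0,3,0,0,0,0,-1,2⟩),
   ((1,1),⟨0,0,1,-1,0,2,0,-1,2⟩),
   ((0,1),⟨1,0,0,0,0,1,0,-1,2⟩),
   ((0,0),⟨1,0,0,0,1,0,0,0,1⟩)],
  [(4,3),(3,3),(4,2),(2,3),(4,1),(1,3),(3,1),(4,0),(0,3),(1,2),(3,0),(4,-1),(-1,3),(0,2),(2,0),(3,-1),(-1,2),(1,0),(2,-1),(-1,1),(1,-1),(-1,0),(0,-1),(-1,-1)]⟩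

lemma un13_ok : un13.ok := by decide +kernel

def un14 : Shape := ⟨1, 3, 4,
  [((2,0),⟨1,0,-2,0,0,1,0,-1,1⟩),
   ((2,1),⟨1,0,-2,0,-1,2,0,0,0⟩),
   ((1,1),⟨0,0,0,0,-1,2,-1,0,2⟩),
   ((1,2),⟨0,1,-2,0,0,0,-1,0,2⟩),
   ((1,3),⟨0,0,1,0,1,-3,-1,0,2⟩),
   ((0,3),⟨1,0,0,0,1,-3,0,0,1⟩)],
  [(2,3),(3,4),(2,4),(2,2),(3,3),(1,4),(3,2),(0,4),(3,1),(-1,4),(3,0),(-1,3),(0,2),(3,-1),(-1,2),(0,1),(1,0),(2,-1),(-1,1),(0,0),(1,-1),(-1,0),(0,-1),(-1,-1)]⟩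

lemma un14_ok : un14.ok := by decide +kernel

def un15 : Shape := ⟨1, 4, 3,
  [((3,2),⟨0,0,0,0,1,-2,1,0,-3⟩),
   ((3,1),⟨0,-1,2,0,0,0,1,0,-3⟩),
   ((2,1),⟨0,-1,2,-1,0,3,0,0,0⟩),
   ((1,1),⟨0,-1,2,0,0,1,-1,0,2⟩),
   ((1,0),⟨0,0,1,0,1,0,-1,0,2⟩),
   ((0,0),⟨1,0,0,0,1,0,0,0,1⟩)],
  [(4,3),(3,3),(4,2),(2,3),(4,1),(1,3),(2,2),(4,0),(0,3),(1,2),(3,0),(4,-1),(-1,3),(0,2),(2,0),(3,-1),(-1,2),(0,1),(2,-1),(-1,1),(1,-1),(-1,0),(0,-1),(-1,-1)]⟩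

lemma un15_ok : un15.ok := by decide +kernel

def un16 : Shape := ⟨1, 3, 4,
  [((1,3),⟨0,1,-3,0,0,0,-1,0,2⟩),
   ((1,2),⟨0,0,0,0,-1,3,-1,0,2⟩),
   ((2,1),⟨0,-1,2,-1,0,3,0,0,0⟩),
   ((1,1),⟨0,-1,2,0,0,1,-1,0,2⟩),
   ((1,0),⟨0,0,1,0,1,0,-1,0,2⟩),
   ((0,0),⟨1,0,0,0,1,0,0,0,1⟩)],
  [(2,3),(3,4),(2,4),(2,2),(3,3),(1,4),(3,2),(0,4),(3,1),(-1,4),(0,3),(3,0),(-1,3),(0,2),(2,0),(3,-1),(-1,2),(0,1),(2,-1),(-1,1),(1,-1),(-1,0),(0,-1),(-1,-1)]⟩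

lemma un16_ok : un16.ok := by decide +kernel

def un17 : Shape := ⟨1, 3, 4,
  [((1,0),⟨0,0,0,0,-1,1,-1,0,2⟩),
   ((2,3),⟨0,-1,4,-1,0,3,0,0,0⟩),
   ((1,1),⟨0,1,-1,0,0,0,-1,0,2⟩),
   ((1,3),⟨0,-1,4,0,0,1,-1,0,2⟩),
   ((1,2),⟨0,0,1,0,1,-2,-1,0,2⟩),
   ((0,2),⟨1,0,0,0,1,-2,0,0,1⟩)],
  [(3,4),(2,4),(3,3),(1,4),(3,2),(0,4),(2,2),(3,1),(-1,4),(0,3),(2,1),(3,0),(-1,3),(2,0),(3,-1),(-1,2),(0,1),(2,-1),(-1,1),(0,0),(1,-1),(-1,0),(0,-1),(-1,-1)]⟩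

lemma un17_ok : un17.ok := by decide +kernel

def un18 : Shape := ⟨1, 4, 3,
  [((2,0),⟨-1,0,3,0,0,0,0,-1,1⟩),
   ((3,1),⟨0,0,0,0,1,-1,1,0,-3⟩),
   ((1,2),⟨0,-1,3,0,0,1,-1,0,2⟩),
   ((2,1),⟨-1,0,3,0,1,-1,0,0,0⟩),
   ((1,1),⟨0,0,1,0,1,-1,-1,0,2⟩),
   ((0,1),⟨1,0,0,0,1,-1,0,0,1⟩)],
  [(3,2),(4,3),(2,2),(3,3),(4,2),(2,3),(4,1),(1,3),(4,0),(0,3),(3,0),(4,-1),(-1,3),(0,2),(3,-1),(-1,2),(1,0),(2,-1),(-1,1),(0,0),(1,-1),(-1,0),(0,-1),(-1,-1)]⟩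

lemma un18_ok : un18.ok := by decide +kernel

def units : List Shape := [un0, un1, un2, un3, un4, un5, un6, un7, un8, un9, un10, un11, un12, un13, un14, un15, un16, un17, un18]

lemma units_ok : ∀ s ∈ units, s.ok := by
  simp only [units, List.forall_mem_cons]
  exact ⟨un0_ok, un1_ok, un2_ok, un3_ok, un4_ok, un5_ok, un6_ok, un7_ok, un8_ok, un9_ok, un10_ok, un11_ok, un12_ok, un13_ok, un14_ok, un15_ok, un16_ok, un17_ok, un18_ok, by simp⟩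

end Pool.Agent.Lib.RC68
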